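import Pool.Agent.Lib.MP_cad414_al.Defs

namespace Pool.Agent.Lib.MP_cad414_al

open QuadraticMap Module
open scoped commutatorElement

variable {F V : Type} [Field F] [AddCommGroup V] [Module F V] {Q : QuadraticForm F V}

/-- `Omega(V,Q)`: the commutator subgroup of `O(V,Q)`. -/
abbrev Omega (Q : QuadraticForm F V) : Subgroup (OG Q) := commutator (OG Q)

/-- `POmega(V,Q)`: the group `Omega(V,Q)` modulo its centre. -/
abbrev POmega (Q : QuadraticForm F V) : Type := Omega Q ⧸ Subgroup.center (Omega Q)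

/-! ### The bilinear form and the action -/

theorem pself (x : V) : polar Q x x = 2 * Q x := by
  rw [polar_self]; simp [two_mul, two_smul]

theorem Qadd (x y : V) : Q (x + y) = Q x + Q y + polar Q x y := QuadraticMap.map_add Q x y

theorem Qsmul (a : F) (x : V) : Q (a • x) = a * a * Q x := by
  rw [QuadraticMap.map_smul]; simp

theorem Qsub (x y : V) : Q (x - y) = Q x + Q y - polar Q x y := by
  rw [sub_eq_add_neg, Qadd, QuadraticMap.map_neg, polar_neg_right]; ring

theorem pcomm (x y : V) : polar Q x y = polar Q y x := polar_comm _ _ _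

theorem pcomm0 {x y : V} (h : polar Q x y = 0) : polar Q y x = 0 := by rw [pcomm, h]

theorem oext {g h : OG Q} (H : ∀ x : V, g • x = h • x) : g = h := by
  apply Subtype.ext
  apply LinearEquiv.ext
  exact H

theorem Qact (g : OG Q) (x : V) : Q (g • x) = Q x := g.2 x

theorem act_smul (g : OG Q) (a : F) (x : V) : g • (a • x) = a • (g • x) :=
  (g.1).map_smul a x

theorem pact (g : OG Q) (x y : V) : polar Q (g • x) (g • y) = polar Q x y := by
  unfold polar
  rw [← smul_add, Qact, Qact, Qact]

theorem pact' (g : OG Q) (x y : V) : polar Q (g • x) y = polar Q x (g⁻¹ • y) := by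
  rw [← pact g x, smul_inv_smul]

/-! ### Reflections -/

noncomputable def rl (Q : QuadraticForm F V) (u : V) : V →ₗ[F] V where
  toFun x := x - (polar Q x u / Q u) • u
  map_add' x y := by rw [polar_add_left, add_div, add_smul]; abel
  map_smul' a x := by
    rw [polar_smul_left, smul_eq_mul, RingHom.id_apply, smul_sub, smul_smul, mul_div_assoc]

theorem rl_apply (u x : V) : rl Q u x = x - (polar Q x u / Q u) • u := rfl

theorem rl_inv (u : V) : Function.Involutive (rl Q u) := by
  intro x
  by_cases h : Q u = 0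
  · simp [rl_apply, h]
  · rw [rl_apply, rl_apply, polar_sub_left, polar_smul_left, pself, smul_eq_mul, sub_sub,
      ← add_smul]
    have : polar Q x u / Q u + (polar Q x u - polar Q x u / Q u * (2 * Q u)) / Q u = 0 := by
      field_simp; ring
    rw [this]; simp

/-- the reflection in `u` (the identity if `u` is singular) -/
noncomputable def r (Q : QuadraticForm F V) (u : V) : OG Q :=
  ⟨LinearEquiv.ofInvolutive (rl Q u) (rl_inv u), fun x => by
    show Q (rl Q u x) = Q x
    by_cases h : Q u = 0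
    · simp [rl_apply, h]
    · rw [rl_apply, Qsub, Qsmul, polar_smul_right, smul_eq_mul]
      field_simp; ring⟩

theorem r_act (u x : V) : r Q u • x = x - (polar Q x u / Q u) • u := rfl

theorem r_act1 {u : V} (h : Q u = 1) (x : V) : r Q u • x = x - polar Q x u • u := by
  rw [r_act, h, div_one]

theorem r_act0 {u x : V} (h : polar Q x u = 0) : r Q u • x = x := by
  rw [r_act, h]; simp

theorem r_rr (u x : V) : r Q u • r Q u • x = x := rl_inv u x

theorem r_mul_self (u : V) : r Q u * r Q u = 1 := oext fun x => by rw [mul_smul, r_rr, one_smul]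

theorem r_inv (u : V) : (r Q u)⁻¹ = r Q u := inv_eq_of_mul_eq_one_right (r_mul_self u)

theorem r_cancel (u : V) (g : OG Q) : r Q u * (r Q u * g) = g := by
  rw [← mul_assoc, r_mul_self, one_mul]

theorem r_conj (g : OG Q) (u : V) : g * r Q u * g⁻¹ = r Q (g • u) := oext fun x => by
  rw [mul_smul, mul_smul, r_act, r_act, smul_sub, act_smul, smul_inv_smul, Qact, pact', inv_inv]

theorem r_neg (u : V) : r Q (-u) = r Q u := oext fun x => by
  rw [r_act, r_act, polar_neg_right, QuadraticMap.map_neg, neg_div, neg_smul_neg]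

theorem r_sing {u : V} (h : Q u = 0) : r Q u = 1 := oext fun x => by
  rw [r_act, h]; simp

theorem r_self {u : V} (h : Q u = 1) : r Q u • u = -u := by
  rw [r_act1 h, pself, h, mul_one, two_smul]; abel

theorem comm_of_fix {g : OG Q} {u : V} (h : g • u = u ∨ g • u = -u) : Commute g (r Q u) := by
  have := r_conj g u
  have h2 : r Q (g • u) = r Q u := by
    rcases h with h | h
    · rw [h]
    · rw [h, r_neg]
  rw [h2] at this
  exact mul_inv_eq_iff_eq_mul.1 this

theorem r_comm {u v : V} (h : polar Q u v = 0) : Commute (r Q u) (r Q v) :=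
  comm_of_fix (Or.inl (r_act0 (pcomm0 h)))

/-- inner product plus or minus one -/
def Un (Q : QuadraticForm F V) (x y : V) : Prop := polar Q x y = 1 ∨ polar Q x y = -1

theorem Un.symm {x y : V} (h : Un Q x y) : Un Q y x := by
  unfold Un at *; rwa [pcomm]

theorem slide_act {x y : V} (hx : Q x = 1) (hy : Q y = 1) (h : Un Q x y) :
    r Q x • r Q y • x = y ∨ r Q x • r Q y • x = -y := by
  rw [r_act1 hy, smul_sub, act_smul, r_self hx, r_act1 hx, pcomm y x]
  rcases h with h | h
  · right; rw [h]; module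
  · left; rw [h]; module

theorem r_slide {x y : V} (hx : Q x = 1) (hy : Q y = 1) (h : Un Q x y) :
    r Q ((r Q x * r Q y) • x) = r Q y := by
  rw [mul_smul]
  rcases slide_act hx hy h with h | h
  · rw [h]
  · rw [h, r_neg]

theorem r_braid {x y : V} (hx : Q x = 1) (hy : Q y = 1) (h : Un Q x y) :
    r Q x * r Q y * r Q x = r Q y * r Q x * r Q y := by
  have h1 := r_conj (r Q x * r Q y) x
  rw [r_slide hx hy h, mul_inv_eq_iff_eq_mul] at h1
  rw [h1, mul_assoc]

/-! ### Eichler transformations -/

noncomputable def el (Q : QuadraticForm F V) (s w : V) : V →ₗ[F] V where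
  toFun x := x + polar Q x s • w - polar Q x w • s - (Q w * polar Q x s) • s
  map_add' x y := by simp only [polar_add_left]; module
  map_smul' a x := by simp only [polar_smul_left, smul_eq_mul, RingHom.id_apply]; module

theorem el_apply (s w x : V) :
    el Q s w x = x + polar Q x s • w - polar Q x w • s - (Q w * polar Q x s) • s := rfl

theorem el_el {s w w' : V} (hs : Q s = 0) (hw : polar Q s w = 0) (hw' : polar Q s w' = 0) (x : V) :
    el Q s w (el Q s w' x) = el Q s (w + w') x := by
  have h2 := pcomm0 hw'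
  simp only [el_apply, polar_add_left, polar_sub_left, polar_smul_left, polar_add_right, pself,
    hs, hw, h2, Qadd, smul_eq_mul, pcomm w' w]
  module

theorem el_zero (s x : V) : el Q s 0 x = x := by simp [el_apply]

open Classical in
/-- the Eichler transformation (the identity if the data are not admissible) -/
noncomputable def E (Q : QuadraticForm F V) (s w : V) : OG Q :=
  if h : Q s = 0 ∧ polar Q s w = 0 then
    ⟨LinearEquiv.ofLinearMap (el Q s w) (el Q s (-w))
      (by ext x; simp [el_el h.1 h.2 (w' := -w) (by simp [h.2]), el_zero])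
      (by ext x; simp [el_el h.1 (w := -w) (by simp [h.2]) h.2, el_zero]), fun x => by
      show Q (el Q s w x) = Q x
      have h1 := pcomm0 h.2
      simp only [el_apply, Qsub, Qadd, Qsmul, polar_add_left, polar_sub_left, polar_smul_left,
        polar_smul_right, pself, h.1, h1, smul_eq_mul]
      ring⟩
  else 1

theorem E_act {s w : V} (hs : Q s = 0) (hw : polar Q s w = 0) (x : V) :
    E Q s w • x = x + polar Q x s • w - polar Q x w • s - (Q w * polar Q x s) • s := by
  unfold E
  rw [dif_pos ⟨hs, hw⟩]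
  rfl

theorem E_add {s w w' : V} (hs : Q s = 0) (hw : polar Q s w = 0) (hw' : polar Q s w' = 0) :
    E Q s (w + w') = E Q s w * E Q s w' := oext fun x => by
  rw [mul_smul, E_act hs hw, E_act hs hw', E_act hs (by simp [hw, hw'])]
  exact (el_el hs hw hw' x).symm

theorem E_self {s : V} (hs : Q s = 0) (a : F) : E Q s (a • s) = 1 := oext fun x => by
  rw [E_act hs (by simp [hs])]
  simp only [polar_smul_right, Qsmul, hs, smul_eq_mul, one_smul]
  module

theorem E_zero {s : V} (hs : Q s = 0) : E Q s 0 = 1 := by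
  have := E_self hs 0
  rwa [zero_smul] at this

theorem E_neg {s w : V} (hs : Q s = 0) (hw : polar Q s w = 0) : E Q s (-w) = (E Q s w)⁻¹ := by
  apply eq_inv_of_mul_eq_one_left
  rw [← E_add hs (by simp [hw]) hw, neg_add_cancel, E_zero hs]

theorem E_conj {s w : V} (hs : Q s = 0) (hw : polar Q s w = 0) (g : OG Q) :
    g * E Q s w * g⁻¹ = E Q (g • s) (g • w) := oext fun x => by
  rw [mul_smul, mul_smul, E_act hs hw, E_act (by rw [Qact, hs]) (by rw [pact, hw])]
  simp only [smul_sub, smul_add, act_smul, smul_inv_smul, Qact, pact', inv_inv]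

theorem E_smul {s w : V} (hs : Q s = 0) (hw : polar Q s w = 0) (a : F) :
    E Q (a • s) w = E Q s (a • w) := oext fun x => by
  rw [E_act (by rw [Qsmul, hs, mul_zero]) (by simp [hw]), E_act hs (by simp [hw])]
  simp only [polar_smul_right, Qsmul, smul_eq_mul]
  module

theorem E_rr {s c : V} (hs : Q s = 0) (hc : Q c = 1) (h : polar Q s c = 0) :
    r Q c * r Q (c + s) = E Q s c := oext fun x => by
  have h1 := pcomm0 h
  have h2 : Q (c + s) = 1 := by rw [Qadd, hs, hc, h1]; ring
  rw [mul_smul, r_act1 h2, r_act1 hc, E_act hs h]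
  simp only [polar_add_left, polar_sub_left, polar_smul_left, polar_add_right, pself, hc, h,
    smul_eq_mul]
  module

/-! ### Nondegenerate subspaces -/

/-- nondegenerate subspace -/
def ND (Q : QuadraticForm F V) (W : Submodule F V) : Prop :=
  ∀ x ∈ W, (∀ y ∈ W, polar Q x y = 0) → x = 0

/-- the part of `W` orthogonal to `u` -/
noncomputable def perp (Q : QuadraticForm F V) (W : Submodule F V) (u : V) : Submodule F V :=
  W ⊓ LinearMap.ker (polarBilin Q u)

theorem mem_perp {W : Submodule F V} {u x : V} : x ∈ perp Q W u ↔ x ∈ W ∧ polar Q u x = 0 := by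
  simp [perp]

theorem finrank_perp [FiniteDimensional F V] {W : Submodule F V} {u x : V} (hx : x ∈ W)
    (h : polar Q u x ≠ 0) : finrank F (perp Q W u) + 1 = finrank F W := by
  have h1 := LinearMap.finrank_range_add_finrank_ker ((polarBilin Q u).domRestrict W)
  have h2 : LinearMap.range ((polarBilin Q u).domRestrict W) = ⊤ := by
    rw [eq_top_iff]
    intro a _
    refine ⟨(a / polar Q u x) • ⟨x, hx⟩, ?_⟩
    simp [h]
  rw [h2, finrank_top, finrank_self, LinearMap.ker_domRestrict] at h1
  rw [← h1, add_comm, perp, ← Submodule.map_comap_subtype, Submodule.finrank_map_subtype_eq]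

theorem split1 [FiniteDimensional F V] {W : Submodule F V} (hW : ND Q W) {u : V} (hu : u ∈ W)
    (h : polar Q u u ≠ 0) : ND Q (perp Q W u) ∧ finrank F (perp Q W u) + 1 = finrank F W ∧
      ∀ M : Submodule F V, u ∈ M → perp Q W u ≤ M → W ≤ M := by
  have key : ∀ y ∈ W, y - (polar Q u y / polar Q u u) • u ∈ perp Q W u := by
    intro y hy
    refine mem_perp.2 ⟨W.sub_mem hy (W.smul_mem _ hu), ?_⟩
    rw [polar_sub_right, polar_smul_right, smul_eq_mul, div_mul_cancel₀ _ h, sub_self]
  refine ⟨?_, finrank_perp hu h, ?_⟩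
  · intro x hx H
    obtain ⟨hx1, hx2⟩ := mem_perp.1 hx
    refine hW x hx1 fun y hy => ?_
    have := H _ (key y hy)
    rwa [polar_sub_right, polar_smul_right, pcomm0 hx2, smul_zero, sub_zero] at this
  · intro M huM hM y hy
    have := M.add_mem (hM (key y hy)) (M.smul_mem (polar Q u y / polar Q u u) huM)
    rwa [sub_add_cancel] at this

theorem split2 [FiniteDimensional F V] {W : Submodule F V} (hW : ND Q W) {u v : V} (hu : u ∈ W)
    (hv : v ∈ W) (h : polar Q u u * polar Q v v - polar Q u v * polar Q u v ≠ 0) :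
    ND Q (perp Q (perp Q W u) v) ∧ finrank F (perp Q (perp Q W u) v) + 2 = finrank F W ∧
      ∀ M : Submodule F V, u ∈ M → v ∈ M → perp Q (perp Q W u) v ≤ M → W ≤ M := by
  set D := polar Q u u * polar Q v v - polar Q u v * polar Q u v with hD
  have key : ∀ y ∈ W, y - ((polar Q u y * polar Q v v - polar Q v y * polar Q u v) / D) • u -
      ((polar Q v y * polar Q u u - polar Q u y * polar Q u v) / D) • v ∈
        perp Q (perp Q W u) v := by
    intro y hy
    refine mem_perp.2 ⟨mem_perp.2 ⟨W.sub_mem (W.sub_mem hy (W.smul_mem _ hu))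
      (W.smul_mem _ hv), ?_⟩, ?_⟩
    · simp only [polar_sub_right, polar_smul_right, smul_eq_mul]
      field_simp
      rw [hD]; ring
    · simp only [polar_sub_right, polar_smul_right, smul_eq_mul, pcomm v u]
      field_simp
      rw [hD]; ring
  refine ⟨?_, ?_, ?_⟩
  · intro x hx H
    obtain ⟨hx1, hx3⟩ := mem_perp.1 hx
    obtain ⟨hx1, hx2⟩ := mem_perp.1 hx1
    refine hW x hx1 fun y hy => ?_
    have := H _ (key y hy)
    rwa [polar_sub_right, polar_sub_right, polar_smul_right, polar_smul_right, pcomm0 hx2,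
      pcomm0 hx3, smul_zero, smul_zero, sub_zero, sub_zero] at this
  · have h1 : finrank F (perp Q W u) + 1 = finrank F W := by
      by_cases h0 : polar Q u u = 0
      · refine finrank_perp hv fun h1 => h ?_
        rw [hD, h0, h1]; ring
      · exact finrank_perp hu h0
    have h2 : finrank F (perp Q (perp Q W u) v) + 1 = finrank F (perp Q W u) := by
      refine finrank_perp (x := polar Q u u • v - polar Q u v • u) (mem_perp.2 ⟨W.sub_mem
        (W.smul_mem _ hv) (W.smul_mem _ hu), ?_⟩) ?_
      · simp only [polar_sub_right, polar_smul_right, smul_eq_mul]; ring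
      · simp only [polar_sub_right, polar_smul_right, smul_eq_mul, pcomm v u]
        exact h
    omega
  · intro M huM hvM hM y hy
    have := M.add_mem (M.add_mem (hM (key y hy)) (M.smul_mem
      ((polar Q v y * polar Q u u - polar Q u y * polar Q u v) / D) hvM)) (M.smul_mem
      ((polar Q u y * polar Q v v - polar Q v y * polar Q u v) / D) huM)
    rwa [sub_add_cancel, sub_add_cancel] at this

theorem exists_ne_zero [FiniteDimensional F V] {W : Submodule F V} (h : 1 ≤ finrank F W) :
    ∃ x ∈ W, x ≠ 0 := by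
  by_contra H
  push Not at H
  have : W = ⊥ := (Submodule.eq_bot_iff W).2 H
  rw [this, finrank_bot] at h
  omega

theorem exists_dual {W : Submodule F V} (hW : ND Q W) {x : V} (hx : x ∈ W) (h : x ≠ 0) (a : F) :
    ∃ y ∈ W, polar Q x y = a := by
  have : ∃ y ∈ W, polar Q x y ≠ 0 := by
    by_contra H
    push Not at H
    exact h (hW x hx H)
  obtain ⟨y, hy, h1⟩ := this
  refine ⟨(a / polar Q x y) • y, W.smul_mem _ hy, ?_⟩
  rw [polar_smul_right, smul_eq_mul, div_mul_cancel₀ _ h1]

theorem exists_aniso [FiniteDimensional F V] {W : Submodule F V} (hW : ND Q W)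
    (h : 1 ≤ finrank F W) : ∃ x ∈ W, Q x ≠ 0 := by
  by_contra H
  push Not at H
  obtain ⟨x, hx, h0⟩ := exists_ne_zero h
  refine h0 (hW x hx fun y hy => ?_)
  have := Qadd (Q := Q) x y
  rw [H x hx, H y hy, H _ (W.add_mem hx hy)] at this
  simpa using this.symm

theorem exists_sq [Finite F] (h2 : (2 : F) = 0) (a : F) : ∃ b, b * b = a := by
  have : ringChar F = 2 := by
    by_contra h
    exact Ring.two_ne_zero h h2
  obtain ⟨b, hb⟩ := FiniteField.isSquare_of_char_two this a
  exact ⟨b, hb.symm⟩

open Polynomial in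
theorem exists_two_sq [Finite F] (h2 : (2 : F) ≠ 0) {a b : F} (ha : a ≠ 0) (hb : b ≠ 0) (c : F) :
    ∃ x y, x * x * a + y * y * b = c := by
  have := Fintype.ofFinite F
  have hc : ringChar F ≠ 2 := by
    intro h
    apply h2
    have := ringChar.Nat.cast_ringChar (R := F)
    rw [h] at this
    exact_mod_cast this
  have h1 : (C a * X ^ 2 : F[X]).degree = 2 := by
    rw [degree_C_mul_X_pow 2 ha]; rfl
  have h3 : (C b * X ^ 2 - C c : F[X]).degree = 2 := by
    rw [degree_sub_C] <;> rw [degree_C_mul_X_pow 2 hb]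
    · rfl
    · norm_num
  obtain ⟨x, y, hxy⟩ := FiniteField.exists_root_sum_quadratic h1 h3
    (FiniteField.odd_card_of_char_ne_two hc)
  refine ⟨x, y, ?_⟩
  simp only [eval_mul, eval_C, eval_pow, eval_X, eval_sub] at hxy
  linear_combination hxy

theorem universal [Finite F] [FiniteDimensional F V] {W : Submodule F V} (hW : ND Q W)
    (h : 2 ≤ finrank F W) (c : F) : ∃ x ∈ W, Q x = c := by
  obtain ⟨u, hu, hu0⟩ := exists_aniso hW (by omega)
  by_cases h2 : (2 : F) = 0
  · obtain ⟨b, hb⟩ := exists_sq h2 (c / Q u)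
    exact ⟨b • u, W.smul_mem _ hu, by rw [Qsmul, hb, div_mul_cancel₀ _ hu0]⟩
  · obtain ⟨h3, h4, -⟩ := split1 hW hu (by rw [pself]; exact mul_ne_zero h2 hu0)
    obtain ⟨v, hv, hv0⟩ := exists_aniso h3 (by omega)
    obtain ⟨hv1, hv2⟩ := mem_perp.1 hv
    obtain ⟨x, y, hxy⟩ := exists_two_sq h2 hu0 hv0 c
    refine ⟨x • u + y • v, W.add_mem (W.smul_mem _ hu) (W.smul_mem _ hv1), ?_⟩
    rw [Qadd, Qsmul, Qsmul, polar_smul_left, polar_smul_right, hv2]
    simpa using hxy

/-! ### Classes of unit vectors and the generation theorem -/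

/-- a set of unit vectors closed under its own reflections -/
structure Cl (Q : QuadraticForm F V) (C : Set V) : Prop where
  norm : ∀ c ∈ C, Q c = 1
  refl : ∀ a ∈ C, ∀ b ∈ C, r Q a • b ∈ C

theorem Cl.neg {C : Set V} (hC : Cl Q C) {c : V} (hc : c ∈ C) : -c ∈ C := by
  have := hC.refl c hc c hc
  rwa [r_self (hC.norm c hc)] at this

theorem Cl.back {C : Set V} (hC : Cl Q C) {a b : V} (ha : a ∈ C) (hb : r Q a • b ∈ C) :
    b ∈ C := by
  have := hC.refl a ha _ hb
  rwa [r_rr] at this

theorem Cl.force {C : Set V} (hC : Cl Q C) {x y : V} (hx : x ∈ C) (hy : Q y = 1) (hu : Un Q x y)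
    (h : r Q y • x ∈ C) : y ∈ C := by
  have h1 := hC.refl x hx _ h
  rcases slide_act (hC.norm x hx) hy hu with h2 | h2
  · rwa [h2] at h1
  · rw [h2] at h1
    simpa using hC.neg h1

/-- the group generated by products of two reflections in vectors of `C` -/
def NG (Q : QuadraticForm F V) (C : Set V) : Subgroup (OG Q) :=
  Subgroup.closure {g | ∃ a ∈ C, ∃ b ∈ C, g = r Q a * r Q b}

theorem rr_mem {C : Set V} {a b : V} (ha : a ∈ C) (hb : b ∈ C) : r Q a * r Q b ∈ NG Q C :=
  Subgroup.subset_closure ⟨a, ha, b, hb, rfl⟩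

theorem NG_act {C : Set V} (hC : Cl Q C) {n : OG Q} (hn : n ∈ NG Q C) :
    ∀ c, c ∈ C ↔ n • c ∈ C := by
  induction hn using Subgroup.closure_induction with
  | mem g hg =>
    obtain ⟨a, ha, b, hb, rfl⟩ := hg
    intro c
    rw [mul_smul]
    exact ⟨fun h => hC.refl a ha _ (hC.refl b hb c h), fun h => hC.back hb (hC.back ha h)⟩
  | one => simp
  | mul x y _ _ hx hy => intro c; rw [mul_smul, ← hx, ← hy]
  | inv x _ hx => intro c; rw [hx (x⁻¹ • c), smul_inv_smul]

theorem NG_conj {C : Set V} {g : OG Q} (hg : ∀ c ∈ C, g • c ∈ C) {n : OG Q} (hn : n ∈ NG Q C) :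
    g * n * g⁻¹ ∈ NG Q C := by
  induction hn using Subgroup.closure_induction with
  | mem x hx =>
    obtain ⟨a, ha, b, hb, rfl⟩ := hx
    have := rr_mem (Q := Q) (hg a ha) (hg b hb)
    rw [← r_conj, ← r_conj] at this
    convert this using 1
    group
  | one => simp
  | mul x y _ _ hx hy =>
    convert (NG Q C).mul_mem hx hy using 1
    group
  | inv x _ hx =>
    convert (NG Q C).inv_mem hx using 1
    group

/-- the saturation property -/
def Sat (Q : QuadraticForm F V) (C : Set V) (s : V) : Prop :=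
  ∃ c ∈ C, c + s ∈ C ∧ polar Q s c = 0 ∧ ∀ A : AddSubgroup V, (∀ k : F, k • s ∈ A) → c ∈ A →
    (∀ w ∈ A, ∀ d ∈ C, polar Q s d = 0 → polar Q w d • d ∈ A) → ∀ w, polar Q s w = 0 → w ∈ A

theorem E_mem {C : Set V} (hC : Cl Q C) {s : V} (hs : Q s = 0) (h : Sat Q C s) (w : V)
    (hw : polar Q s w = 0) : E Q s w ∈ NG Q C := by
  obtain ⟨c, hc, hcs, hsc, H⟩ := h
  let A : AddSubgroup V :=
    { carrier := {w | polar Q s w = 0 ∧ E Q s w ∈ NG Q C}
      zero_mem' := ⟨by simp, by rw [E_zero hs]; exact one_mem _⟩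
      add_mem' := fun {a b} ha hb => ⟨by simp [ha.1, hb.1], by
        rw [E_add hs ha.1 hb.1]; exact mul_mem ha.2 hb.2⟩
      neg_mem' := fun {a} ha => ⟨by simp [ha.1], by
        rw [E_neg hs ha.1]; exact inv_mem ha.2⟩ }
  refine (H A (fun k => ⟨by simp [hs], by rw [E_self hs]; exact one_mem _⟩)
    ⟨hsc, by rw [← E_rr hs (hC.norm c hc) hsc]; exact rr_mem hc hcs⟩ ?_ w hw).2
  intro w hw d hd hsd
  have h1 : r Q d • w ∈ A := by
    have h2 : r Q d • s = s := r_act0 hsd
    refine ⟨by rw [← h2, pact]; exact hw.1, ?_⟩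
    have := NG_conj (g := r Q d) (fun c hc => hC.refl d hd c hc) hw.2
    rwa [E_conj hs hw.1, h2] at this
  have := A.sub_mem hw h1
  rwa [r_act1 (hC.norm d hd), sub_sub_cancel] at this

theorem dec {s s' : V} (hs : Q s = 0) (hs' : Q s' = 0) (h1 : polar Q s s' = 1) (v : V) :
    ∃ (a b : F) (u : V), polar Q s u = 0 ∧ polar Q s' u = 0 ∧ v = a • s + b • s' + u := by
  refine ⟨polar Q s' v, polar Q s v, v - polar Q s' v • s - polar Q s v • s', ?_, ?_, by abel⟩
  · simp [hs, h1]
  · simp [hs', pcomm s' s, h1]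

theorem step {s s' : V} (hQ : ND Q ⊤) (hs : Q s = 0) (hs' : Q s' = 0) (h1 : polar Q s s' = 1)
    (hU : ∀ c, ∃ w, polar Q s w = 0 ∧ polar Q s' w = 0 ∧ Q w = c) (a b : F) {u : V}
    (hu : polar Q s u = 0) (hu' : polar Q s' u = 0) (h : b ≠ 0 ∨ u ≠ 0) :
    ∃ w, polar Q s w = 0 ∧ polar Q (E Q s w • (a • s + b • s' + u)) s' = 1 := by
  have h2 : polar Q s' s = 1 := by rw [pcomm, h1]
  have key : ∀ w, polar Q s w = 0 → polar Q s' w = 0 →
      polar Q (E Q s w • (a • s + b • s' + u)) s' = a - polar Q u w - Q w * b := by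
    intro w hw hw'
    rw [E_act hs hw]
    simp only [polar_add_left, polar_sub_left, polar_smul_left, pself, hs, hs', h1, h2, hw, hw',
      pcomm0 hu, pcomm0 hu', pcomm0 hw', smul_eq_mul]
    ring
  by_cases hb : b = 0
  · have hu0 : u ≠ 0 := by tauto
    obtain ⟨x, -, hx⟩ := exists_dual hQ (x := u) trivial hu0 (a - 1)
    obtain ⟨a', b', w, hw, hw', rfl⟩ := dec hs hs' h1 x
    refine ⟨w, hw, ?_⟩
    simp only [polar_add_right, polar_smul_right, pcomm0 hu, pcomm0 hu', smul_zero,
      zero_add] at hx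
    rw [key w hw hw', hx, hb]; ring
  · obtain ⟨w, hw, hw', hq⟩ := hU ((a - 1 + b⁻¹ * Q u) / b)
    have e1 : polar Q s (w - b⁻¹ • u) = 0 := by simp [hw, hu]
    have e2 : polar Q s' (w - b⁻¹ • u) = 0 := by simp [hw', hu']
    refine ⟨_, e1, ?_⟩
    rw [key _ e1 e2, Qsub, Qsmul, hq]
    simp only [polar_sub_right, polar_smul_right, pself, smul_eq_mul, pcomm w u]
    field_simp
    ring

theorem fin_step {s s' : V} (hs : Q s = 0) (hs' : Q s' = 0) (h1 : polar Q s s' = 1) {v : V}
    (hv : polar Q v s = 1) : ∃ w, polar Q s w = 0 ∧ E Q s w • v = s' + Q v • s := by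
  obtain ⟨a, b, u, hu, hu', rfl⟩ := dec hs hs' h1 v
  have h2 : polar Q s' s = 1 := by rw [pcomm, h1]
  have hb : b = 1 := by simpa [hs, h2, pcomm0 hu] using hv
  subst hb
  have e1 : polar Q s (-u) = 0 := by simp [hu]
  refine ⟨-u, e1, ?_⟩
  rw [E_act hs e1, hv]
  simp only [polar_add_left, polar_smul_left, polar_neg_right, polar_smul_right, pself, hs, hs',
    h1, hu, hu', Qadd, Qsmul, QuadraticMap.map_neg, smul_eq_mul]
  module

theorem trans_aux {s s' : V} (hQ : ND Q ⊤) (hs : Q s = 0) (hs' : Q s' = 0)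
    (h1 : polar Q s s' = 1) (hU : ∀ c, ∃ w, polar Q s w = 0 ∧ polar Q s' w = 0 ∧ Q w = c)
    (N : Subgroup (OG Q)) (hE : ∀ w, polar Q s w = 0 → E Q s w ∈ N)
    (hE' : ∀ w, polar Q s' w = 0 → E Q s' w ∈ N) {v : V} (hv : v ≠ 0) :
    ∃ n ∈ N, n • v = s' + Q v • s := by
  have h2 : polar Q s' s = 1 := by rw [pcomm, h1]
  have A : ∀ v, (¬ ∃ b : F, v = b • s') → ∃ n ∈ N, n • v = s' + Q v • s := by
    intro v hv
    obtain ⟨a, b, u, hu, hu', e⟩ := dec hs' hs h2 v
    have h : b ≠ 0 ∨ u ≠ 0 := by
      by_contra H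
      push Not at H
      exact hv ⟨a, by rw [e, H.1, H.2]; simp⟩
    obtain ⟨w, hw, h3⟩ := step hQ hs' hs h2 (fun c => by
      obtain ⟨w, x, y, z⟩ := hU c
      exact ⟨w, y, x, z⟩) a b hu hu' h
    rw [← e] at h3
    obtain ⟨w', hw', h4⟩ := fin_step hs hs' h1 h3
    refine ⟨E Q s w' * E Q s' w, mul_mem (hE _ hw') (hE' _ hw), ?_⟩
    rw [mul_smul, h4, Qact]
  by_cases h : ∃ b : F, v = b • s'
  · obtain ⟨b, hb⟩ := h
    have hb0 : b ≠ 0 := by
      rintro rfl
      exact hv (by simp [hb])
    obtain ⟨w, hw, h3⟩ := step hQ hs hs' h1 hU 0 b (u := 0) (by simp) (by simp) (Or.inl hb0)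
    rw [zero_smul, zero_add, add_zero, ← hb] at h3
    obtain ⟨n, hn, h4⟩ := A (E Q s w • v) (by
      rintro ⟨b', hb'⟩
      rw [hb'] at h3
      simp [hs'] at h3)
    refine ⟨n * E Q s w, mul_mem hn (hE _ hw), ?_⟩
    rw [mul_smul, h4, Qact]
  · exact A v h

/-- transitivity on nonzero vectors of each norm -/
def Tr (Q : QuadraticForm F V) (N : Subgroup (OG Q)) : Prop :=
  ∀ u v : V, Q u = Q v → u ≠ 0 → v ≠ 0 → ∃ n ∈ N, n • u = v

theorem gen_trans [Finite F] [FiniteDimensional F V] (hQ : ND Q ⊤) (hd : 4 ≤ finrank F V)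
    {C : Set V} (hC : Cl Q C) {s y : V} (hs : Q s = 0) (hsat : Sat Q C s) (hy : y ∈ C)
    (hsy : polar Q s y ≠ 0) : Tr Q (NG Q C) := by
  have hE := E_mem hC hs hsat
  have hy1 := hC.norm y hy
  set k : F := -(polar Q s y * polar Q s y)⁻¹ with hk
  have hs' : Q (k • r Q y • s) = 0 := by rw [Qsmul, Qact, hs, mul_zero]
  have h1 : polar Q s (k • r Q y • s) = 1 := by
    rw [r_act1 hy1, hk]
    simp only [polar_smul_right, polar_sub_right, pself, hs, smul_eq_mul]
    field_simp
    ring
  have hE' : ∀ w, polar Q (k • r Q y • s) w = 0 → E Q (k • r Q y • s) w ∈ NG Q C := by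
    intro w hw
    have hk0 : k ≠ 0 := by simp [hk, hsy]
    have hw1 : polar Q (r Q y • s) w = 0 := by simpa [hk0] using hw
    have hw2 : polar Q s (r Q y • k • w) = 0 := by
      rw [← pact (r Q y), r_rr]; simp [hw1]
    rw [E_smul (by rw [Qact, hs]) hw1]
    have := NG_conj (g := r Q y) (fun c hc => hC.refl y hy c hc) (hE _ hw2)
    rwa [E_conj hs hw2, r_rr] at this
  obtain ⟨h3, h4, -⟩ := split2 hQ (u := s) (v := k • r Q y • s) trivial trivial (by
    rw [pself, hs, h1]; simp)
  rw [finrank_top] at h4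
  have hU : ∀ c, ∃ w, polar Q s w = 0 ∧ polar Q (k • r Q y • s) w = 0 ∧ Q w = c := by
    intro c
    obtain ⟨w, hw, hq⟩ := universal h3 (by omega) c
    exact ⟨w, (mem_perp.1 (mem_perp.1 hw).1).2, (mem_perp.1 hw).2, hq⟩
  intro u v huv hu hv
  obtain ⟨n, hn, e1⟩ := trans_aux hQ hs hs' h1 hU _ hE hE' hu
  obtain ⟨n', hn', e2⟩ := trans_aux hQ hs hs' h1 hU _ hE hE' hv
  refine ⟨n'⁻¹ * n, mul_mem (inv_mem hn') hn, ?_⟩
  rw [mul_smul, e1, huv, ← e2, inv_smul_smul]

theorem ne_zero_of_one {u : V} (h : Q u = 1) : u ≠ 0 := by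
  rintro rfl
  simp at h

theorem gen_all {C : Set V} (hC : Cl Q C) (h : Tr Q (NG Q C)) {y : V} (hy : y ∈ C) :
    C = {u | Q u = 1} := by
  ext u
  refine ⟨hC.norm u, fun hu => ?_⟩
  obtain ⟨n, hn, e⟩ := h y u (by rw [hC.norm y hy, hu]) (ne_zero_of_one (hC.norm y hy))
    (ne_zero_of_one hu)
  rw [← e]
  exact (NG_act hC hn y).1 hy

/-- the fixed space -/
def Fix (g : OG Q) : Submodule F V where
  carrier := {x | g • x = x}
  zero_mem' := smul_zero g
  add_mem' := fun {a b} ha hb => by
    show g • (a + b) = a + b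
    rw [smul_add, ha, hb]
  smul_mem' := fun a x hx => by
    show g • (a • x) = a • x
    rw [act_smul, hx]

theorem gen_O [FiniteDimensional F V] (hQ : ND Q ⊤) (K : Subgroup (OG Q)) (hr : ∀ u, r Q u ∈ K)
    (hE : ∀ s w, E Q s w ∈ K) (g : OG Q) : g ∈ K := by
  induction hn : finrank F V - finrank F (Fix g) using Nat.strong_induction_on generalizing g with
  | _ n ih =>
  have key : ∀ h ∈ K, ∀ x : V, g • x ≠ x → h • g • x = x →
      (∀ f : V, g • f = f → h • f = f) → g ∈ K := by
    intro h hh x hx h1 h2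
    have hlt : Fix g < Fix (h * g) := by
      refine lt_of_le_of_ne (fun f hf => ?_) fun e => hx ?_
      · show (h * g) • f = f
        rw [mul_smul, hf, h2 f hf]
      · have : x ∈ Fix (h * g) := by
          show (h * g) • x = x
          rw [mul_smul, h1]
        rwa [← e] at this
    have h3 := Submodule.finrank_lt_finrank_of_lt hlt
    have h4 := Submodule.finrank_le (Fix (h * g))
    have := ih _ (by omega) (h * g) rfl
    exact (K.mul_mem_cancel_left hh).1 this
  have orth : ∀ f y, g • f = f → polar Q f (g • y - y) = 0 := by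
    intro f y hf
    rw [polar_sub_right]
    nth_rw 1 [← hf]
    rw [pact, sub_self]
  by_cases h : ∃ x, Q (g • x - x) ≠ 0
  · obtain ⟨x, hx⟩ := h
    refine key _ (hr (g • x - x)) x (fun e => hx (by rw [e]; simp)) ?_
      fun f hf => r_act0 (orth f x hf)
    have : polar Q (g • x) (g • x - x) = Q (g • x - x) := by
      rw [Qsub, polar_sub_right, pself, Qact]; ring
    rw [r_act, this, div_self hx]; simp
  · push Not at h
    by_cases h1 : g = 1
    · rw [h1]; exact one_mem _
    · have : ∃ x : V, g • x ≠ x := by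
        by_contra H
        push Not at H
        exact h1 (oext fun x => by rw [H, one_smul])
      obtain ⟨x, hx⟩ := this
      have hx' : g⁻¹ • x - x ≠ 0 := by
        intro e
        apply hx
        rw [sub_eq_zero, inv_smul_eq_iff] at e
        exact e.symm
      obtain ⟨y, -, hy⟩ := exists_dual hQ (x := g⁻¹ • x - x) trivial hx' (-1)
      have hy' : polar Q x (g • y - y) = -1 := by
        rw [← hy, polar_sub_left, polar_sub_right, pact', inv_inv]
      have hm : polar Q (g • x - x) (g • y - y) = 0 := by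
        have e := h (x + y)
        have : g • (x + y) - (x + y) = (g • x - x) + (g • y - y) := by rw [smul_add]; abel
        rw [this, Qadd, h, h] at e
        simpa only [zero_add, add_zero] using e
      have hx0 : polar Q x (g • x - x) = 0 := by
        have e := h x
        rw [Qsub, Qact] at e
        rw [polar_sub_right, pself, pcomm]
        linear_combination -e
      refine key _ (inv_mem (hE (g • x - x) (g • y - y))) x hx ?_ fun f hf => ?_
      · rw [inv_smul_eq_iff, E_act (h x) hm, hx0, hy']; simp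
      · rw [inv_smul_eq_iff, E_act (h x) hm, orth f x hf, orth f y hf]; simp

/-- the group generated by the products of two reflections in unit vectors -/
def N1 (Q : QuadraticForm F V) : Subgroup (OG Q) := NG Q {u | Q u = 1}

instance N1_normal : (N1 Q).Normal :=
  ⟨fun _ hn g => NG_conj (fun c (hc : Q c = 1) => show Q (g • c) = 1 by rw [Qact, hc]) hn⟩

theorem omega_eq [FiniteDimensional F V] (hQ : ND Q ⊤) (h : Tr Q (N1 Q)) {s : V} (hs : Q s = 0)
    (hs0 : s ≠ 0) (hE : ∀ w, polar Q s w = 0 → E Q s w ∈ N1 Q) : Omega Q = N1 Q := by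
  apply le_antisymm
  · have hE' : ∀ m w, QuotientGroup.mk' (N1 Q) (E Q m w) = 1 := by
      intro m w
      rw [QuotientGroup.mk'_apply, QuotientGroup.eq_one_iff]
      by_cases H : Q m = 0 ∧ polar Q m w = 0
      · by_cases hm : m = 0
        · have : E Q m w = 1 := oext fun x => by rw [E_act H.1 H.2, hm]; simp
          rw [this]; exact one_mem _
        · obtain ⟨n, hn, e⟩ := h s m (by rw [hs, H.1]) hs0 hm
          have hw : polar Q s (n⁻¹ • w) = 0 := by rw [← pact', e, H.2]
          have := (N1_normal (Q := Q)).conj_mem _ (hE _ hw) n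
          rwa [E_conj hs hw, e, smul_inv_smul] at this
      · unfold E
        rw [dif_neg H]; exact one_mem _
    have hrr : ∀ u v, Commute (QuotientGroup.mk' (N1 Q) (r Q u))
        (QuotientGroup.mk' (N1 Q) (r Q v)) := by
      intro u v
      rw [← commutatorElement_eq_one_iff_commute, ← map_commutatorElement,
        QuotientGroup.mk'_apply, QuotientGroup.eq_one_iff, commutatorElement_def, r_conj, r_inv]
      by_cases hv : Q v = 0
      · rw [r_sing hv, r_sing (by rw [Qact, hv])]; simp
      · have hv0 : v ≠ 0 := by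
          rintro rfl
          simp at hv
        obtain ⟨n, hn, e⟩ := h v (r Q u • v) (by rw [Qact]) hv0
          ((smul_ne_zero_iff_ne _).2 hv0)
        have := mul_mem hn ((N1_normal (Q := Q)).conj_mem _ (inv_mem hn) (r Q v))
        rw [← e, ← r_conj, ← r_inv v]
        convert this using 1
        rw [r_inv]
        group
    have h1 : ∀ u g, Commute (QuotientGroup.mk' (N1 Q) (r Q u)) (QuotientGroup.mk' (N1 Q) g) := by
      intro u g
      have := gen_O hQ ((Subgroup.centralizer {QuotientGroup.mk' (N1 Q) (r Q u)}).comap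
        (QuotientGroup.mk' (N1 Q))) (fun v => by
          rw [Subgroup.mem_comap, Subgroup.mem_centralizer_singleton_iff]
          exact (hrr v u).eq) (fun m w => by rw [Subgroup.mem_comap, hE']; exact one_mem _) g
      rw [Subgroup.mem_comap, Subgroup.mem_centralizer_singleton_iff] at this
      exact this.symm
    have h2 : ∀ g' g, Commute (QuotientGroup.mk' (N1 Q) g') (QuotientGroup.mk' (N1 Q) g) := by
      intro u g
      have := gen_O hQ ((Subgroup.centralizer {QuotientGroup.mk' (N1 Q) u}).comap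
        (QuotientGroup.mk' (N1 Q))) (fun v => by
          rw [Subgroup.mem_comap, Subgroup.mem_centralizer_singleton_iff]
          exact (h1 v u).eq) (fun m w => by rw [Subgroup.mem_comap, hE']; exact one_mem _) g
      rw [Subgroup.mem_comap, Subgroup.mem_centralizer_singleton_iff] at this
      exact this.symm
    rw [Omega, commutator_def, Subgroup.commutator_le]
    intro a _ b _
    rw [← QuotientGroup.eq_one_iff, ← QuotientGroup.mk'_apply, map_commutatorElement,
      commutatorElement_eq_one_iff_commute]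
    exact h2 a b
  · rw [N1, NG, Subgroup.closure_le]
    rintro _ ⟨a, ha, b, hb, rfl⟩
    obtain ⟨n, -, e⟩ := h a b (by rw [ha, hb]) (ne_zero_of_one ha) (ne_zero_of_one hb)
    have : r Q a * r Q b = ⁅r Q a, n⁆ := by
      rw [commutatorElement_def, r_inv, ← e, ← r_conj]; group
    rw [this]
    exact Subgroup.commutator_mem_commutator (Subgroup.mem_top _) (Subgroup.mem_top _)

end Pool.Agent.Lib.MP_cad414_al
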