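import Mathlib

namespace Pool.Agent.Lib.MP_cad414_al

variable {F V : Type} [Field F] [AddCommGroup V] [Module F V]

/-- The full orthogonal group `O(V,Q)`: the linear automorphisms of `V` that preserve `Q`. -/
def OG (Q : QuadraticForm F V) : Subgroup (V ≃ₗ[F] V) where
  carrier := {g | ∀ x, Q (g x) = Q x}
  one_mem' := fun _ => rfl
  mul_mem' := fun {a b} ha hb x => by
    have h : Q (a (b x)) = Q x := by rw [ha, hb]
    exact h
  inv_mem' := fun {a} ha x => by
    have h := ha (a.symm x)
    rw [LinearEquiv.apply_symm_apply] at h
    exact h.symm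

/-- The commutator subgroup of `G` modulo its centre; `PDer (OG Q)` is `POmega(V,Q)`. -/
def PDer (G : Type) [Group G] : Type := commutator G ⧸ Subgroup.center (commutator G)

/-- The quotient group structure. -/
instance groupPDer (G : Type) [Group G] : Group (PDer G) := QuotientGroup.Quotient.group _

/-- The set of all `n` such that `G` is generated by `n` pairwise conjugate involutions. -/
def GenSizes (G : Type) [Group G] : Set ℕ :=
  {n | ∃ t : Fin n → G, (∀ i, orderOf (t i) = 2) ∧ (∀ i j, IsConj (t i) (t j)) ∧
    Subgroup.closure (Set.range t) = ⊤}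

end Pool.Agent.Lib.MP_cad414_al
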