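import Pool.Agent.Lib.MP_cad414_al.TenC

namespace Pool.Agent.Lib.MP_cad414_al.OldOrthogonal

open Pool.Agent.Lib.MP_cad414_al

/-- For every finite field and every nondegenerate quadratic form in even dimension at least 10,
the least number of pairwise conjugate involutions generating `POmega` is three. -/
theorem result (F V : Type) [Field F] [Finite F] [AddCommGroup V] [Module F V]
    [FiniteDimensional F V] (Q : QuadraticForm F V)
    (hQ : ∀ x, (∀ y, QuadraticMap.polar Q x y = 0) → x = 0)
    (he : Even (Module.finrank F V)) (h10 : 10 ≤ Module.finrank F V) :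
    IsLeast (GenSizes (PDer (OG Q))) 3 :=
  Ten.final_even (fun x _ h => hQ x fun y => h y trivial) he h10

end Pool.Agent.Lib.MP_cad414_al.OldOrthogonal
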