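import Pool.Agent.Lib.MP_cad414_al.Basic

namespace Pool.Agent.Lib.MP_cad414_al

open QuadraticMap Module
open scoped commutatorElement

variable {F V : Type} [Field F] [AddCommGroup V] [Module F V] {Q : QuadraticForm F V}

/-! ### Products of commuting reflections -/

/-- product of the reflections in `f 0, ..., f (k-1)` -/
noncomputable def TT (Q : QuadraticForm F V) (f : ℕ → V) : ℕ → OG Q
  | 0 => 1
  | k + 1 => TT Q f k * r Q (f k)

/-- pairwise orthogonal unit vectors -/
def PO (Q : QuadraticForm F V) (f : ℕ → V) (k : ℕ) : Prop :=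
  (∀ i < k, Q (f i) = 1) ∧ ∀ i < k, ∀ j < k, i ≠ j → polar Q (f i) (f j) = 0

theorem PO.mono {f : ℕ → V} {k n : ℕ} (h : PO Q f k) (hn : n ≤ k) : PO Q f n :=
  ⟨fun i hi => h.1 i (by omega), fun i hi j hj => h.2 i (by omega) j (by omega)⟩

theorem TT_fix {f : ℕ → V} {k : ℕ} {x : V} (h : ∀ i < k, polar Q x (f i) = 0) :
    TT Q f k • x = x := by
  induction k with
  | zero => simp [TT]
  | succ k ih => rw [TT, mul_smul, r_act0 (h k (by omega)), ih fun i hi => h i (by omega)]

theorem TT_comm {f : ℕ → V} {k : ℕ} (h : PO Q f (k + 1)) : Commute (TT Q f k) (r Q (f k)) :=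
  comm_of_fix (Or.inl (TT_fix fun i hi => h.2 k (by omega) i (by omega) (by omega)))

theorem TT_sq {f : ℕ → V} {k : ℕ} (h : PO Q f k) : TT Q f k * TT Q f k = 1 := by
  induction k with
  | zero => simp [TT]
  | succ k ih =>
    rw [TT]
    nth_rw 2 [(TT_comm h).eq]
    rw [mul_assoc, r_cancel, ih (h.mono (by omega))]

theorem TT_conj {f f' : ℕ → V} {k : ℕ} {g : OG Q} (h : ∀ i < k, r Q (g • f i) = r Q (f' i)) :
    g * TT Q f k * g⁻¹ = TT Q f' k := by
  induction k with
  | zero => simp [TT]
  | succ k ih =>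
    rw [TT, TT, ← ih fun i hi => h i (by omega), ← h k (by omega), ← r_conj]
    group

theorem TT_even {f : ℕ → V} {k : ℕ} (h : ∀ i < 2 * k, Q (f i) = 1) : TT Q f (2 * k) ∈ N1 Q := by
  induction k with
  | zero => exact one_mem _
  | succ k ih =>
    rw [show 2 * (k + 1) = 2 * k + 1 + 1 by ring, TT, TT, mul_assoc]
    exact mul_mem (ih fun i hi => h i (by omega)) (rr_mem (h _ (by omega)) (h _ (by omega)))

theorem TT_neg {f : ℕ → V} {k i : ℕ} (h : PO Q f k) (hi : i < k) : TT Q f k • f i = -f i := by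
  induction k with
  | zero => omega
  | succ k ih =>
    rw [TT, mul_smul]
    by_cases e : i = k
    · subst e
      rw [r_self (h.1 i hi), smul_neg, TT_fix fun j hj => h.2 i hi j (by omega) (by omega)]
    · rw [r_act0 (h.2 i hi k (by omega) e), ih (h.mono (by omega)) (by omega)]

theorem TT_strip {C : Set V} (hC : Cl Q C) {f : ℕ → V} {k : ℕ} (h : PO Q f k) {x : V}
    (hx : TT Q f k • x ∈ C) (H : ∀ j < k, f j ∈ C ∨ polar Q x (f j) = 0) : x ∈ C := by
  induction k with
  | zero => simpa [TT] using hx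
  | succ k ih =>
    refine ih (h.mono (by omega)) ?_ fun j hj => H j (by omega)
    rcases H k (by omega) with h1 | h1
    · rw [TT, (TT_comm h).eq, mul_smul] at hx
      exact hC.back h1 hx
    · rwa [TT, mul_smul, r_act0 h1] at hx

theorem TT_force {C : Set V} (hC : Cl Q C) {f : ℕ → V} {k i : ℕ} (h : PO Q f k) (hi : i < k)
    {x : V} (hx : TT Q f k • x ∈ C) (H : ∀ j < k, j ≠ i → f j ∈ C ∨ polar Q x (f j) = 0) :
    r Q (f i) • x ∈ C := by
  induction k with
  | zero => omega
  | succ k ih =>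
    by_cases e : i = k
    · subst e
      rw [TT, mul_smul] at hx
      refine TT_strip hC (h.mono (by omega)) hx fun j hj => ?_
      rcases H j (by omega) (by omega) with h1 | h1
      · exact Or.inl h1
      · right
        rw [r_act, polar_sub_left, polar_smul_left, h1, h.2 i hi j (by omega) (by omega)]
        simp
    · refine ih (h.mono (by omega)) (by omega) ?_ fun j hj => H j (by omega)
      rcases H k (by omega) (fun h => e h.symm) with h1 | h1
      · rw [TT, (TT_comm h).eq, mul_smul] at hx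
        exact hC.back h1 hx
      · rwa [TT, mul_smul, r_act0 h1] at hx

theorem TT_step {f g : ℕ → V} {k : ℕ} (h : PO Q f (k + 1)) :
    TT Q f (k + 1) * TT Q g (k + 1) = r Q (f k) * (TT Q f k * TT Q g k) * r Q (g k) := by
  rw [TT, TT, (TT_comm h).eq]; group

theorem TT_skip {f g : ℕ → V} {n k : ℕ} (hn : n ≤ k) (h : PO Q g k)
    (H : ∀ j, n ≤ j → j < k → f j = g j) : TT Q f k * TT Q g k = TT Q f n * TT Q g n := by
  induction k, hn using Nat.le_induction with
  | base => rfl
  | succ k hk ih =>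
    rw [TT, TT, (TT_comm h).eq, H k hk (by omega), mul_assoc, r_cancel,
      ih (h.mono (by omega)) fun j h1 h2 => H j h1 (by omega)]

/-- conjugacy under `N1` -/
def Cj (Q : QuadraticForm F V) (g h : OG Q) : Prop := ∃ n ∈ N1 Q, n * g * n⁻¹ = h

theorem Cj.refl (g : OG Q) : Cj Q g g := ⟨1, one_mem _, by simp⟩

theorem Cj.trans {a b c : OG Q} (h1 : Cj Q a b) (h2 : Cj Q b c) : Cj Q a c := by
  obtain ⟨n, hn, rfl⟩ := h1
  obtain ⟨m, hm, rfl⟩ := h2
  exact ⟨m * n, mul_mem hm hn, by group⟩

theorem TT_slide {f f' : ℕ → V} {k i : ℕ} (h : PO Q f k) (hi : i < k) (h1 : Q (f' i) = 1)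
    (ha : ∀ j < k, j ≠ i → f' j = f j) (hu : Un Q (f i) (f' i))
    (ho : ∀ j < k, j ≠ i → polar Q (f j) (f' i) = 0) : Cj Q (TT Q f k) (TT Q f' k) := by
  refine ⟨r Q (f i) * r Q (f' i), rr_mem (h.1 i hi) h1, TT_conj fun j hj => ?_⟩
  by_cases e : j = i
  · subst e
    exact r_slide (h.1 j hj) h1 hu
  · rw [mul_smul, r_act0 (ho j hj e), r_act0 (h.2 j hj i hi e), ha j hj e]

/-! ### Classes -/

/-- the class of `e` modulo a subgroup -/
def Cls (Q : QuadraticForm F V) (e : V) (K : Subgroup (OG Q)) : Set V :=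
  {u | Q u = 1 ∧ r Q e * r Q u ∈ K}

theorem Cls_rr {e : V} {K : Subgroup (OG Q)} {a b : V} (ha : a ∈ Cls Q e K) (hb : b ∈ Cls Q e K) :
    r Q a * r Q b ∈ K := by
  have := mul_mem (inv_mem ha.2) hb.2
  rwa [mul_inv_rev, r_inv, r_inv, mul_assoc, r_cancel] at this

theorem Cls_cl (e : V) (K : Subgroup (OG Q)) : Cl Q (Cls Q e K) := by
  refine ⟨fun c hc => hc.1, fun a ha b hb => ⟨by rw [Qact, hb.1], ?_⟩⟩
  have := mul_mem ha.2 (Cls_rr hb ha)
  rw [← r_conj, r_inv]
  convert this using 1
  group

theorem Cls_pres {e : V} {K : Subgroup (OG Q)} {t : OG Q} (ht : ∀ n ∈ K, t * n * t⁻¹ ∈ K) {x : V}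
    (hx : x ∈ Cls Q e K) (hx' : t • x ∈ Cls Q e K) : ∀ u ∈ Cls Q e K, t • u ∈ Cls Q e K := by
  intro u hu
  refine ⟨by rw [Qact, hu.1], ?_⟩
  have := mul_mem hx'.2 (ht _ (Cls_rr hx hu))
  rw [← r_conj] at this ⊢
  convert this using 1
  have e1 := r_cancel x (r Q u)
  calc r Q e * (t * r Q u * t⁻¹) = r Q e * (t * (r Q x * (r Q x * r Q u)) * t⁻¹) := by rw [e1]
    _ = _ := by group

/-! ### Group lemmas -/

theorem pow3 {G : Type} [Group G] {a b : G} (ha : a * a = 1) (hb : b * b = 1)
    (h : a * b * a = b * a * b) : (a * b) ^ 4 = a * b := by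
  have : (a * b) ^ 4 = (a * b * a) * (b * a * b) * (a * b) := by
    simp only [pow_succ, pow_zero, one_mul, mul_assoc]
  rw [this, h]
  have h1 : b * a * b * (b * a * b) = b * (a * (b * b) * a) * b := by group
  rw [h1, hb, mul_one, ha, mul_one, hb, one_mul]

theorem pow2 {G : Type} [Group G] {a b : G} (ha : a * a = 1) (hb : b * b = 1)
    (h : Commute a b) : (a * b) ^ 4 = 1 := by
  rw [h.mul_pow, show 4 = 2 * 2 by rfl, pow_mul, pow_mul, pow_two a, pow_two b, ha, hb]; simp

theorem pow4 {G : Type} [Group G] {a b h : G} (ha : a * a = 1) (hb : b * b = 1) (hh : h * h = 1)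
    (hab : Commute a b) (h1 : a * h * a = h * a * h) (h2 : h * b * h = b * h * b) :
    (a * b * h) ^ 4 = 1 := by
  have e1 : (a * b * h) ^ 2 = (b * h) * (a * b) * (h * b) := by
    calc (a * b * h) ^ 2 = (a * b) * h * a * b * h := by rw [pow_two]; group
      _ = b * (a * h * a) * b * h := by rw [hab.eq]; group
      _ = b * h * a * (h * b * h) := by rw [h1]; group
      _ = _ := by rw [h2]; group
  have e2 : (h * b) * (b * h) = 1 := by
    rw [mul_assoc, ← mul_assoc b, hb, one_mul, hh]
  have e3 : (a * b) * (a * b) = 1 := by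
    nth_rw 2 [hab.eq]
    rw [mul_assoc, ← mul_assoc b, hb, one_mul, ha]
  have e4 : (b * h) * (h * b) = 1 := by
    rw [mul_assoc, ← mul_assoc h, hh, one_mul, hb]
  rw [show 4 = 2 * 2 by rfl, pow_mul, e1, pow_two]
  calc _ = (b * h) * ((a * b) * ((h * b) * (b * h)) * (a * b)) * (h * b) := by group
    _ = 1 := by rw [e2, mul_one, e3, mul_one, e4]

theorem two_inv {G : Type} [Group G] [Group.IsPerfect G] {a b : G} (ha : a * a = 1)
    (hb : b * b = 1) (h : Subgroup.closure {a, b} = ⊤) : Subsingleton G := by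
  have ha' : a⁻¹ = a := inv_eq_of_mul_eq_one_right ha
  have hb' : b⁻¹ = b := inv_eq_of_mul_eq_one_right hb
  have P : ∀ g : G, MulAut.conj g (a * b) = a * b ∨ MulAut.conj g (a * b) = (a * b)⁻¹ := by
    intro g
    have hg : g ∈ Subgroup.closure {a, b} := by rw [h]; trivial
    induction hg using Subgroup.closure_induction with
    | mem x hx =>
      right
      rcases hx with rfl | rfl
      · rw [MulAut.conj_apply, mul_inv_rev, ha', hb', ← mul_assoc, ha, one_mul]
      · rw [MulAut.conj_apply, mul_inv_rev, ha', hb', mul_assoc, mul_assoc, hb, mul_one]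
    | one => simp
    | mul x y _ _ hx hy =>
      rw [map_mul MulAut.conj, MulAut.mul_apply]
      generalize a * b = c at *
      rcases hx with hx | hx <;> rcases hy with hy | hy <;> rw [hy] <;>
        simp only [map_inv, hx, inv_inv, true_or, or_true]
    | inv x _ hx =>
      rw [map_inv]
      rcases hx with hx | hx
      · left
        nth_rw 1 [← hx]
        exact MulAut.inv_apply_self _ _ _
      · right
        have : MulAut.conj x (a * b)⁻¹ = a * b := by rw [map_inv, hx, inv_inv]
        nth_rw 1 [← this]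
        exact MulAut.inv_apply_self _ _ _
  have Z : commutator G ≤ Subgroup.centralizer {a * b} := by
    rw [commutator_def, Subgroup.commutator_le]
    intro x _ y _
    have e : MulAut.conj x (MulAut.conj y (MulAut.conj x⁻¹ (MulAut.conj y⁻¹ (a * b)))) =
        a * b := by
      have qx := P x⁻¹
      have qy := P y⁻¹
      have rx : MulAut.conj x (MulAut.conj x⁻¹ (a * b)) = a * b := by simp [mul_assoc]
      have ry : MulAut.conj y (MulAut.conj y⁻¹ (a * b)) = a * b := by simp [mul_assoc]
      generalize a * b = c at *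
      generalize MulAut.conj x⁻¹ = X at *
      generalize MulAut.conj y⁻¹ = Y at *
      rcases qx with qx | qx <;> rcases qy with qy | qy <;> rw [qx] at rx <;> rw [qy] at ry <;>
        (try simp only [map_inv, inv_eq_iff_eq_inv] at rx ry) <;>
        simp only [map_inv, qx, qy, rx, ry, inv_inv]
    rw [Subgroup.mem_centralizer_singleton_iff, commutatorElement_def]
    simp only [MulAut.conj_apply] at e
    rw [← mul_inv_eq_iff_eq_mul]
    nth_rw 2 [← e]
    group
  have hc : Commute a b := by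
    have := Z (Group.IsPerfect.mem_commutator (g := a))
    rw [Subgroup.mem_centralizer_singleton_iff, ← mul_assoc, ha, one_mul] at this
    have e : a * b = b * a := by
      nth_rw 1 [this]
      rw [← mul_assoc, ← mul_assoc, ha, one_mul]
    exact e
  have : IsMulCommutative G := by
    have h1 : IsMulCommutative (Subgroup.closure ({a, b} : Set G)) :=
      Subgroup.isMulCommutative_closure (by
        rintro x (rfl | rfl) y (rfl | rfl)
        · rfl
        · exact hc.eq
        · exact hc.eq.symm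
        · rfl)
    rw [h] at h1
    refine ⟨⟨fun x y => ?_⟩⟩
    have := h1.1.1 ⟨x, trivial⟩ ⟨y, trivial⟩
    exact congrArg Subtype.val this
  infer_instance

end Pool.Agent.Lib.MP_cad414_al
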