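import Pool.Agent.Lib.MP_cad414_al.Prod

namespace Pool.Agent.Lib.MP_cad414_al.Ten

open QuadraticMap Module
open scoped commutatorElement

variable {F V : Type} [Field F] [AddCommGroup V] [Module F V] {Q : QuadraticForm F V}

/-! ### Saturation, second form -/

/-- the saturation property, with the action of the Eichler maps found so far -/
def Sat2 (Q : QuadraticForm F V) (C : Set V) (s : V) : Prop :=
  ∃ c ∈ C, c + s ∈ C ∧ polar Q s c = 0 ∧ ∀ A : AddSubgroup V, (∀ k : F, k • s ∈ A) → c ∈ A →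
    (∀ w ∈ A, ∀ d ∈ C, polar Q s d = 0 → polar Q w d • d ∈ A) →
    (∀ w ∈ A, ∀ d ∈ C, E Q s w • d ∈ C) → ∀ w, polar Q s w = 0 → w ∈ A

theorem E_mem2 {C : Set V} (hC : Cl Q C) {s : V} (hs : Q s = 0) (h : Sat2 Q C s) (w : V)
    (hw : polar Q s w = 0) : E Q s w ∈ NG Q C := by
  obtain ⟨c, hc, hcs, hsc, H⟩ := h
  let A : AddSubgroup V :=
    { carrier := {w | polar Q s w = 0 ∧ E Q s w ∈ NG Q C}
      zero_mem' := ⟨by simp, by rw [E_zero hs]; exact one_mem _⟩
      add_mem' := fun {a b} ha hb => ⟨by simp [ha.1, hb.1], by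
        rw [E_add hs ha.1 hb.1]; exact mul_mem ha.2 hb.2⟩
      neg_mem' := fun {a} ha => ⟨by simp [ha.1], by
        rw [E_neg hs ha.1]; exact inv_mem ha.2⟩ }
  refine (H A (fun k => ⟨by simp [hs], by rw [E_self hs]; exact one_mem _⟩)
    ⟨hsc, by rw [← E_rr hs (hC.norm c hc) hsc]; exact rr_mem hc hcs⟩ ?_
    (fun w hw d hd => (NG_act hC hw.2 d).1 hd) w hw).2
  intro w hw d hd hsd
  have h1 : r Q d • w ∈ A := by
    have h2 : r Q d • s = s := r_act0 hsd
    refine ⟨by rw [← h2, pact]; exact hw.1, ?_⟩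
    have := NG_conj (g := r Q d) (fun c hc => hC.refl d hd c hc) hw.2
    rwa [E_conj hs hw.1, h2] at this
  have := A.sub_mem hw h1
  rwa [r_act1 (hC.norm d hd), sub_sub_cancel] at this

theorem gen_trans2 [Finite F] [FiniteDimensional F V] (hQ : ND Q ⊤) (hd : 4 ≤ finrank F V)
    {C : Set V} (hC : Cl Q C) {s y : V} (hs : Q s = 0)
    (hE : ∀ w, polar Q s w = 0 → E Q s w ∈ NG Q C) (hy : y ∈ C)
    (hsy : polar Q s y ≠ 0) : Tr Q (NG Q C) := by
  have hy1 := hC.norm y hy
  set k : F := -(polar Q s y * polar Q s y)⁻¹ with hk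
  have hs' : Q (k • r Q y • s) = 0 := by rw [Qsmul, Qact, hs, mul_zero]
  have h1 : polar Q s (k • r Q y • s) = 1 := by
    rw [r_act1 hy1, hk]
    simp only [polar_smul_right, polar_sub_right, pself, hs, smul_eq_mul]
    field_simp
    ring
  have hE' : ∀ w, polar Q (k • r Q y • s) w = 0 → E Q (k • r Q y • s) w ∈ NG Q C := by
    intro w hw
    have hk0 : k ≠ 0 := by simp [hk, hsy]
    have hw1 : polar Q (r Q y • s) w = 0 := by simpa [hk0] using hw
    have hw2 : polar Q s (r Q y • k • w) = 0 := by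
      rw [← pact (r Q y), r_rr]; simp [hw1]
    rw [E_smul (by rw [Qact, hs]) hw1]
    have := NG_conj (g := r Q y) (fun c hc => hC.refl y hy c hc) (hE _ hw2)
    rwa [E_conj hs hw2, r_rr] at this
  obtain ⟨h3, h4, -⟩ := split2 hQ (u := s) (v := k • r Q y • s) trivial trivial (by
    rw [pself, hs, h1]; simp)
  rw [finrank_top] at h4
  have hU : ∀ c, ∃ w, polar Q s w = 0 ∧ polar Q (k • r Q y • s) w = 0 ∧ Q w = c := by
    intro c
    obtain ⟨w, hw, hq⟩ := universal h3 (by omega) c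
    exact ⟨w, (mem_perp.1 (mem_perp.1 hw).1).2, (mem_perp.1 hw).2, hq⟩
  intro u v huv hu hv
  obtain ⟨n, hn, e1⟩ := trans_aux hQ hs hs' h1 hU _ hE hE' hu
  obtain ⟨n', hn', e2⟩ := trans_aux hQ hs hs' h1 hU _ hE hE' hv
  refine ⟨n'⁻¹ * n, mul_mem (inv_mem hn') hn, ?_⟩
  rw [mul_smul, e1, huv, ← e2, inv_smul_smul]

/-! ### Conjugacy of products of commuting reflections -/

theorem rr_mem_N1 (h : Tr Q (N1 Q)) {a b : V} (hab : Q a = Q b) (h0 : Q a ≠ 0) :
    r Q a * r Q b ∈ N1 Q := by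
  have ha : a ≠ 0 := by
    rintro rfl
    simp at h0
  have hb : b ≠ 0 := by
    rintro rfl
    rw [hab] at h0
    simp at h0
  obtain ⟨n, hn, e⟩ := h a b hab ha hb
  have := mul_mem ((N1_normal (Q := Q)).conj_mem _ hn (r Q a)) (inv_mem hn)
  rw [← e, ← r_conj]
  convert this using 1
  rw [r_inv]
  group

theorem r_sub {u v : V} (huv : Q u = Q v) (h : Q (u - v) ≠ 0) : r Q (u - v) • u = v := by
  have : polar Q u (u - v) = Q (u - v) := by
    rw [Qsub, polar_sub_right, pself, huv]; ring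
  rw [r_act, this, div_self h]; simp

/-- triangular duals -/
def TD (Q : QuadraticForm F V) (f : ℕ → V) (k : ℕ) : Prop :=
  ∀ j < k, 0 < j → ∃ g, polar Q (f j) g ≠ 0 ∧ ∀ i < j, polar Q (f i) g = 0

theorem perp_fam [FiniteDimensional F V] (h2 : (2 : F) ≠ 0) (hQ : ND Q ⊤) {f : ℕ → V} {k : ℕ}
    (h : PO Q f k) : ∃ W : Submodule F V, ND Q W ∧ finrank F W + k = finrank F V ∧
      ∀ x, x ∈ W ↔ ∀ i < k, polar Q (f i) x = 0 := by
  induction k with
  | zero => exact ⟨⊤, hQ, by simp, by simp⟩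
  | succ k ih =>
    obtain ⟨W, h1, h3, h4⟩ := ih (h.mono (by omega))
    obtain ⟨k1, k2, -⟩ := split1 h1 (u := f k)
      ((h4 _).2 fun i hi => h.2 i (by omega) k (by omega) (by omega))
      (by rw [pself, h.1 k (by omega), mul_one]; exact h2)
    refine ⟨_, k1, by omega, fun x => ?_⟩
    rw [mem_perp, h4]
    refine ⟨fun H i hi => ?_, fun H => ⟨fun i hi => H i (by omega), H k (by omega)⟩⟩
    by_cases e : i = k
    · rw [e]; exact H.2
    · exact H.1 i (by omega)

theorem move_odd [Finite F] [FiniteDimensional F V] (h2 : (2 : F) ≠ 0) (hQ : ND Q ⊤)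
    (h : Tr Q (N1 Q)) {f : ℕ → V} {j : ℕ} (hf : PO Q f (j + 1)) (hd : j + 3 ≤ finrank F V)
    {u : V} (hu : Q u = 1) (ho : ∀ i < j, polar Q (f i) u = 0) :
    ∃ n ∈ N1 Q, (n • u = f j ∨ n • u = -f j) ∧ ∀ i < j, n • f i = f i := by
  obtain ⟨W, h1, h3, h4⟩ := perp_fam h2 hQ hf
  have key : ∀ v, (v = f j ∨ v = -f j) → Q (u - v) ≠ 0 →
      ∃ n ∈ N1 Q, (n • u = f j ∨ n • u = -f j) ∧ ∀ i < j, n • f i = f i := by
    intro v hv h0
    obtain ⟨w, hw, hq⟩ := universal h1 (by omega) (Q (u - v))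
    have hw' := (h4 w).1 hw
    have q : Q v = 1 := by
      rcases hv with e | e <;> rw [e]
      · exact hf.1 j (by omega)
      · rw [QuadraticMap.map_neg]; exact hf.1 j (by omega)
    have hvw : polar Q v w = 0 := by
      rcases hv with e | e <;> rw [e]
      · exact hw' j (by omega)
      · rw [polar_neg_left, hw' j (by omega), neg_zero]
    refine ⟨r Q w * r Q (u - v), rr_mem_N1 h hq (by rwa [hq]), ?_, fun i hi => ?_⟩
    · rw [mul_smul, r_sub (by rw [hu, q]) h0, r_act0 hvw]; exact hv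
    · have : polar Q (f i) v = 0 := by
        rcases hv with e | e <;> rw [e]
        · exact hf.2 i (by omega) j (by omega) (by omega)
        · rw [polar_neg_right, hf.2 i (by omega) j (by omega) (by omega), neg_zero]
      rw [mul_smul, r_act0 (u := u - v) (by rw [polar_sub_right, ho i hi, this, sub_self]),
        r_act0 (hw' i (by omega))]
  by_cases e : Q (u - f j) = 0
  · refine key _ (Or.inr rfl) fun e' => ?_
    rw [sub_neg_eq_add, Qadd, hu, hf.1 j (by omega)] at e'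
    rw [Qsub, hu, hf.1 j (by omega)] at e
    apply mul_ne_zero h2 h2
    linear_combination e + e'
  · exact key _ (Or.inl rfl) e

theorem move_two [Finite F] (h2 : (2 : F) = 0) (h : Tr Q (N1 Q)) {f : ℕ → V} {j : ℕ}
    (hf : PO Q f (j + 1)) (hj : 0 < j) {u : V} (hu : Q u = 1) (ho : ∀ i < j, polar Q (f i) u = 0)
    {g g' : V} (hg : polar Q u g ≠ 0) (hg0 : ∀ i < j, polar Q (f i) g = 0)
    (hg' : polar Q (f j) g' ≠ 0) (hg0' : ∀ i < j, polar Q (f i) g' = 0) :
    ∃ n ∈ N1 Q, n • u = f j ∧ ∀ i < j, n • f i = f i := by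
  have hxx : ∀ x, polar Q x x = 0 := fun x => by rw [pself, h2, zero_mul]
  have key : ∀ u v, Q u = 1 → Q v = 1 → (∀ i < j, polar Q (f i) u = 0) →
      (∀ i < j, polar Q (f i) v = 0) → polar Q u v ≠ 0 →
      ∃ n ∈ N1 Q, n • u = v ∧ ∀ i < j, n • f i = f i := by
    intro u v hu hv ho ho' huv
    have h0 : Q (u - v) ≠ 0 := by
      rw [Qsub, hu, hv, one_add_one_eq_two, h2, zero_sub]; exact neg_ne_zero.2 huv
    obtain ⟨c, hc⟩ := exists_sq h2 (Q (u - v))
    have hq : Q (c • v) = Q (u - v) := by rw [Qsmul, hv, mul_one, hc]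
    refine ⟨r Q (c • v) * r Q (u - v), rr_mem_N1 h hq (by rwa [hq]), ?_, fun i hi => ?_⟩
    · rw [mul_smul, r_sub (by rw [hu, hv]) h0, r_act0 (by rw [polar_smul_right, hxx, smul_zero])]
    · rw [mul_smul, r_act0 (u := u - v) (by rw [polar_sub_right, ho i hi, ho' i hi, sub_self]),
        r_act0 (by rw [polar_smul_right, ho' i hi, smul_zero])]
  have hv := hf.1 j (by omega)
  have hov : ∀ i < j, polar Q (f i) (f j) = 0 := fun i hi =>
    hf.2 i (by omega) j (by omega) (by omega)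
  obtain ⟨y, y1, y2, y3⟩ : ∃ y, polar Q u y ≠ 0 ∧ polar Q (f j) y ≠ 0 ∧
      ∀ i < j, polar Q (f i) y = 0 := by
    by_cases e : polar Q (f j) g = 0
    · by_cases e' : polar Q u g' = 0
      · refine ⟨g + g', by rwa [polar_add_right, e', add_zero], by
          rwa [polar_add_right, e, zero_add], fun i hi => by
          rw [polar_add_right, hg0 i hi, hg0' i hi, add_zero]⟩
      · exact ⟨g', e', hg', hg0'⟩
    · exact ⟨g, hg, e, hg0⟩
  obtain ⟨c, hc⟩ := exists_sq h2 (1 - Q y)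
  have hf0 : ∀ i < j, polar Q (f i) (f 0) = 0 := fun i hi => by
    by_cases e : i = 0
    · rw [e, hxx]
    · exact hf.2 i (by omega) 0 (by omega) e
  have z0 : Q (y + c • f 0) = 1 := by
    rw [Qadd, Qsmul, hf.1 0 (by omega), polar_smul_right, pcomm0 (y3 0 hj), hc]; simp
  have z3 : ∀ i < j, polar Q (f i) (y + c • f 0) = 0 := fun i hi => by
    rw [polar_add_right, polar_smul_right, y3 i hi, hf0 i hi]; simp
  obtain ⟨n, hn, e1, e2⟩ := key u _ hu z0 ho z3 (by
    rwa [polar_add_right, polar_smul_right, pcomm0 (ho 0 hj), smul_zero, add_zero])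
  obtain ⟨m, hm, e3, e4⟩ := key _ _ z0 hv z3 hov (by
    rwa [polar_add_left, polar_smul_left, hov 0 hj, smul_zero, add_zero, pcomm])
  exact ⟨m * n, mul_mem hm hn, by rw [mul_smul, e1, e3], fun i hi => by
    rw [mul_smul, e2 i hi, e4 i hi]⟩

theorem conj_all [Finite F] [FiniteDimensional F V] (hQ : ND Q ⊤) (h : Tr Q (N1 Q))
    {f f' : ℕ → V} {k : ℕ} (hd : k + 2 ≤ finrank F V) (hf : PO Q f k) (hf' : PO Q f' k)
    (ht : (2 : F) = 0 → TD Q f k) (ht' : (2 : F) = 0 → TD Q f' k) :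
    Cj Q (TT Q f k) (TT Q f' k) := by
  have key : ∀ j ≤ k, ∃ n ∈ N1 Q, ∀ i < j, n • f i = f' i ∨ n • f i = -f' i := by
    intro j
    induction j with
    | zero => exact fun _ => ⟨1, one_mem _, by simp⟩
    | succ j ih =>
      intro hj
      obtain ⟨n, hn, H⟩ := ih (by omega)
      have tr : ∀ x, (∀ i < j, polar Q (f i) x = 0) → ∀ i < j, polar Q (f' i) (n • x) = 0 := by
        intro x hx i hi
        have := hx i hi
        rw [← pact n] at this
        rcases H i hi with e | e <;> rw [e] at this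
        · exact this
        · simpa using this
      have hu : Q (n • f j) = 1 := by rw [Qact, hf.1 j (by omega)]
      have ho := tr (f j) fun i hi => hf.2 i (by omega) j (by omega) (by omega)
      obtain ⟨m, hm, e1, e2⟩ : ∃ m ∈ N1 Q, (m • n • f j = f' j ∨ m • n • f j = -f' j) ∧
          ∀ i < j, m • f' i = f' i := by
        by_cases h2 : (2 : F) = 0
        · by_cases j0 : j = 0
          · obtain ⟨m, hm, e⟩ := h (n • f j) (f' j) (by rw [hu, hf'.1 j (by omega)])
              (ne_zero_of_one hu) (ne_zero_of_one (hf'.1 j (by omega)))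
            exact ⟨m, hm, Or.inl e, fun i hi => by omega⟩
          · obtain ⟨g, g1, g2⟩ := ht h2 j (by omega) (by omega)
            obtain ⟨g', g3, g4⟩ := ht' h2 j (by omega) (by omega)
            obtain ⟨m, hm, e1, e2⟩ := move_two h2 h (hf'.mono hj) (by omega) hu ho (g := n • g)
              (by rwa [pact]) (tr g g2) g3 g4
            exact ⟨m, hm, Or.inl e1, e2⟩
        · exact move_odd h2 hQ h (hf'.mono hj) (by omega) hu ho
      refine ⟨m * n, mul_mem hm hn, fun i hi => ?_⟩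
      rw [mul_smul]
      by_cases e : i = j
      · rw [e]; exact e1
      · rcases H i (by omega) with e' | e' <;> rw [e']
        · exact Or.inl (e2 i (by omega))
        · right; rw [smul_neg, e2 i (by omega)]
  obtain ⟨n, hn, H⟩ := key k le_rfl
  refine ⟨n, hn, TT_conj fun i hi => ?_⟩
  rcases H i hi with e | e <;> rw [e]
  exact r_neg _

/-! ### The abstract main theorem -/

/-- what has to be proved about a class -/
def Goal (Q : QuadraticForm F V) (C : Set V) : Prop :=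
  ∃ s y, Q s = 0 ∧ Sat2 Q C s ∧ y ∈ C ∧ polar Q s y ≠ 0

/-- three involutions with the properties needed -/
structure Tri2 (Q : QuadraticForm F V) (e0 e1 e2 e3 : V) (t1 t2 t3 : OG Q) : Prop where
  q0 : Q e0 = 1
  q1 : Q e1 = 1
  q3 : Q e3 = 1
  u01 : Un Q e0 e1
  u21 : Un Q e2 e1
  o20 : polar Q e2 e0 = 0
  o03 : polar Q e0 e3 = 0
  o13 : polar Q e1 e3 = 0
  sq : t1 * t1 = 1
  m1 : t1 ∈ N1 Q
  cj : Tr Q (N1 Q) → Cj Q t1 t2 ∧ Cj Q t1 t3
  pw : (t1 * t2) ^ 4 = r Q e0 * r Q e1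
  a1 : t1 • e0 = -e0
  a2 : t2 • e1 = -e1
  a3 : t3 • e0 = e0
  force : ∀ K, e0 ∈ Cls Q e0 K → e1 ∈ Cls Q e0 K → (∀ v ∈ Cls Q e0 K, t1 • v ∈ Cls Q e0 K) →
    (∀ v ∈ Cls Q e0 K, t2 • v ∈ Cls Q e0 K) → (∀ v ∈ Cls Q e0 K, t3 • v ∈ Cls Q e0 K) →
    Goal Q (Cls Q e0 K)

theorem Tri2.key [Finite F] [FiniteDimensional F V] (hQ : ND Q ⊤) (hd : 4 ≤ finrank F V)
    {e0 e1 e2 e3 : V} {t1 t2 t3 : OG Q} (h : Tri2 Q e0 e1 e2 e3 t1 t2 t3) (K : Subgroup (OG Q))
    (h1 : ∀ n ∈ K, t1 * n * t1⁻¹ ∈ K) (h2 : ∀ n ∈ K, t2 * n * t2⁻¹ ∈ K)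
    (h3 : ∀ n ∈ K, t3 * n * t3⁻¹ ∈ K) (h0 : r Q e0 * r Q e1 ∈ K) :
    Omega Q = N1 Q ∧ N1 Q ≤ K ∧ Tr Q (N1 Q) := by
  have hC := Cls_cl e0 K
  have a0 : e0 ∈ Cls Q e0 K := ⟨h.q0, by rw [r_mul_self]; exact one_mem _⟩
  have a1 : e1 ∈ Cls Q e0 K := ⟨h.q1, h0⟩
  obtain ⟨s, y, hs, hsat, hy, hsy⟩ := h.force K a0 a1
    (Cls_pres h1 a0 (by rw [h.a1]; exact hC.neg a0))
    (Cls_pres h2 a1 (by rw [h.a2]; exact hC.neg a1)) (Cls_pres h3 a0 (by rw [h.a3]; exact a0))
  have hE := E_mem2 hC hs hsat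
  have htr := gen_trans2 hQ hd hC hs hE hy hsy
  have hall := gen_all hC htr a0
  refine ⟨?_, ?_, ?_⟩
  · rw [hall] at htr hE
    refine omega_eq hQ htr hs ?_ hE
    intro e
    rw [e] at hsy
    simp at hsy
  · rw [N1, ← hall, NG, Subgroup.closure_le]
    rintro _ ⟨a, ha, b, hb, rfl⟩
    exact Cls_rr ha hb
  · rwa [hall] at htr

theorem Tri2.main [Finite F] [FiniteDimensional F V] (hQ : ND Q ⊤) (hd : 4 ≤ finrank F V)
    {e0 e1 e2 e3 : V} {t1 t2 t3 : OG Q} (h : Tri2 Q e0 e1 e2 e3 t1 t2 t3) :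
    IsLeast (GenSizes (POmega Q)) 3 := by
  have m1 : t1 ∈ Subgroup.closure {t1, t2, t3} := Subgroup.subset_closure (by simp)
  have m2 : t2 ∈ Subgroup.closure {t1, t2, t3} := Subgroup.subset_closure (by simp)
  have m3 : t3 ∈ Subgroup.closure {t1, t2, t3} := Subgroup.subset_closure (by simp)
  obtain ⟨hO, hK, htr⟩ := h.key hQ hd (Subgroup.closure {t1, t2, t3})
    (fun n hn => mul_mem (mul_mem m1 hn) (inv_mem m1))
    (fun n hn => mul_mem (mul_mem m2 hn) (inv_mem m2))
    (fun n hn => mul_mem (mul_mem m3 hn) (inv_mem m3))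
    (by rw [← h.pw]; exact pow_mem (mul_mem m1 m2) _)
  have hperf : Group.IsPerfect (Omega Q) := by
    rw [Subgroup.isPerfect_iff]
    apply le_antisymm (Subgroup.commutator_le_left _ _)
    have hn : (⁅Omega Q, Omega Q⁆).Normal := inferInstance
    have := (h.key hQ hd ⁅Omega Q, Omega Q⁆ (fun n m => hn.conj_mem n m _)
      (fun n m => hn.conj_mem n m _) (fun n m => hn.conj_mem n m _) ?_).2.1
    · rwa [← hO] at this
    · have a1 : r Q e0 * r Q e3 ∈ Omega Q := by
        rw [hO]; exact rr_mem h.q0 h.q3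
      have a2 : r Q e0 * r Q e1 ∈ Omega Q := by
        rw [hO]; exact rr_mem h.q0 h.q1
      have a3 := Subgroup.commutator_mem_commutator a1 a2
      have b1 := r_braid h.q0 h.q1 h.u01
      have b2 := r_comm h.o03
      have b3 := r_comm h.o13
      convert a3 using 1
      rw [commutatorElement_def, mul_inv_rev, mul_inv_rev, r_inv, r_inv, r_inv]
      have s0 := r_mul_self (Q := Q) e0
      have s1 := r_mul_self (Q := Q) e1
      have s3 := r_mul_self (Q := Q) e3
      generalize r Q e0 = a at *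
      generalize r Q e1 = b at *
      generalize r Q e3 = d at *
      symm
      calc _ = a * (d * (a * b)) * d * (a * b * a) := by group
        _ = a * ((a * b) * d) * d * (b * a * b) := by rw [(b2.mul_left b3).eq, b1]
        _ = (a * a) * (b * (d * d) * b) * a * b := by group
        _ = a * b := by rw [s0, s3, mul_one, s1]; group
  have n1 : t1 ∈ Omega Q := by rw [hO]; exact h.m1
  obtain ⟨⟨g2, hg2, e2'⟩, g3, hg3, e3'⟩ := h.cj htr
  rw [← hO] at hg2 hg3
  have n2 : t2 ∈ Omega Q := by rw [← e2']; exact mul_mem (mul_mem hg2 n1) (inv_mem hg2)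
  have n3 : t3 ∈ Omega Q := by rw [← e3']; exact mul_mem (mul_mem hg3 n1) (inv_mem hg3)
  set π := QuotientGroup.mk' (Subgroup.center (Omega Q)) with hπ
  have j2 : IsConj (π ⟨t1, n1⟩) (π ⟨t2, n2⟩) :=
    π.map_isConj (isConj_iff.2 ⟨⟨g2, hg2⟩, Subtype.ext e2'⟩)
  have j3 : IsConj (π ⟨t1, n1⟩) (π ⟨t3, n3⟩) :=
    π.map_isConj (isConj_iff.2 ⟨⟨g3, hg3⟩, Subtype.ext e3'⟩)
  have hne : π ⟨t1, n1⟩ ≠ 1 := by
    intro e
    rw [hπ, QuotientGroup.mk'_apply, QuotientGroup.eq_one_iff, Subgroup.mem_center_iff] at e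
    have e4 : g2 * t1 = t1 * g2 := congrArg Subtype.val (e ⟨g2, hg2⟩)
    rw [e4, mul_inv_cancel_right] at e2'
    have e5 := h.pw
    rw [← e2', h.sq, one_pow] at e5
    have e6 : r Q e0 = r Q e1 := by
      have := eq_inv_of_mul_eq_one_left e5.symm
      rwa [r_inv] at this
    have e7 : r Q e0 • e2 = r Q e1 • e2 := by rw [e6]
    rw [r_act0 h.o20, r_act1 h.q1, eq_comm, sub_eq_self, smul_eq_zero] at e7
    rcases e7 with e7 | e7
    · rcases h.u21 with e8 | e8 <;> rw [e8] at e7 <;> simp at e7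
    · exact ne_zero_of_one h.q1 e7
  have ho1 : orderOf (π ⟨t1, n1⟩) = 2 := by
    refine orderOf_eq_prime ?_ hne
    rw [pow_two, ← map_mul]
    have : (⟨t1, n1⟩ * ⟨t1, n1⟩ : Omega Q) = 1 := Subtype.ext h.sq
    rw [this, map_one]
  have hord : ∀ x, IsConj (π ⟨t1, n1⟩) x → orderOf x = 2 := by
    intro x hx
    obtain ⟨g, rfl⟩ := isConj_iff.1 hx
    rw [← ho1, ← MulAut.conj_apply, MulEquiv.orderOf_eq]
  constructor
  · have hall : ∀ i, IsConj (π ⟨t1, n1⟩) (![π ⟨t1, n1⟩, π ⟨t2, n2⟩, π ⟨t3, n3⟩] i) := by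
      intro i
      fin_cases i
      · exact IsConj.refl _
      · exact j2
      · exact j3
    refine ⟨![π ⟨t1, n1⟩, π ⟨t2, n2⟩, π ⟨t3, n3⟩], fun i => hord _ (hall i),
      fun i j => (hall i).symm.trans (hall j), ?_⟩
    rw [eq_top_iff]
    intro x _
    obtain ⟨⟨g, hg⟩, rfl⟩ := QuotientGroup.mk'_surjective _ x
    have hg' := hK (hO ▸ hg)
    have hle : Subgroup.closure {t1, t2, t3} ≤ ((Subgroup.closure (Set.range
        ![π ⟨t1, n1⟩, π ⟨t2, n2⟩, π ⟨t3, n3⟩])).comap π).map (Omega Q).subtype := by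
      rw [Subgroup.closure_le]
      rintro y (rfl | rfl | rfl)
      · exact ⟨⟨_, n1⟩, Subgroup.subset_closure ⟨0, rfl⟩, rfl⟩
      · exact ⟨⟨_, n2⟩, Subgroup.subset_closure ⟨1, rfl⟩, rfl⟩
      · exact ⟨⟨_, n3⟩, Subgroup.subset_closure ⟨2, rfl⟩, rfl⟩
    obtain ⟨y, hy, e⟩ := hle hg'
    have : y = ⟨g, hg⟩ := Subtype.ext e
    rw [← this]
    exact hy
  · rintro n ⟨t, ho, -, hc⟩
    by_contra hn
    have hsq : ∀ i, t i * t i = 1 := fun i => by rw [← pow_two, ← ho i, pow_orderOf_eq_one]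
    have : ∃ a b : POmega Q, a * a = 1 ∧ b * b = 1 ∧ Set.range t ⊆ {a, b} := by
      have : n = 0 ∨ n = 1 ∨ n = 2 := by omega
      rcases this with rfl | rfl | rfl
      · exact ⟨1, 1, by simp, by simp, by rintro _ ⟨i, -⟩; exact i.elim0⟩
      · exact ⟨t 0, t 0, hsq 0, hsq 0, by rintro _ ⟨i, rfl⟩; fin_cases i; simp⟩
      · exact ⟨t 0, t 1, hsq 0, hsq 1, by rintro _ ⟨i, rfl⟩; fin_cases i <;> simp⟩
    obtain ⟨a, b, ha, hb, hab⟩ := this
    have := two_inv ha hb (eq_top_iff.2 (hc ▸ Subgroup.closure_mono hab))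
    exact hne (Subsingleton.elim _ _)

/-! ### The tail -/

/-- Kronecker delta -/
def dl (F : Type) [Field F] (i j : ℕ) : F := if i = j then 1 else 0

theorem dl_ne {i j : ℕ} (h : i ≠ j) : dl F i j = 0 := if_neg h

theorem dl_eq {i j : ℕ} (h : i = j) : dl F i j = 1 := if_pos h

/-- the differences of the points form a root system of type `A` -/
structure Rt (Q : QuadraticForm F V) (m : ℕ) (p : ℕ → V) : Prop where
  rr : ∀ i j k n, i < m → j < m → k < m → n < m →
    polar Q (p i - p j) (p k - p n) = dl F i k - dl F i n - dl F j k + dl F j n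
  q : ∀ i j, i < m → j < m → i ≠ j → Q (p i - p j) = 1

theorem Rt.o {m : ℕ} {p : ℕ → V} (h : Rt Q m p) {i j k n : ℕ}
    (H : i < m ∧ j < m ∧ k < m ∧ n < m ∧ i ≠ k ∧ i ≠ n ∧ j ≠ k ∧ j ≠ n) :
    polar Q (p i - p j) (p k - p n) = 0 := by
  rw [h.rr i j k n (by omega) (by omega) (by omega) (by omega)]
  simp (disch := omega) only [dl_ne]
  ring

theorem Rt.u {m : ℕ} {p : ℕ → V} (h : Rt Q m p) {i j k n : ℕ}
    (H : i < m ∧ j < m ∧ k < m ∧ n < m ∧ i ≠ j ∧ k ≠ n ∧
      ((i = k ∧ j ≠ n) ∨ (j = n ∧ i ≠ k) ∨ (i = n ∧ j ≠ k) ∨ (j = k ∧ i ≠ n))) :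
    Un Q (p i - p j) (p k - p n) := by
  unfold Un
  obtain ⟨h1, h2, h3, h4, h5, h6, H⟩ := H
  rw [h.rr i j k n h1 h2 h3 h4]
  rcases H with H | H | H | H <;> simp (disch := omega) only [dl_ne, dl_eq] <;> simp

theorem _root_.Pool.Agent.Lib.MP_cad414_al.Un.ne {x y : V} (h : Un Q x y) : polar Q x y ≠ 0 := by
  rcases h with h | h <;> rw [h] <;> simp

/-- all roots on the points up to `b` are in `C` -/
def Up (p : ℕ → V) (C : Set V) (b : ℕ) : Prop := ∀ i j, i ≤ b → j ≤ b → i ≠ j → p i - p j ∈ C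

theorem Rt.up {m : ℕ} {p : ℕ → V} (h : Rt Q m p) {C : Set V} (hC : Cl Q C) {b : ℕ}
    (hb : b + 1 < m) (h1 : Up p C b) (h2 : p b - p (b + 1) ∈ C) : Up p C (b + 1) := by
  have key : ∀ i, i ≤ b → p i - p (b + 1) ∈ C := by
    intro i hi
    by_cases e : i = b
    · rwa [e]
    · have h3 := h1 i b hi le_rfl e
      have h4 := hC.refl _ h3 _ h2
      rw [r_act1 (hC.norm _ h3), h.rr _ _ _ _ (by omega) (by omega) (by omega) (by omega)] at h4
      simp (disch := omega) only [dl_ne, dl_eq] at h4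
      convert h4 using 1
      module
  intro i j hi hj hij
  by_cases e : j = b + 1
  · rw [e]; exact key i (by omega)
  · by_cases e' : i = b + 1
    · rw [e']; simpa using hC.neg (key j (by omega))
    · exact h1 i j (by omega) (by omega) hij

theorem TT_add (f : ℕ → V) (n k : ℕ) :
    TT Q f (n + k) = TT Q f n * TT Q (fun j => f (n + j)) k := by
  induction k with
  | zero => simp [TT]
  | succ k ih => rw [← add_assoc, TT, TT, ih, mul_assoc]

/-- a triple of vectors -/
def tr (a b c : V) : ℕ → V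
  | 0 => a
  | 1 => b
  | _ => c

theorem po_tr {a b c : V} (ha : Q a = 1) (hb : Q b = 1) (hc : Q c = 1) (hab : polar Q a b = 0)
    (hac : polar Q a c = 0) (hbc : polar Q b c = 0) : PO Q (tr a b c) 3 := by
  refine ⟨fun i hi => ?_, fun i hi j hj hij => ?_⟩
  · interval_cases i <;> assumption
  · interval_cases i <;> interval_cases j <;>
      first | contradiction | assumption | exact pcomm0 (by assumption)

omit [AddCommGroup V] in
theorem all_tr {P : V → Prop} {a b c : V} (ha : P a) (hb : P b) (hc : P c) :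
    ∀ j < 3, P (tr a b c j) := by
  intro j hj
  interval_cases j <;> assumption

/-- the triple product preserves `C` -/
def Pres (Q : QuadraticForm F V) (C : Set V) (x : ℕ → V) : Prop :=
  PO Q x 3 ∧ ∀ v ∈ C, TT Q x 3 • v ∈ C

theorem Pres.f0 {C : Set V} (hC : Cl Q C) {a b c v : V} (h : Pres Q C (tr a b c)) (hv : v ∈ C)
    (hb : b ∈ C ∨ polar Q v b = 0) (hc : c ∈ C ∨ polar Q v c = 0) : r Q a • v ∈ C :=
  TT_force hC (i := 0) h.1 (by omega) (h.2 v hv) fun j hj hji => by
    interval_cases j <;> first | contradiction | assumption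

theorem Pres.f1 {C : Set V} (hC : Cl Q C) {a b c v : V} (h : Pres Q C (tr a b c)) (hv : v ∈ C)
    (ha : a ∈ C ∨ polar Q v a = 0) (hc : c ∈ C ∨ polar Q v c = 0) : r Q b • v ∈ C :=
  TT_force hC (i := 1) h.1 (by omega) (h.2 v hv) fun j hj hji => by
    interval_cases j <;> first | contradiction | assumption

theorem Pres.f2 {C : Set V} (hC : Cl Q C) {a b c v : V} (h : Pres Q C (tr a b c)) (hv : v ∈ C)
    (ha : a ∈ C ∨ polar Q v a = 0) (hb : b ∈ C ∨ polar Q v b = 0) : r Q c • v ∈ C :=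
  TT_force hC (i := 2) h.1 (by omega) (h.2 v hv) fun j hj hji => by
    interval_cases j <;> first | contradiction | assumption

theorem Pres.g0 {C : Set V} (hC : Cl Q C) {a b c v : V} (h : Pres Q C (tr a b c)) (hv : v ∈ C)
    (hb : b ∈ C ∨ polar Q v b = 0) (hc : c ∈ C ∨ polar Q v c = 0) (hu : Un Q v a) : a ∈ C :=
  hC.force hv (h.1.1 0 (by omega)) hu (h.f0 hC hv hb hc)

theorem Pres.g1 {C : Set V} (hC : Cl Q C) {a b c v : V} (h : Pres Q C (tr a b c)) (hv : v ∈ C)
    (ha : a ∈ C ∨ polar Q v a = 0) (hc : c ∈ C ∨ polar Q v c = 0) (hu : Un Q v b) : b ∈ C :=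
  hC.force hv (h.1.1 1 (by omega)) hu (h.f1 hC hv ha hc)

theorem Pres.g2 {C : Set V} (hC : Cl Q C) {a b c v : V} (h : Pres Q C (tr a b c)) (hv : v ∈ C)
    (ha : a ∈ C ∨ polar Q v a = 0) (hb : b ∈ C ∨ polar Q v b = 0) (hu : Un Q v c) : c ∈ C :=
  hC.force hv (h.1.1 2 (by omega)) hu (h.f2 hC hv ha hb)

theorem ord6 {G : Type} [Group G] {a b h u v w : G} (H : (a * b * h) ^ 4 = 1) (hu : u * u = 1)
    (hv : v * v = 1) (hw : w * w = 1) (ua : Commute u a) (ub : Commute u b) (uh : Commute u h)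
    (va : Commute v a) (vb : Commute v b) (vh : Commute v h) (wa : Commute w a)
    (wb : Commute w b) (wh : Commute w h) (uv : Commute u v) (uw : Commute u w)
    (vw : Commute v w) : (u * a * b * (h * v * w)) ^ 4 = 1 := by
  have cu := (ua.mul_right ub).mul_right uh
  have cv := (va.mul_right vb).mul_right vh
  have cw := (wa.mul_right wb).mul_right wh
  have e : u * a * b * (h * v * w) = a * b * h * (u * v * w) := by
    calc _ = u * (a * b * h) * v * w := by group
      _ = _ := by rw [cu.eq]; group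
  have w4 : w ^ 4 = 1 := by rw [show 4 = 2 * 2 by rfl, pow_mul, pow_two w, hw, one_pow]
  rw [e, (((cu.mul_left cv).mul_left cw).symm).mul_pow, H, (uw.mul_left vw).mul_pow,
    pow2 hu hv uv, w4]
  simp

/-- witnesses for the triangular duals -/
def Wit (Q : QuadraticForm F V) (p x : ℕ → V) (c b : ℕ) : Prop :=
  ∀ j < 3, ∃ g, polar Q (x j) g ≠ 0 ∧ (∀ i < j, polar Q (x i) g = 0) ∧
    ∀ i k, i ≤ b → k ≤ b → i ≠ c → k ≠ c → polar Q (p i - p k) g = 0

/-- the core of a configuration -/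
structure Core (Q : QuadraticForm F V) (l m : ℕ) (p x y w : ℕ → V) : Prop where
  hm : 2 * l + 5 ≤ m
  rt : Rt Q m p
  px : PO Q x 3
  py : PO Q y 3
  pw : PO Q w 3
  ox : ∀ j < 3, ∀ i k, i ≤ 2 * l + 2 → k ≤ 2 * l + 2 → polar Q (p i - p k) (x j) = 0
  oy : ∀ j < 3, ∀ i k, i ≤ 2 * l + 2 → k ≤ 2 * l + 2 → polar Q (p i - p k) (y j) = 0
  ow : ∀ j < 3, ∀ i k, i ≤ 2 * l + 3 → k ≤ 2 * l + 3 → polar Q (p i - p k) (w j) = 0
  ord : (r Q (x 2) * r Q (x 1) * r Q (x 0) * (r Q (y 0) * r Q (y 1) * r Q (y 2))) ^ 4 = 1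
  wit : (2 : F) = 0 → Wit Q p x 2 (2 * l + 2) ∧ Wit Q p y 0 (2 * l + 2) ∧ Wit Q p w 0 (2 * l + 3)
  force : ∀ K e, Up p (Cls Q e K) (2 * l + 3) → Pres Q (Cls Q e K) x → Pres Q (Cls Q e K) y →
    Pres Q (Cls Q e K) w → Goal Q (Cls Q e K)

/-- first family -/
def f1 (l : ℕ) (p x : ℕ → V) (i : ℕ) : V :=
  if i = 0 then p 0 - p 1 else if i ≤ l then p (2 * i + 1) - p (2 * i + 2) else x (i - (l + 1))

/-- second family -/
def f2 (l : ℕ) (p x : ℕ → V) (i : ℕ) : V :=
  if i = 0 then p 1 - p 2 else if i ≤ l then p (2 * i + 1) - p (2 * i + 2) else x (i - (l + 1))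

/-- third family -/
def f3 (l : ℕ) (p x : ℕ → V) (i : ℕ) : V :=
  if i ≤ l then p (2 * i + 2) - p (2 * i + 3) else x (i - (l + 1))

theorem strip_tail {C : Set V} (hC : Cl Q C) {f x : ℕ → V} {l : ℕ} (h : PO Q f (l + 1 + 3))
    (hx : PO Q x 3) (e : ∀ j, f (l + 1 + j) = x j) (H : ∀ j < l + 1, f j ∈ C)
    (hp : ∀ v ∈ C, TT Q f (l + 1 + 3) • v ∈ C) : Pres Q C x := by
  refine ⟨hx, fun v hv => ?_⟩
  have := hp v hv
  rw [TT_add, mul_smul, funext e] at this
  exact TT_strip hC (h.mono (by omega)) this fun j hj => Or.inl (H j hj)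

set_option linter.unusedTactic false in
set_option linter.unreachableTactic false in
theorem Core.main [Finite F] [FiniteDimensional F V] (hQ : ND Q ⊤) {l m : ℕ} {p x y w : ℕ → V}
    (hl : l % 2 = 0) (hd : l + 6 ≤ finrank F V) (c : Core Q l m p x y w) :
    IsLeast (GenSizes (POmega Q)) 3 := by
  have hm := c.hm
  have p1 : PO Q (f1 l p x) (l + 1 + 3) := by
    refine ⟨fun i hi => ?_, fun i hi j hj hij => ?_⟩
    · unfold f1
      split_ifs <;> first | (apply c.rt.q <;> omega) | (apply c.px.1; omega)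
    · unfold f1
      split_ifs <;> first | omega | (apply c.rt.o; omega) | (apply c.ox <;> omega) |
        (apply pcomm0; apply c.ox <;> omega) | (apply c.px.2 <;> omega)
  have p2 : PO Q (f2 l p y) (l + 1 + 3) := by
    refine ⟨fun i hi => ?_, fun i hi j hj hij => ?_⟩
    · unfold f2
      split_ifs <;> first | (apply c.rt.q <;> omega) | (apply c.py.1; omega)
    · unfold f2
      split_ifs <;> first | omega | (apply c.rt.o; omega) | (apply c.oy <;> omega) |
        (apply pcomm0; apply c.oy <;> omega) | (apply c.py.2 <;> omega)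
  have p3 : PO Q (f3 l p w) (l + 1 + 3) := by
    refine ⟨fun i hi => ?_, fun i hi j hj hij => ?_⟩
    · unfold f3
      split_ifs <;> first | (apply c.rt.q <;> omega) | (apply c.pw.1; omega)
    · unfold f3
      split_ifs <;> first | omega | (apply c.rt.o; omega) | (apply c.ow <;> omega) |
        (apply pcomm0; apply c.ow <;> omega) | (apply c.pw.2 <;> omega)
  have e1 : ∀ j, f1 l p x (l + 1 + j) = x j := fun j => by
    unfold f1; rw [if_neg (by omega), if_neg (by omega), Nat.add_sub_cancel_left]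
  have e2 : ∀ j, f2 l p y (l + 1 + j) = y j := fun j => by
    unfold f2; rw [if_neg (by omega), if_neg (by omega), Nat.add_sub_cancel_left]
  have e3 : ∀ j, f3 l p w (l + 1 + j) = w j := fun j => by
    unfold f3; rw [if_neg (by omega), Nat.add_sub_cancel_left]
  have t1 : (2 : F) = 0 → TD Q (f1 l p x) (l + 1 + 3) := fun h2 j hj j0 => by
    by_cases e : j ≤ l
    · refine ⟨p 2 - p (2 * j + 1), ?_, fun i hi => ?_⟩
      · unfold f1
        rw [if_neg (by omega), if_pos e]
        exact (c.rt.u (by omega)).ne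
      · unfold f1
        split_ifs <;> first | omega | (apply c.rt.o; omega)
    · obtain ⟨g, g1, g2, g3⟩ := (c.wit h2).1 (j - (l + 1)) (by omega)
      refine ⟨g, by unfold f1; rwa [if_neg (by omega), if_neg e], fun i hi => ?_⟩
      unfold f1
      split_ifs <;> first | (apply g3 <;> omega) | (apply g2; omega)
  have t2 : (2 : F) = 0 → TD Q (f2 l p y) (l + 1 + 3) := fun h2 j hj j0 => by
    by_cases e : j ≤ l
    · refine ⟨p 0 - p (2 * j + 1), ?_, fun i hi => ?_⟩
      · unfold f2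
        rw [if_neg (by omega), if_pos e]
        exact (c.rt.u (by omega)).ne
      · unfold f2
        split_ifs <;> first | omega | (apply c.rt.o; omega)
    · obtain ⟨g, g1, g2, g3⟩ := (c.wit h2).2.1 (j - (l + 1)) (by omega)
      refine ⟨g, by unfold f2; rwa [if_neg (by omega), if_neg e], fun i hi => ?_⟩
      unfold f2
      split_ifs <;> first | (apply g3 <;> omega) | (apply g2; omega)
  have t3 : (2 : F) = 0 → TD Q (f3 l p w) (l + 1 + 3) := fun h2 j hj j0 => by
    by_cases e : j ≤ l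
    · refine ⟨p 0 - p (2 * j + 2), ?_, fun i hi => ?_⟩
      · unfold f3
        rw [if_pos e]
        exact (c.rt.u (by omega)).ne
      · unfold f3
        split_ifs <;> first | omega | (apply c.rt.o; omega)
    · obtain ⟨g, g1, g2, g3⟩ := (c.wit h2).2.2 (j - (l + 1)) (by omega)
      refine ⟨g, by unfold f3; rwa [if_neg e], fun i hi => ?_⟩
      unfold f3
      split_ifs <;> first | (apply g3 <;> omega) | (apply g2; omega)
  have q0 : Q (p 0 - p 1) = 1 := c.rt.q _ _ (by omega) (by omega) (by omega)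
  have q1 : Q (p 1 - p 2) = 1 := c.rt.q _ _ (by omega) (by omega) (by omega)
  refine Tri2.main hQ (by omega) (e0 := p 0 - p 1) (e1 := p 1 - p 2) (e2 := p 2 - p 3)
    (e3 := p 3 - p 4) (t1 := TT Q (f1 l p x) (l + 1 + 3)) (t2 := TT Q (f2 l p y) (l + 1 + 3))
    (t3 := TT Q (f3 l p w) (l + 1 + 3)) ⟨q0, q1, c.rt.q _ _ (by omega) (by omega) (by omega),
    c.rt.u (by omega), c.rt.u (by omega), c.rt.o (by omega), c.rt.o (by omega),
    c.rt.o (by omega), TT_sq p1, ?_, fun h => ⟨conj_all hQ h (by omega) p1 p2 t1 t2,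
    conj_all hQ h (by omega) p1 p3 t1 t3⟩, ?_, TT_neg (i := 0) p1 (by omega),
    TT_neg (i := 0) p2 (by omega), ?_, ?_⟩
  · obtain ⟨n, hn⟩ : ∃ n, l + 1 + 3 = 2 * n := ⟨(l + 4) / 2, by omega⟩
    have := p1.1
    rw [hn] at this ⊢
    exact TT_even this
  · rw [TT_step (k := l + 1 + 2) p1, TT_step (k := l + 1 + 1) (p1.mono (by omega)),
      TT_step (k := l + 1 + 0) (p1.mono (by omega)), e1, e1, e1, e2, e2, e2,
      TT_skip (n := 0 + 1) (by omega) (p2.mono (by omega)) (by
        intro j h1 h2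
        unfold f1 f2; split_ifs <;> first | rfl | omega), TT_step (p1.mono (by omega))]
    simp only [TT, mul_one]
    have cx : ∀ j < 3, Commute (r Q (f1 l p x 0) * r Q (f2 l p y 0)) (r Q (x j)) := fun j hj =>
      (r_comm (c.ox j hj 0 1 (by omega) (by omega))).mul_left
        (r_comm (c.ox j hj 1 2 (by omega) (by omega)))
    have cy : ∀ j < 3, Commute (r Q (f1 l p x 0) * r Q (f2 l p y 0)) (r Q (y j)) := fun j hj =>
      (r_comm (c.oy j hj 0 1 (by omega) (by omega))).mul_left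
        (r_comm (c.oy j hj 1 2 (by omega) (by omega)))
    have a4 : (r Q (f1 l p x 0) * r Q (f2 l p y 0)) ^ 4 = r Q (p 0 - p 1) * r Q (p 1 - p 2) :=
      pow3 (r_mul_self _) (r_mul_self _) (r_braid q0 q1 (c.rt.u (by omega)))
    have cX := ((cx 2 (by omega)).mul_right (cx 1 (by omega))).mul_right (cx 0 (by omega))
    have cY := ((cy 0 (by omega)).mul_right (cy 1 (by omega))).mul_right (cy 2 (by omega))
    have ho := c.ord
    generalize r Q (f1 l p x 0) * r Q (f2 l p y 0) = a at *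
    have e : r Q (x 2) * (r Q (x 1) * (r Q (x 0) * a * r Q (y 0)) * r Q (y 1)) * r Q (y 2) =
        a * (r Q (x 2) * r Q (x 1) * r Q (x 0) * (r Q (y 0) * r Q (y 1) * r Q (y 2))) := by
      calc _ = (r Q (x 2) * r Q (x 1) * r Q (x 0) * a) * (r Q (y 0) * r Q (y 1) * r Q (y 2)) := by
            group
        _ = _ := by rw [← cX.eq]; group
    rw [e, (cX.mul_right cY).mul_pow, a4, ho, mul_one]
  · refine TT_fix fun j hj => ?_
    unfold f3
    split_ifs <;> first | (apply c.rt.o; omega) | (apply c.ow <;> omega)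
  · intro K a0 a1 r1 r2 r3
    have hC := Cls_cl (p 0 - p 1) K
    have key : ∀ n, n ≤ 2 * l + 1 → Up p (Cls Q (p 0 - p 1) K) (n + 2) := by
      intro n
      induction n with
      | zero =>
        intro _
        exact c.rt.up hC (by omega) (c.rt.up hC (b := 0) (by omega)
          (fun i j hi hj hij => by omega) a0) a1
      | succ n ih =>
        intro hn
        have h := ih (by omega)
        have hv := h 1 (n + 2) (by omega) le_rfl (by omega)
        refine c.rt.up hC (by omega) h (hC.force hv (c.rt.q _ _ (by omega) (by omega) (by omega))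
          (c.rt.u (by omega)) ?_)
        rcases Nat.even_or_odd' n with ⟨i, rfl | rfl⟩
        · have := TT_force hC (i := i) p3 (by omega) (r3 _ hv) fun j hj hji => by
            unfold f3
            split_ifs <;> first | (left; apply h <;> omega) | (right; apply c.rt.o; omega) |
              (right; apply c.ow <;> omega)
          rwa [f3, if_pos (by omega)] at this
        · have := TT_force hC (i := i + 1) p1 (by omega) (r1 _ hv) fun j hj hji => by
            unfold f1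
            split_ifs <;> first | (left; apply h <;> omega) | (right; apply c.rt.o; omega) |
              (right; apply c.ox <;> omega)
          rwa [f1, if_neg (by omega), if_pos (by omega)] at this
    have hup := key (2 * l + 1) le_rfl
    refine c.force K _ hup (strip_tail hC p1 c.px e1 (fun j hj => ?_) r1)
      (strip_tail hC p2 c.py e2 (fun j hj => ?_) r2) (strip_tail hC p3 c.pw e3 (fun j hj => ?_) r3)
    · unfold f1
      split_ifs <;> first | omega | (apply hup <;> omega)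
    · unfold f2
      split_ifs <;> first | omega | (apply hup <;> omega)
    · unfold f3
      split_ifs <;> first | omega | (apply hup <;> omega)

end Pool.Agent.Lib.MP_cad414_al.Ten
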