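import Pool.Agent.Lib.MP_cad414_al.TenA

namespace Pool.Agent.Lib.MP_cad414_al.Ten

set_option linter.unusedSimpArgs false

open QuadraticMap Module

variable {F V : Type} [Field F] [AddCommGroup V] [Module F V] {Q : QuadraticForm F V} {l : ℕ}

theorem conn (S : ℕ → Prop) (P : ℕ → ℕ → Prop) (hs : ∀ i j, P i j → P j i)
    (hm : ∀ i j k, S i → S j → S k → i ≠ j → k ≠ i → k ≠ j → P i j → P k j) {i j : ℕ}
    (hi : S i) (hj : S j) (hij : i ≠ j) (h : P i j) :
    ∀ k n, S k → S n → k ≠ n → P k n := by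
  have mv : ∀ i j k, S i → S j → S k → i ≠ j → k ≠ j → P i j → P k j := by
    intro i j k hi hj hk hij hkj h
    by_cases e : k = i
    · rwa [e]
    · exact hm i j k hi hj hk hij e hkj h
  intro k n hk hn hkn
  by_cases e : n = j
  · subst e
    exact mv i n k hi hn hk hij hkn h
  · exact mv j n k hj hn hk (fun h => e h.symm) hkn (hs _ _ (mv i j n hi hj hn hij e h))

theorem root_conn {m : ℕ} {p : ℕ → V} (hR : Rt Q m p) (S : ℕ → Prop) (hS : ∀ i, S i → i < m)
    {A : AddSubgroup V} (hA : ∀ w ∈ A, ∀ k n, S k → S n → k ≠ n →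
      polar Q w (p k - p n) • (p k - p n) ∈ A) {a : F} {i j : ℕ} (hi : S i) (hj : S j)
    (hij : i ≠ j) (h : a • (p i - p j) ∈ A) :
    ∀ k n, S k → S n → k ≠ n → a • (p k - p n) ∈ A := by
  refine conn S (fun i j => a • (p i - p j) ∈ A) (fun i j h => ?_) ?_ hi hj hij h
  · have := A.neg_mem h
    rwa [← smul_neg, neg_sub] at this
  · intro i j k hi hj hk hij hki hkj h
    have := hA _ h k j hk hj hkj
    rw [polar_smul_left, hR.rr _ _ _ _ (hS _ hi) (hS _ hj) (hS _ hk) (hS _ hj)] at this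
    simp (disch := omega) only [dl_ne, dl_eq] at this
    simpa using this

theorem exists_gen (F : Type) [Field F] [Finite F] : ∃ g : F, g ≠ 0 ∧
    ∀ P : F → Prop, P 0 → P 1 → (∀ a, P a → P (a * g)) → ∀ a, P a := by
  obtain ⟨g, hg⟩ := IsCyclic.exists_monoid_generator (α := Fˣ)
  refine ⟨g, g.ne_zero, fun P h0 h1 h a => ?_⟩
  by_cases ha : a = 0
  · rwa [ha]
  · obtain ⟨n, hn⟩ := hg (Units.mk0 a ha)
    have e : a = (g : F) ^ n := by
      have := congrArg Units.val hn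
      simpa using this.symm
    rw [e]
    clear e hn
    induction n with
    | zero => simpa
    | succ n ih => rw [pow_succ]; exact h _ ih

/-- the largest subspace inside an additive subgroup -/
def core (F : Type) [Field F] [Module F V] (A : AddSubgroup V) : Submodule F V where
  carrier := {x | ∀ k : F, k • x ∈ A}
  zero_mem' := fun k => by simp
  add_mem' := fun {a b} ha hb k => by rw [smul_add]; exact A.add_mem (ha k) (hb k)
  smul_mem' := fun a x hx k => by rw [smul_smul]; exact hx _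

theorem core_fin {s s' : V} (hs : Q s = 0) (hs' : Q s' = 0) (h1 : polar Q s s' = 1)
    {A : AddSubgroup V} (h : ∀ k : F, k • s ∈ A) (H : perp Q (perp Q ⊤ s) s' ≤ core F A) (w : V)
    (hw : polar Q s w = 0) : w ∈ A := by
  obtain ⟨a, b, u, hu, hu', rfl⟩ := dec hs hs' h1 w
  have hb : b = 0 := by simpa [hs, h1, hu] using hw
  have := H (mem_perp.2 ⟨mem_perp.2 ⟨trivial, hu⟩, hu'⟩) 1
  rw [one_smul] at this
  rw [hb, zero_smul, add_zero]
  exact A.add_mem (h a) this

theorem le_of_finrank_zero [FiniteDimensional F V] {W : Submodule F V} (h : finrank F W = 0)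
    (M : Submodule F V) : W ≤ M := by
  rw [Submodule.finrank_eq_zero.1 h]
  exact bot_le

theorem hyp_odd [Finite F] [FiniteDimensional F V] (h2 : (2 : F) ≠ 0) (hQ : ND Q ⊤)
    (hd : 3 ≤ finrank F V) : ∃ s s', Q s = 0 ∧ Q s' = 0 ∧ polar Q s s' = 1 := by
  obtain ⟨u, -, hu⟩ := exists_aniso hQ (by rw [finrank_top]; omega)
  have huu : polar Q u u ≠ 0 := by rw [pself]; exact mul_ne_zero h2 hu
  obtain ⟨h3, h4, -⟩ := split1 hQ (u := u) trivial huu
  rw [finrank_top] at h4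
  obtain ⟨c, hc, hq⟩ := universal h3 (by omega) (-Q u)
  have hc' := (mem_perp.1 hc).2
  have hs : Q (u + c) = 0 := by rw [Qadd, hq, hc']; ring
  have h0 : u + c ≠ 0 := by
    intro e
    apply huu
    have : polar Q u (u + c) = 0 := by rw [e]; simp
    rwa [polar_add_right, hc', add_zero] at this
  obtain ⟨x, -, hx⟩ := exists_dual hQ (x := u + c) trivial h0 1
  refine ⟨u + c, x - Q x • (u + c), hs, ?_, ?_⟩
  · rw [Qsub, Qsmul, hs, polar_smul_right, pcomm x, hx]; simp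
  · rw [polar_sub_right, polar_smul_right, pself, hs, hx]; simp

theorem ortho_basis [Finite F] [FiniteDimensional F V] (h2 : (2 : F) ≠ 0) {W : Submodule F V}
    (hW : ND Q W) (j : ℕ) (hj : j + 1 ≤ finrank F W) : ∃ (e : ℕ → V) (W' : Submodule F V),
      ND Q W' ∧ finrank F W' + j = finrank F W ∧ W' ≤ W ∧
      (∀ i < j, e i ∈ W ∧ Q (e i) = 2⁻¹ ∧ ∀ x ∈ W', polar Q (e i) x = 0) ∧
      (∀ i k, i < j → k < j → polar Q (e i) (e k) = dl F i k) ∧
      ∀ M : Submodule F V, (∀ i < j, e i ∈ M) → W' ≤ M → W ≤ M := by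
  induction j with
  | zero => exact ⟨fun _ => 0, W, hW, rfl, le_rfl, by simp, by simp, fun M _ h => h⟩
  | succ j ih =>
    obtain ⟨e, W', h1, h3, h4, h5, h6, h7⟩ := ih (by omega)
    obtain ⟨u, hu, hq⟩ := universal h1 (by omega) 2⁻¹
    have huu : polar Q u u = 1 := by rw [pself, hq, mul_inv_cancel₀ h2]
    obtain ⟨k1, k2, k3⟩ := split1 h1 hu (by rw [huu]; exact one_ne_zero)
    have hle : perp Q W' u ≤ W' := fun x hx => (mem_perp.1 hx).1
    refine ⟨fun i => if i = j then u else e i, perp Q W' u, k1, by omega, hle.trans h4,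
      fun i hi => ?_, fun i k hi hk => ?_, fun M hM hM' => ?_⟩
    · by_cases h : i = j
      · simp only [if_pos h]
        exact ⟨h4 hu, hq, fun x hx => (mem_perp.1 hx).2⟩
      · simp only [if_neg h]
        exact ⟨(h5 i (by omega)).1, (h5 i (by omega)).2.1, fun x hx =>
          (h5 i (by omega)).2.2 x (hle hx)⟩
    · by_cases h : i = j <;> by_cases h' : k = j
      · simp only [if_pos h, if_pos h']
        rw [huu, dl_eq (by omega)]
      · simp only [if_pos h, if_neg h']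
        rw [pcomm, (h5 k (by omega)).2.2 u hu, dl_ne (by omega)]
      · simp only [if_neg h, if_pos h']
        rw [(h5 i (by omega)).2.2 u hu, dl_ne (by omega)]
      · simp only [if_neg h, if_neg h']
        exact h6 i k (by omega) (by omega)
    · refine h7 M (fun i hi => ?_) (k3 M ?_ hM')
      · have := hM i (by omega)
        simpa only [if_neg (show i ≠ j by omega)] using this
      · simpa using hM j (by omega)

/-- multiplication by `G` and addition generate the field -/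
def Gn (G : F) : Prop := ∀ P : F → Prop, P 0 → P 1 → (∀ a b, P a → P b → P (a + b)) →
  (∀ a, P a → P (a * G)) → ∀ a, P a

theorem exists_tau [Finite F] (h2 : (2 : F) ≠ 0) {c : F} (hc : c ≠ 0) :
    ∃ t : F, t ≠ 0 ∧ Gn (t * t * c) := by
  obtain ⟨g, hg0, hg⟩ := exists_gen F
  have key : Gn (g * g) := by
    intro P h0 h1 hadd hmul a
    have sq := hg (fun a => P (a * a)) (by simpa) (by simpa) fun a h => by
      have := hmul _ h
      convert this using 1
      ring
    obtain ⟨x, y, h⟩ := exists_two_sq h2 (a := (1 : F)) (b := 1) one_ne_zero one_ne_zero a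
    rw [← h, mul_one, mul_one]
    exact hadd _ _ (sq x) (sq y)
  have key' : Gn g := fun P h0 h1 _ hmul => hg P h0 h1 hmul
  have := hg (fun a => a = 0 ∨ ∃ t : F, t ≠ 0 ∧ (t * t * a = g ∨ t * t * a = g * g)) (Or.inl rfl)
    (Or.inr ⟨g, hg0, Or.inr (mul_one _)⟩) (by
      rintro a (rfl | ⟨t, ht, h | h⟩)
      · left; simp
      · exact Or.inr ⟨t, ht, Or.inr (by rw [← mul_assoc, h])⟩
      · refine Or.inr ⟨t / g, div_ne_zero ht hg0, Or.inl ?_⟩
        field_simp
        linear_combination h) c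
  rcases this with h | ⟨t, ht, h | h⟩
  · exact absurd h hc
  · exact ⟨t, ht, by rwa [h]⟩
  · exact ⟨t, ht, by rwa [h]⟩

theorem exists_half [Finite F] (h2 : (2 : F) ≠ 0) : ∃ n : ℕ, (n : F) = 2⁻¹ := by
  refine ⟨2 ^ (orderOf (2 : F) - 1), ?_⟩
  have h0 : 0 < orderOf (2 : F) := by
    have := (isOfFinOrder_of_finite (Units.mk0 (2 : F) h2)).orderOf_pos
    rwa [← orderOf_units] at this
  apply eq_inv_of_mul_eq_one_left
  push_cast
  rw [← pow_succ, Nat.sub_add_cancel h0, pow_orderOf_eq_one]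

theorem exists_sing (F : Type) [Field F] [Finite F] :
    ∃ a b : ℕ, (a : F) * a + b * b + 1 = 0 := by
  have : NeZero (ringChar F) := ⟨CharP.char_ne_zero_of_finite F _⟩
  obtain ⟨a, b, h⟩ := CharP.sq_add_sq F (ringChar F) (-1)
  refine ⟨a, b, ?_⟩
  push_cast at h
  linear_combination h

theorem nat_mem {A : AddSubgroup V} {x : V} (hx : x ∈ A) (n : ℕ) : (n : F) • x ∈ A := by
  rw [Nat.cast_smul_eq_nsmul]
  exact A.nsmul_mem hx n

theorem E_pow {s w : V} (hs : Q s = 0) (hw : polar Q s w = 0) (n : ℕ) :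
    E Q s w ^ n = E Q s ((n : F) • w) := by
  induction n with
  | zero => simp [E_zero hs]
  | succ n ih =>
    rw [pow_succ, ih, ← E_add hs (by simp [hw]) hw]
    push_cast
    rw [add_smul, one_smul]

theorem force2 [Finite F] (h2 : (2 : F) ≠ 0) {e : V} {K : Subgroup (OG Q)} {x s : V}
    (hx : x ∈ Cls Q e K) (hs : Q s = 0) (hsx : polar Q s x = 0)
    (h : r Q (x + s) • x ∈ Cls Q e K) : x + s ∈ Cls Q e K := by
  obtain ⟨n, hn⟩ := exists_half h2
  have h1 := Cls_rr hx h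
  rw [← r_conj, r_inv, ← mul_assoc, ← mul_assoc, mul_assoc (r Q x * _), E_rr hs hx.1 hsx,
    ← E_add hs hsx hsx] at h1
  have h3 := pow_mem h1 n
  rw [E_pow hs (by simp [hsx]), hn, ← two_smul F x, smul_smul, inv_mul_cancel₀ h2, one_smul,
    ← E_rr hs hx.1 hsx] at h3
  refine ⟨by rw [Qadd, hx.1, hs, pcomm0 hsx]; ring, ?_⟩
  have := mul_mem hx.2 h3
  rwa [mul_assoc, r_cancel] at this

/-- coordinates in odd characteristic -/
structure Od (Q : QuadraticForm F V) (m : ℕ) (e : ℕ → V) (s s' d : V) : Prop where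
  ee : ∀ i k, i < m → k < m → polar Q (e i) (e k) = dl F i k
  qe : ∀ i, i < m → Q (e i) = 2⁻¹
  se : ∀ i, i < m → polar Q s (e i) = 0
  te : ∀ i, i < m → polar Q s' (e i) = 0
  de : ∀ i, i < m → polar Q d (e i) = 0
  es : ∀ i, i < m → polar Q (e i) s = 0
  et : ∀ i, i < m → polar Q (e i) s' = 0
  ed : ∀ i, i < m → polar Q (e i) d = 0
  sd : polar Q s d = 0
  td : polar Q s' d = 0
  ds : polar Q d s = 0
  dt : polar Q d s' = 0
  qs : Q s = 0
  qt : Q s' = 0
  st : polar Q s s' = 1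
  ts : polar Q s' s = 1
  ss : polar Q s s = 0
  tt : polar Q s' s' = 0
  gn : Gn (Q d)
  sp : ∀ M : Submodule F V, (∀ i < m, e i ∈ M) → d ∈ M → perp Q (perp Q ⊤ s) s' ≤ M

theorem exists_od [Finite F] [FiniteDimensional F V] (h2 : (2 : F) ≠ 0) (hQ : ND Q ⊤) {m : ℕ}
    (hd : finrank F V = m + 3) : ∃ e s s' d, Od Q m e s s' d := by
  obtain ⟨s, s', hs, hs', hss⟩ := hyp_odd h2 hQ (by omega)
  obtain ⟨k1, k2, -⟩ := split2 hQ (u := s) (v := s') trivial trivial (by
    rw [pself, hs, hss]; simp)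
  rw [finrank_top] at k2
  obtain ⟨e, W, k3, k4, k5, k6, hee, k7⟩ := ortho_basis h2 k1 m (by omega)
  obtain ⟨d0, hd0W, hd0⟩ := exists_aniso k3 (by omega)
  obtain ⟨t, ht, hG⟩ := exists_tau h2 hd0
  have hdW : t • d0 ∈ W := W.smul_mem t hd0W
  rw [← Qsmul] at hG
  obtain ⟨-, k8, k9⟩ := split1 k3 hdW (by
    rw [pself, Qsmul]; exact mul_ne_zero h2 (mul_ne_zero (mul_ne_zero ht ht) hd0))
  generalize t • d0 = d at *
  have hse : ∀ i, i < m → polar Q s (e i) = 0 := fun i hi =>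
    (mem_perp.1 (mem_perp.1 (k6 i hi).1).1).2
  have hte : ∀ i, i < m → polar Q s' (e i) = 0 := fun i hi => (mem_perp.1 (k6 i hi).1).2
  have hed : ∀ i, i < m → polar Q (e i) d = 0 := fun i hi => (k6 i hi).2.2 d hdW
  have hsd : polar Q s d = 0 := (mem_perp.1 (mem_perp.1 (k5 hdW)).1).2
  have htd : polar Q s' d = 0 := (mem_perp.1 (k5 hdW)).2
  exact ⟨e, s, s', d, hee, fun i hi => (k6 i hi).2.1, hse, hte, fun i hi => pcomm0 (hed i hi),
    fun i hi => pcomm0 (hse i hi), fun i hi => pcomm0 (hte i hi), hed, hsd, htd, pcomm0 hsd,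
    pcomm0 htd, hs, hs', hss, by rw [pcomm, hss], by rw [pself, hs, mul_zero],
    by rw [pself, hs', mul_zero], hG,
    fun M h1 h3 => k7 M h1 (k9 M h3 (le_of_finrank_zero (by omega) _))⟩

theorem Od.rt (h2 : (2 : F) ≠ 0) {m : ℕ} {e : ℕ → V} {s s' d : V} (o : Od Q m e s s' d) :
    Rt Q m e := by
  refine ⟨fun i j k n hi hj hk hn => ?_, fun i j hi hj hij => ?_⟩
  · simp (disch := omega) only [polar_sub_left, polar_sub_right, o.ee]
    ring
  · rw [Qsub, o.qe i hi, o.qe j hj, o.ee i j hi hj, dl_ne hij]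
    field_simp
    ring

theorem Od.goal [Finite F] (h2 : (2 : F) ≠ 0) {m : ℕ} {e : ℕ → V} {s s' d : V}
    (o : Od Q m e s s' d) (hm : 5 ≤ m) {C : Set V} (hC : Cl Q C)
    (hR : ∀ i j, i < m → j < m → i ≠ j → e i - e j ∈ C) {i0 j0 i1 j1 : ℕ} (hi0 : i0 < m)
    (hj0 : j0 < m) (h0 : i0 ≠ j0) (hi1 : i1 < m) (hj1 : j1 < m) (h1 : i1 ≠ j1)
    (hS0 : e i0 + e j0 ∈ C) (hc : e i1 - e j1 + s ∈ C) (hz2 : -(s + s') ∈ C) {v : V} {b c : F}
    (hb : b ≠ 0) (hz3 : d + b • v + b • s' + c • s ∈ C) (hv : polar Q v s = 0)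
    (hvA : ∀ A : AddSubgroup V, (∀ i < m, e i ∈ A) → (∀ i < m, (2⁻¹ : F) • e i ∈ A) → v ∈ A) :
    Goal Q C := by
  have hi2 : (2 : F) * 2⁻¹ = 1 := mul_inv_cancel₀ h2
  have hS : ∀ k n, k < m → n < m → k ≠ n → e k + e n ∈ C := by
    refine conn (· < m) (fun i j => e i + e j ∈ C) (fun i j h => by rwa [add_comm]) ?_
      hi0 hj0 h0 hS0
    intro i j k hi hj hk hij hki hkj h
    have h5 := hR i k hi hk (by omega)
    have := hC.refl _ h5 _ h
    rw [r_act1 (hC.norm _ h5)] at this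
    simp (disch := omega) only [polar_add_left, polar_sub_right, o.ee, dl_ne, dl_eq] at this
    convert this using 1
    module
  have hsR : ∀ k n, k < m → n < m → polar Q s (e k - e n) = 0 := fun k n hk hn => by
    rw [polar_sub_right, o.se k hk, o.se n hn, sub_self]
  refine ⟨s, _, o.qs, ⟨_, hR i1 j1 hi1 hj1 h1, hc, hsR _ _ hi1 hj1, fun A hsA hcA hA hEA =>
    core_fin o.qs o.qt o.st hsA ?_⟩, hz2, by simp [o.qs, o.st]⟩
  have hAR : ∀ w ∈ A, ∀ k n, k < m → n < m → k ≠ n →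
      polar Q w (e k - e n) • (e k - e n) ∈ A := fun w hw k n hk hn hkn =>
    hA w hw _ (hR k n hk hn hkn) (hsR k n hk hn)
  have rc := fun (a : F) (i j : ℕ) (hi : i < m) (hj : j < m) (hij : i ≠ j) =>
    root_conn (o.rt h2) (· < m) (fun _ h => h) hAR (a := a) hi hj hij
  obtain ⟨n2, hn2⟩ := exists_half h2
  have hone : ∀ a : F, (∀ k n, k < m → n < m → k ≠ n → a • (e k - e n) ∈ A) →
      ∀ i < m, a • e i ∈ A := fun a ha i hi => by
    obtain ⟨j, k, hj, hk, h5, h6, h7⟩ : ∃ j k, j < m ∧ k < m ∧ i ≠ j ∧ i ≠ k ∧ j ≠ k := by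
      by_cases h : i ≤ 1
      · exact ⟨2, 3, by omega⟩
      · exact ⟨0, 1, by omega⟩
    have h8 := hA _ (ha i j hi hj h5) _ (hS i k hi hk h6) (by
      rw [polar_add_right, o.se i hi, o.se k hk, add_zero])
    simp (disch := omega) only [polar_smul_left, polar_sub_left, polar_add_right, o.ee, dl_ne,
      dl_eq, smul_eq_mul] at h8
    have := nat_mem (F := F) (A.add_mem h8 (ha i k hi hk h6)) n2
    rw [hn2] at this
    convert this using 1
    linear_combination (norm := module) (-a * hi2) • e i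
  have h1R := rc 1 i1 j1 hi1 hj1 h1 (by rwa [one_smul])
  have he : ∀ i < m, e i ∈ A := fun i hi => by simpa using hone 1 h1R i hi
  have hvA' := hvA A he fun i hi => by rw [← hn2]; exact nat_mem (he i hi) n2
  -- normal form of the last vector
  obtain ⟨c', hz⟩ : ∃ c' : F, d + b • (e 3 + e 4) + b • s' + c' • s ∈ C := by
    have hw : polar Q s (e 3 + e 4 - v) = 0 := by
      simp (disch := omega) only [polar_sub_right, polar_add_right, o.se, pcomm0 hv]; ring
    have := hEA _ (A.sub_mem (A.add_mem (he 3 (by omega)) (he 4 (by omega))) hvA') _ hz3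
    rw [E_act o.qs hw] at this
    have e1 : polar Q (d + b • v + b • s' + c • s) s = b := by
      simp only [polar_add_left, polar_smul_left, o.ds, hv, o.ts, o.ss, smul_eq_mul]; ring
    rw [e1] at this
    refine ⟨c - polar Q (d + b • v + b • s' + c • s) (e 3 + e 4 - v) -
      Q (e 3 + e 4 - v) * b, ?_⟩
    convert this using 1
    module
  obtain ⟨a1, a2, ha⟩ := exists_sing F
  have hq2 := hC.norm _ hz2
  have hD : d + b • (e 3 + e 4) + c' • ((a1 : F) • e 1 + (a2 : F) • e 2 + e 3) + c' • s ∈ C := by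
    have w1 := hC.refl _ hz2 _ hz
    have e1 : r Q (-(s + s')) • (d + b • (e 3 + e 4) + b • s' + c' • s) =
        d + b • (e 3 + e 4) - b • s - c' • s' := by
      rw [r_act1 hq2]
      simp (disch := omega) only [polar_add_left, polar_smul_left, polar_neg_right,
        polar_add_right, o.ds, o.dt, o.es, o.et, o.ts, o.st, o.ss, o.tt, smul_eq_mul]
      module
    rw [e1] at w1
    have hw : -((a1 : F) • e 1 + (a2 : F) • e 2 + e 3) ∈ A := A.neg_mem (A.add_mem (A.add_mem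
      (nat_mem (he 1 (by omega)) a1) (nat_mem (he 2 (by omega)) a2)) (he 3 (by omega)))
    have hq : Q (-((a1 : F) • e 1 + (a2 : F) • e 2 + e 3)) = 0 := by
      simp (disch := omega) only [QuadraticMap.map_neg, Qadd, Qsmul, polar_add_left,
        polar_smul_left, polar_smul_right, o.qe, o.ee, dl_ne, smul_eq_mul]
      linear_combination 2⁻¹ * ha
    have w2 := hEA _ hw _ w1
    have e2 : E Q s (-((a1 : F) • e 1 + (a2 : F) • e 2 + e 3)) •
        (d + b • (e 3 + e 4) - b • s - c' • s') = d + b • (e 3 + e 4) +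
          c' • ((a1 : F) • e 1 + (a2 : F) • e 2 + e 3) - c' • s' := by
      rw [E_act o.qs (by
        simp (disch := omega) only [polar_neg_right, polar_add_right, polar_smul_right, o.se,
          smul_zero, add_zero, neg_zero]), hq]
      simp (disch := omega) only [polar_add_left, polar_sub_left, polar_smul_left, polar_neg_right,
        polar_add_right, polar_smul_right, o.ds, o.de, o.es, o.se, o.te, o.ee, o.ts, o.ss, dl_ne,
        dl_eq, smul_eq_mul]
      module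
    rw [e2] at w2
    have w3 := hC.refl _ hz2 _ w2
    rw [r_act1 hq2] at w3
    simp (disch := omega) only [polar_add_left, polar_sub_left, polar_smul_left, polar_neg_right,
      polar_add_right, o.ds, o.dt, o.es, o.et, o.ts, o.st, o.ss, o.tt, smul_eq_mul] at w3
    convert w3 using 1
    module
  have hn : b * (b + c') = 1 - Q d := by
    have := hC.norm _ hz
    simp (disch := omega) only [Qadd, Qsmul, polar_add_left, polar_smul_left, polar_add_right,
      polar_smul_right, o.qe, o.ee, o.de, o.dt, o.ds, o.et, o.es, o.ts, o.qs, o.qt, dl_ne,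
      smul_eq_mul] at this
    linear_combination this - b * b * hi2
  set z := d + b • (e 3 + e 4) + c' • ((a1 : F) • e 1 + (a2 : F) • e 2 + e 3) + c' • s with hzd
  have hz1 : ∀ a : F, a • (e 4 - e 0) ∈ A → (a * b) • z ∈ A := by
    intro a ha
    have := hA _ ha _ hD (by
      rw [hzd]
      simp (disch := omega) only [polar_add_right, polar_smul_right, o.se, o.sd, o.ss, add_zero,
        smul_zero])
    convert this using 2
    rw [hzd]
    simp (disch := omega) only [polar_add_right, polar_smul_right, polar_smul_left,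
      polar_sub_left, o.ee, o.ed, o.es, dl_ne, dl_eq, smul_eq_mul]
    ring
  have hall : ∀ a : F, ∀ k n, k < m → n < m → k ≠ n → a • (e k - e n) ∈ A := by
    refine o.gn _ (by simp) h1R (fun a b ha hb k n hk hn hkn => ?_) fun a ha => ?_
    · rw [add_smul]
      exact A.add_mem (ha k n hk hn hkn) (hb k n hk hn hkn)
    · refine rc _ 3 0 (by omega) (by omega) (by omega) ?_
      have := A.sub_mem (ha 3 0 (by omega) (by omega) (by omega)) (hAR _ (hz1 a
        (ha _ _ (by omega) (by omega) (by omega))) 3 0 (by omega) (by omega) (by omega))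
      rw [← sub_smul] at this
      convert this using 2
      rw [hzd]
      simp (disch := omega) only [polar_add_left, polar_smul_left, polar_sub_right, o.ee, o.de,
        o.se, dl_ne, dl_eq, smul_eq_mul]
      linear_combination a * hn
  have hzc : z ∈ core F A := fun a => by
    have := hz1 (a / b) (hall _ _ _ (by omega) (by omega) (by omega))
    rwa [div_mul_cancel₀ _ hb] at this
  have hec : ∀ i < m, e i ∈ core F A := fun i hi a => hone a (hall a) i hi
  refine o.sp _ hec ?_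
  have : d = z - c' • s - (b • (e 3 + e 4) + c' • ((a1 : F) • e 1 + (a2 : F) • e 2 + e 3)) := by
    rw [hzd]; abel
  rw [this]
  refine sub_mem (sub_mem hzc (Submodule.smul_mem _ _ hsA)) ?_
  repeat' first | apply add_mem | apply Submodule.smul_mem | exact hec _ (by omega)

set_option linter.unreachableTactic false in
set_option linter.unusedTactic false in
theorem Od.coreA [Finite F] (h2 : (2 : F) ≠ 0) {e : ℕ → V} {s s' d : V}
    (o : Od Q (2 * l + 7) e s s' d) : ∃ x y w, Core Q l (2 * l + 7) e x y w := by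
  have hi2 : (2 : F) * 2⁻¹ = 1 := mul_inv_cancel₀ h2
  have rt := o.rt h2
  obtain ⟨z2, hz2⟩ : ∃ z, z = -(s + s') := ⟨_, rfl⟩
  obtain ⟨c, hc⟩ : ∃ z, z = e (2 * l + 3) + e (2 * l + 4) + e (2 * l + 5) + e (2 * l + 6) + s - s' :=
    ⟨_, rfl⟩
  obtain ⟨d2, hd2⟩ : ∃ z, z = e (2 * l + 4) + e (2 * l + 5) := ⟨_, rfl⟩
  obtain ⟨d3, hd3⟩ : ∃ z, z = e (2 * l + 4) - e (2 * l + 5) + s := ⟨_, rfl⟩
  obtain ⟨z3, hz3⟩ : ∃ z, z = d + (e (2 * l + 4) - e (2 * l + 5) + e (2 * l + 6)) +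
    (-2 : F) • s' + (2⁻¹ * (Q d + 2⁻¹)) • s := ⟨_, rfl⟩
  have H : Q z2 = 1 ∧ Q c = 1 ∧ Q d2 = 1 ∧ Q d3 = 1 ∧ Q z3 = 1 ∧
      (∀ i k, i < 2 * l + 7 → k < 2 * l + 7 → polar Q (e i - e k) z2 = 0) ∧
      (∀ i k, i ≤ 2 * l + 2 → k ≤ 2 * l + 2 → polar Q (e i - e k) c = 0) ∧
      (∀ i k, i ≤ 2 * l + 3 → k ≤ 2 * l + 3 → polar Q (e i - e k) d2 = 0) ∧
      (∀ i k, i ≤ 2 * l + 3 → k ≤ 2 * l + 3 → polar Q (e i - e k) d3 = 0) ∧
      (∀ i k, i ≤ 2 * l + 3 → k ≤ 2 * l + 3 → polar Q (e i - e k) z3 = 0) ∧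
      polar Q (e (2 * l + 3) - e (2 * l + 4)) c = 0 ∧ polar Q (e (2 * l + 4) - e (2 * l + 5)) c = 0 ∧
      polar Q (e (2 * l + 5) - e (2 * l + 6)) c = 0 ∧ polar Q z2 c = 0 ∧
      polar Q d2 d3 = 0 ∧ polar Q d2 z3 = 0 ∧ polar Q d3 z3 = 0 ∧
      polar Q (e 0 - e (2 * l + 6)) d2 = 0 ∧ polar Q (e 0 - e (2 * l + 6)) d3 = 0 ∧
      polar Q (e 0 - e (2 * l + 6)) z3 = -1 ∧ polar Q (e (2 * l + 4) - e (2 * l + 5)) d2 = 0 ∧
      polar Q (e 0 - e (2 * l + 4)) d2 = -1 ∧ polar Q d3 z2 = -1 ∧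
      polar Q s (e (2 * l + 4) - e (2 * l + 5)) = 0 ∧
      polar Q (-((2⁻¹ : F) • (e (2 * l + 4) - e (2 * l + 5) + e (2 * l + 6)))) s = 0 := by
    subst hz2 hc hd2 hd3 hz3
    refine ⟨?_, ?_, ?_, ?_, ?_, ?_, ?_, ?_, ?_, ?_, ?_, ?_, ?_, ?_, ?_, ?_, ?_, ?_, ?_, ?_, ?_, ?_,
      ?_, ?_, ?_⟩ <;> intros <;> simp (disch := omega) only [Qadd, Qsub, Qsmul, QuadraticMap.map_neg, polar_add_left,
      polar_add_right, polar_sub_left, polar_sub_right, polar_smul_left, polar_smul_right,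
      polar_neg_left, polar_neg_right, o.ee, o.qe, o.se, o.te, o.de, o.es, o.et, o.ed, o.sd, o.td,
      o.ds, o.dt, o.qs, o.qt, o.st, o.ts, o.ss, o.tt, smul_eq_mul, dl_ne, dl_eq] <;>
      first | ring1 | linear_combination hi2 | linear_combination 2 * hi2 |
        linear_combination (1 - Q d - 2⁻¹) * hi2
  obtain ⟨q1, q2, q3, q4, q5, a1, a2, a3, a4, a5, b1, b2, b3, b4, b5, b6, b7, c1, c2, c3, c4, c5,
    c6, c7, c8⟩ := H
  have r3 : Q (e (2 * l + 3) - e (2 * l + 4)) = 1 := rt.q _ _ (by omega) (by omega) (by omega)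
  have r4 : Q (e (2 * l + 4) - e (2 * l + 5)) = 1 := rt.q _ _ (by omega) (by omega) (by omega)
  have r5 : Q (e (2 * l + 5) - e (2 * l + 6)) = 1 := rt.q _ _ (by omega) (by omega) (by omega)
  refine ⟨tr (e (2 * l + 3) - e (2 * l + 4)) (e (2 * l + 5) - e (2 * l + 6)) z2,
    tr (e (2 * l + 4) - e (2 * l + 5)) z2 c, tr d2 d3 z3, by omega, rt,
    po_tr r3 r5 q1 (rt.o (by omega)) (a1 _ _ (by omega) (by omega)) (a1 _ _ (by omega) (by omega)),
    po_tr r4 q1 q2 (a1 _ _ (by omega) (by omega)) b2 b4, po_tr q3 q4 q5 b5 b6 b7,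
    all_tr (P := fun v => ∀ i k, i ≤ 2 * l + 2 → k ≤ 2 * l + 2 → polar Q (e i - e k) v = 0)
      (fun i k _ _ => rt.o (by omega)) (fun i k _ _ => rt.o (by omega))
      (fun i k _ _ => a1 _ _ (by omega) (by omega)),
    all_tr (P := fun v => ∀ i k, i ≤ 2 * l + 2 → k ≤ 2 * l + 2 → polar Q (e i - e k) v = 0)
      (fun i k _ _ => rt.o (by omega)) (fun i k _ _ => a1 _ _ (by omega) (by omega)) a2,
    all_tr (P := fun v => ∀ i k, i ≤ 2 * l + 3 → k ≤ 2 * l + 3 → polar Q (e i - e k) v = 0)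
      a3 a4 a5, ?_, fun h => absurd h h2, fun K e' u3 px py pw => ?_⟩
  · have z : ∀ i k, i < 2 * l + 7 → k < 2 * l + 7 → Commute (r Q z2) (r Q (e i - e k)) :=
      fun i k hi hk => (r_comm (a1 i k hi hk)).symm
    exact ord6 (pow4 (r_mul_self _) (r_mul_self _) (r_mul_self _) (r_comm (rt.o (by omega)))
      (r_braid r5 r4 (rt.u (by omega))) (r_braid r4 r3 (rt.u (by omega)))) (r_mul_self _)
      (r_mul_self _) (r_mul_self _) (z _ _ (by omega) (by omega)) (z _ _ (by omega) (by omega))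
      (z _ _ (by omega) (by omega)) (z _ _ (by omega) (by omega)) (z _ _ (by omega) (by omega))
      (z _ _ (by omega) (by omega)) (r_comm b3).symm (r_comm b1).symm (r_comm b2).symm
      (Commute.refl _) (r_comm b4) (r_comm b4)
  · have hC := Cls_cl e' K
    have m3 := px.g0 hC (u3 0 (2 * l + 3) (by omega) le_rfl (by omega)) (Or.inr (rt.o (by omega)))
      (Or.inr (a1 _ _ (by omega) (by omega))) (rt.u (by omega))
    have m4 := py.g0 hC m3 (Or.inr (a1 _ _ (by omega) (by omega))) (Or.inr b1) (rt.u (by omega))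
    have m5 := px.g1 hC m4 (Or.inl m3) (Or.inr (a1 _ _ (by omega) (by omega))) (rt.u (by omega))
    have u6 : Up e _ (2 * l + 6) :=
      rt.up hC (by omega) (rt.up hC (by omega) (rt.up hC (by omega) u3 m3) m4) m5
    have n3 := pw.g2 hC (u6 0 (2 * l + 6) (by omega) le_rfl (by omega)) (Or.inr c1) (Or.inr c2)
      (Or.inr c3)
    have n2 : d3 ∈ Cls Q e' K := by
      have := pw.f1 hC m4 (Or.inr c4) (Or.inl n3)
      rw [hd3] at this ⊢
      exact force2 h2 m4 o.qs c7 this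
    have n1 := pw.g0 hC (u6 0 (2 * l + 4) (by omega) (by omega) (by omega)) (Or.inl n2) (Or.inl n3)
      (Or.inr c5)
    have n4 := px.g2 hC n2 (Or.inl m3) (Or.inl m5) (Or.inr c6)
    refine o.goal h2 (by omega) hC (fun i j hi hj => u6 i j (by omega) (by omega))
      (i0 := 2 * l + 4) (j0 := 2 * l + 5) (i1 := 2 * l + 4) (j1 := 2 * l + 5) (by omega) (by omega)
      (by omega) (by omega) (by omega) (by omega) (hd2 ▸ n1) (hd3 ▸ n2) (hz2 ▸ n4)
      (b := -2) (c := 2⁻¹ * (Q d + 2⁻¹)) (neg_ne_zero.2 h2) ?_ c8 fun A _ hA => ?_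
    · convert n3 using 1
      rw [hz3]
      linear_combination (norm := module) hi2 • (e (2 * l + 4) - e (2 * l + 5) + e (2 * l + 6))
    · rw [smul_add, smul_sub]
      exact A.neg_mem (A.add_mem (A.sub_mem (hA _ (by omega)) (hA _ (by omega)))
        (hA _ (by omega)))

set_option linter.unreachableTactic false in
set_option linter.unusedTactic false in
theorem Od.coreB [Finite F] (h2 : (2 : F) ≠ 0) {e : ℕ → V} {s s' d : V}
    (o : Od Q (2 * l + 9) e s s' d) : ∃ x y w, Core Q l (2 * l + 9) e x y w := by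
  have hi2 : (2 : F) * 2⁻¹ = 1 := mul_inv_cancel₀ h2
  have rt := o.rt h2
  obtain ⟨z2, hz2⟩ : ∃ z, z = -(s + s') := ⟨_, rfl⟩
  obtain ⟨c, hc⟩ : ∃ z, z = e (2 * l + 7) + e (2 * l + 8) := ⟨_, rfl⟩
  obtain ⟨d3, hd3⟩ : ∃ z, z = e (2 * l + 4) - e (2 * l + 5) + s := ⟨_, rfl⟩
  obtain ⟨z3, hz3⟩ : ∃ z, z = d + (-1 : F) • (-(e (2 * l + 4) + e (2 * l + 8))) +
    (-1 : F) • s' + Q d • s := ⟨_, rfl⟩
  have H : Q z2 = 1 ∧ Q c = 1 ∧ Q d3 = 1 ∧ Q z3 = 1 ∧
      (∀ i k, i < 2 * l + 9 → k < 2 * l + 9 → polar Q (e i - e k) z2 = 0) ∧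
      (∀ i k, i ≤ 2 * l + 6 → k ≤ 2 * l + 6 → polar Q (e i - e k) c = 0) ∧
      (∀ i k, i ≤ 2 * l + 3 → k ≤ 2 * l + 3 → polar Q (e i - e k) d3 = 0) ∧
      (∀ i k, i ≤ 2 * l + 3 → k ≤ 2 * l + 3 → polar Q (e i - e k) z3 = 0) ∧
      polar Q (e (2 * l + 7) - e (2 * l + 8)) c = 0 ∧ polar Q c z2 = 0 ∧
      polar Q (e (2 * l + 6) - e (2 * l + 7)) d3 = 0 ∧ polar Q (e (2 * l + 6) - e (2 * l + 7)) z3 = 0 ∧
      polar Q d3 z3 = 0 ∧
      polar Q (e 0 - e (2 * l + 6)) d3 = 0 ∧ polar Q (e 0 - e (2 * l + 6)) z3 = 0 ∧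
      polar Q (e (2 * l + 6) - e (2 * l + 7)) c = -1 ∧ polar Q (e 0 - e (2 * l + 8)) d3 = 0 ∧
      polar Q (e 0 - e (2 * l + 8)) z3 = -1 ∧ polar Q (e 0 - e (2 * l + 4)) d3 = -1 ∧
      polar Q d3 z2 = -1 ∧ polar Q (-(e (2 * l + 4) + e (2 * l + 8))) s = 0 := by
    subst hz2 hc hd3 hz3
    refine ⟨?_, ?_, ?_, ?_, ?_, ?_, ?_, ?_, ?_, ?_, ?_, ?_, ?_, ?_, ?_, ?_, ?_, ?_, ?_, ?_,
      ?_⟩ <;> intros <;> simp (disch := omega) only [Qadd, Qsub, Qsmul, QuadraticMap.map_neg, polar_add_left,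
      polar_add_right, polar_sub_left, polar_sub_right, polar_smul_left, polar_smul_right,
      polar_neg_left, polar_neg_right, o.ee, o.qe, o.se, o.te, o.de, o.es, o.et, o.ed, o.sd, o.td,
      o.ds, o.dt, o.qs, o.qt, o.st, o.ts, o.ss, o.tt, smul_eq_mul, dl_ne, dl_eq] <;>
      first | ring1 | linear_combination hi2
  obtain ⟨q1, q2, q4, q5, a1, a2, a4, a5, b1, b2, b3, b4, b5, c1, c2, c3, c4, c5, c6, c7,
    c8⟩ := H
  have r3 : Q (e (2 * l + 3) - e (2 * l + 4)) = 1 := rt.q _ _ (by omega) (by omega) (by omega)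
  have r4 : Q (e (2 * l + 4) - e (2 * l + 5)) = 1 := rt.q _ _ (by omega) (by omega) (by omega)
  have r5 : Q (e (2 * l + 5) - e (2 * l + 6)) = 1 := rt.q _ _ (by omega) (by omega) (by omega)
  have r6 : Q (e (2 * l + 6) - e (2 * l + 7)) = 1 := rt.q _ _ (by omega) (by omega) (by omega)
  have r7 : Q (e (2 * l + 7) - e (2 * l + 8)) = 1 := rt.q _ _ (by omega) (by omega) (by omega)
  refine ⟨tr (e (2 * l + 3) - e (2 * l + 4)) (e (2 * l + 5) - e (2 * l + 6))
    (e (2 * l + 7) - e (2 * l + 8)), tr (e (2 * l + 4) - e (2 * l + 5)) c z2,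
    tr (e (2 * l + 6) - e (2 * l + 7)) d3 z3, by omega, rt,
    po_tr r3 r5 r7 (rt.o (by omega)) (rt.o (by omega)) (rt.o (by omega)),
    po_tr r4 q2 q1 (a2 _ _ (by omega) (by omega)) (a1 _ _ (by omega) (by omega)) b2,
    po_tr r6 q4 q5 b3 b4 b5,
    all_tr (P := fun v => ∀ i k, i ≤ 2 * l + 2 → k ≤ 2 * l + 2 → polar Q (e i - e k) v = 0)
      (fun i k _ _ => rt.o (by omega)) (fun i k _ _ => rt.o (by omega))
      (fun i k _ _ => rt.o (by omega)),
    all_tr (P := fun v => ∀ i k, i ≤ 2 * l + 2 → k ≤ 2 * l + 2 → polar Q (e i - e k) v = 0)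
      (fun i k _ _ => rt.o (by omega)) (fun i k _ _ => a2 _ _ (by omega) (by omega))
      (fun i k _ _ => a1 _ _ (by omega) (by omega)),
    all_tr (P := fun v => ∀ i k, i ≤ 2 * l + 3 → k ≤ 2 * l + 3 → polar Q (e i - e k) v = 0)
      (fun i k _ _ => rt.o (by omega)) a4 a5, ?_, fun h => absurd h h2,
    fun K e' u3 px py pw => ?_⟩
  · have z : ∀ i k, i < 2 * l + 9 → k < 2 * l + 9 → Commute (r Q z2) (r Q (e i - e k)) :=
      fun i k hi hk => (r_comm (a1 i k hi hk)).symm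
    have z' : ∀ i k, i ≤ 2 * l + 6 → k ≤ 2 * l + 6 → Commute (r Q c) (r Q (e i - e k)) :=
      fun i k hi hk => (r_comm (a2 i k hi hk)).symm
    exact ord6 (pow4 (r_mul_self _) (r_mul_self _) (r_mul_self _) (r_comm (rt.o (by omega)))
      (r_braid r5 r4 (rt.u (by omega))) (r_braid r4 r3 (rt.u (by omega)))) (r_mul_self _)
      (r_mul_self _) (r_mul_self _) (r_comm (rt.o (by omega))) (r_comm (rt.o (by omega)))
      (r_comm (rt.o (by omega))) (z' _ _ (by omega) (by omega)) (z' _ _ (by omega) (by omega))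
      (z' _ _ (by omega) (by omega)) (z _ _ (by omega) (by omega)) (z _ _ (by omega) (by omega))
      (z _ _ (by omega) (by omega)) (r_comm b1) (z _ _ (by omega) (by omega)).symm (r_comm b2)
  · have hC := Cls_cl e' K
    have m3 := px.g0 hC (u3 0 (2 * l + 3) (by omega) le_rfl (by omega)) (Or.inr (rt.o (by omega)))
      (Or.inr (rt.o (by omega))) (rt.u (by omega))
    have m4 := py.g0 hC m3 (Or.inr (a2 _ _ (by omega) (by omega)))
      (Or.inr (a1 _ _ (by omega) (by omega))) (rt.u (by omega))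
    have m5 := px.g1 hC m4 (Or.inl m3) (Or.inr (rt.o (by omega))) (rt.u (by omega))
    have u6 : Up e _ (2 * l + 6) :=
      rt.up hC (by omega) (rt.up hC (by omega) (rt.up hC (by omega) u3 m3) m4) m5
    have m6 := pw.g0 hC (u6 0 (2 * l + 6) (by omega) le_rfl (by omega)) (Or.inr c1) (Or.inr c2)
      (rt.u (by omega))
    have m7 := px.g2 hC m6 (Or.inl m3) (Or.inl m5) (rt.u (by omega))
    have u8 : Up e _ (2 * l + 8) := rt.up hC (by omega) (rt.up hC (by omega) u6 m6) m7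
    have n1 := py.g1 hC m6 (Or.inl m4) (Or.inr (a1 _ _ (by omega) (by omega))) (Or.inr c3)
    have n3 := pw.g2 hC (u8 0 (2 * l + 8) (by omega) le_rfl (by omega)) (Or.inl m6) (Or.inr c4)
      (Or.inr c5)
    have n2 := pw.g1 hC (u8 0 (2 * l + 4) (by omega) (by omega) (by omega)) (Or.inl m6) (Or.inl n3)
      (Or.inr c6)
    have n4 := py.g2 hC n2 (Or.inl m4) (Or.inl n1) (Or.inr c7)
    exact o.goal h2 (by omega) hC (fun i j hi hj => u8 i j (by omega) (by omega))
      (i0 := 2 * l + 7) (j0 := 2 * l + 8) (i1 := 2 * l + 4) (j1 := 2 * l + 5) (by omega) (by omega)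
      (by omega) (by omega) (by omega) (by omega) (hc ▸ n1) (hd3 ▸ n2) (hz2 ▸ n4)
      (neg_ne_zero.2 one_ne_zero) (hz3 ▸ n3) c8 fun A hA _ =>
        A.neg_mem (A.add_mem (hA _ (by omega)) (hA _ (by omega)))

end Pool.Agent.Lib.MP_cad414_al.Ten
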