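import Pool.Agent.Lib.MP_cad414_al.TenB

namespace Pool.Agent.Lib.MP_cad414_al.Ten

set_option linter.unusedSimpArgs false

open QuadraticMap Module

variable {F V : Type} [Field F] [AddCommGroup V] [Module F V] {Q : QuadraticForm F V} {l : ℕ}

theorem pair_aux [Finite F] [FiniteDimensional F V] (h2 : (2 : F) = 0) {W : Submodule F V}
    (hW : ND Q W) (hd : 4 ≤ finrank F W) {a b : V} (ha : a ∈ W) (hb : b ∈ W)
    (h : polar Q a b = 1) (m : F) : ∃ a' ∈ W, Q a' = m ∧ polar Q b a' = 1 := by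
  obtain ⟨k1, k2, -⟩ := split2 hW ha hb (by rw [pself, h, h2]; simp)
  obtain ⟨c, hc, hq⟩ := universal k1 (by omega) (m - Q a)
  obtain ⟨hc1, hc3⟩ := mem_perp.1 hc
  obtain ⟨hc1, hc2⟩ := mem_perp.1 hc1
  refine ⟨a + c, W.add_mem ha hc1, ?_, ?_⟩
  · rw [Qadd, hq, hc2]; ring
  · rw [polar_add_right, hc3, pcomm, h, add_zero]

theorem pair_two [Finite F] [FiniteDimensional F V] (h2 : (2 : F) = 0) {W : Submodule F V}
    (hW : ND Q W) (hd : 4 ≤ finrank F W) (m : F) :
    ∃ a ∈ W, ∃ b ∈ W, Q a = m ∧ Q b = m ∧ polar Q a b = 1 := by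
  obtain ⟨a, ha, ha0⟩ := exists_ne_zero (W := W) (by omega)
  obtain ⟨b, hb, h⟩ := exists_dual hW ha ha0 1
  obtain ⟨a', ha', h3, h4⟩ := pair_aux h2 hW hd ha hb h m
  obtain ⟨b', hb', h5, h6⟩ := pair_aux h2 hW hd hb ha' h4 m
  exact ⟨a', ha', b', hb', h3, h5, h6⟩

theorem simplex [Finite F] [FiniteDimensional F V] (h2 : (2 : F) = 0) {W : Submodule F V}
    (hW : ND Q W) (j : ℕ) (hj : 2 * j + 2 ≤ finrank F W) :
    ∃ (f : ℕ → V) (W' : Submodule F V) (t : V),
      ND Q W' ∧ finrank F W' + 2 * j = finrank F W ∧ W' ≤ W ∧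
      (∀ i < 2 * j, f i ∈ W ∧ Q (f i) = 1 ∧ polar Q (f i) t = 1 ∧ ∀ x ∈ W', polar Q (f i) x = 0) ∧
      (∀ i k, i < 2 * j → k < 2 * j → i ≠ k → polar Q (f i) (f k) = 1) ∧
      t ∈ W ∧ (∀ x ∈ W', polar Q t x = 0) ∧
      ∀ M : Submodule F V, (∀ i < 2 * j, f i ∈ M) → t ∈ M ∧ (W' ≤ M → W ≤ M) := by
  induction j with
  | zero =>
    exact ⟨fun _ => 0, W, 0, hW, rfl, le_rfl, by simp, by simp, W.zero_mem, by simp,
      fun M _ => ⟨M.zero_mem, fun h => h⟩⟩
  | succ j ih =>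
    obtain ⟨f, W', t, h1, h3, h4, h5, h6, h7, h8, h9⟩ := ih (by omega)
    obtain ⟨a, ha, b, hb, qa, qb, hab⟩ := pair_two h2 h1 (by omega) (1 - Q t)
    have hxx : ∀ x, polar Q x x = 0 := fun x => by rw [pself, h2, zero_mul]
    obtain ⟨k1, k2, k3⟩ := split2 h1 ha hb (by rw [hxx, hab]; simp)
    have hle : perp Q (perp Q W' a) b ≤ W' := fun x hx => (mem_perp.1 (mem_perp.1 hx).1).1
    have hta := h8 a ha
    have htb := h8 b hb
    have hat := pcomm0 hta
    have hbt := pcomm0 htb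
    have hba : polar Q b a = 1 := by rw [pcomm, hab]
    have ea : ∀ i < 2 * j, polar Q (f i) (t + a) = 1 := fun i hi => by
      rw [polar_add_right, (h5 i hi).2.2.1, (h5 i hi).2.2.2 a ha, add_zero]
    have eb : ∀ i < 2 * j, polar Q (f i) (t + b) = 1 := fun i hi => by
      rw [polar_add_right, (h5 i hi).2.2.1, (h5 i hi).2.2.2 b hb, add_zero]
    have eab : polar Q (t + a) (t + b) = 1 := by
      simp only [polar_add_left, polar_add_right, hxx, htb, hat, hab]; ring
    refine ⟨fun i => if i = 2 * j then t + a else if i = 2 * j + 1 then t + b else f i,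
      perp Q (perp Q W' a) b, t + a + b, k1, by omega, hle.trans h4,
      fun i hi => ?_, fun i k hi hk hik => ?_, W.add_mem (W.add_mem h7 (h4 ha)) (h4 hb),
      fun x hx => ?_, fun M hM => ?_⟩
    · dsimp only
      split_ifs with e1 e2
      · refine ⟨W.add_mem h7 (h4 ha), by rw [Qadd, qa, hta]; ring, ?_, fun x hx => ?_⟩
        · simp only [polar_add_left, polar_add_right, hxx, hta, htb, hat, hab]; ring
        · rw [polar_add_left, h8 x (hle hx), (mem_perp.1 (mem_perp.1 hx).1).2, add_zero]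
      · refine ⟨W.add_mem h7 (h4 hb), by rw [Qadd, qb, htb]; ring, ?_, fun x hx => ?_⟩
        · simp only [polar_add_left, polar_add_right, hxx, hta, htb, hbt, hba]; ring
        · rw [polar_add_left, h8 x (hle hx), (mem_perp.1 hx).2, add_zero]
      · obtain ⟨a1, a2, a3, a4⟩ := h5 i (by omega)
        refine ⟨a1, a2, ?_, fun x hx => a4 x (hle hx)⟩
        rw [polar_add_right, ea i (by omega), a4 b hb, add_zero]
    · dsimp only
      split_ifs
      · omega
      · exact eab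
      · rw [pcomm]; exact ea k (by omega)
      · rw [pcomm]; exact eab
      · omega
      · rw [pcomm]; exact eb k (by omega)
      · exact ea i (by omega)
      · exact eb i (by omega)
      · exact h6 i k (by omega) (by omega) hik
    · rw [polar_add_left, polar_add_left, h8 x (hle hx), (mem_perp.1 (mem_perp.1 hx).1).2,
        (mem_perp.1 hx).2]
      ring
    · obtain ⟨m1, m2⟩ := h9 M fun i hi => by
        simpa only [if_neg (show i ≠ 2 * j by omega), if_neg (show i ≠ 2 * j + 1 by omega)]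
          using hM i (by omega)
      have m3 : a ∈ M := by
        have : t + a ∈ M := by simpa using hM (2 * j) (by omega)
        exact (M.add_mem_iff_right m1).1 this
      have m4 : b ∈ M := by
        have : t + b ∈ M := by simpa using hM (2 * j + 1) (by omega)
        exact (M.add_mem_iff_right m1).1 this
      exact ⟨M.add_mem (M.add_mem m1 m3) m4, fun h => m2 (k3 M m3 m4 h)⟩

theorem simplex_p [Finite F] [FiniteDimensional F V] (h2 : (2 : F) = 0) {W : Submodule F V}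
    (hW : ND Q W) (j : ℕ) (hj : 2 * j + 2 ≤ finrank F W) :
    ∃ (p : ℕ → V) (W' : Submodule F V), ND Q W' ∧ finrank F W' + 2 * j = finrank F W ∧ W' ≤ W ∧
      (∀ i < 2 * j + 1, p i ∈ W ∧ ∀ x ∈ W', polar Q (p i) x = 0) ∧
      (∀ i k n q, i < 2 * j + 1 → k < 2 * j + 1 → n < 2 * j + 1 → q < 2 * j + 1 →
        polar Q (p i - p k) (p n - p q) = dl F i n - dl F i q - dl F k n + dl F k q) ∧
      (∀ i k, i < 2 * j + 1 → k < 2 * j + 1 → i ≠ k → Q (p i - p k) = 1) ∧
      ∀ M : Submodule F V, (∀ i < 2 * j, p (i + 1) - p 0 ∈ M) → W' ≤ M → W ≤ M := by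
  obtain ⟨f, W', t, h1, h3, h4, h5, h6, -, -, h9⟩ := simplex h2 hW j hj
  let p : ℕ → V := fun i => Nat.casesOn i 0 f
  have hp : ∀ i k, i < 2 * j + 1 → k < 2 * j + 1 →
      polar Q (p i) (p k) = dl F i k - dl F i 0 - dl F k 0 + 1 := by
    intro i k hi hk
    rcases i with _ | i <;> rcases k with _ | k
    · simp [p, dl]
    · simp [p, dl]
    · simp [p, dl]
    · show polar Q (f i) (f k) = _
      by_cases e : i = k
      · subst e
        rw [pself, h2]
        simp (disch := omega) only [dl_ne, dl_eq]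
        linear_combination -h2
      · rw [h6 i k (by omega) (by omega) e]
        simp (disch := omega) only [dl_ne, dl_eq]
        ring
  have hq : ∀ i, i < 2 * j + 1 → Q (p i) = 1 - dl F i 0 := by
    intro i hi
    rcases i with _ | i
    · simp [p, dl]
    · show Q (f i) = _
      rw [(h5 i (by omega)).2.1, dl_ne (by omega), sub_zero]
  refine ⟨p, W', h1, h3, h4, fun i hi => ?_, fun i k n q hi hk hn hq => ?_,
    fun i k hi hk hik => ?_, fun M hM => (h9 M fun i hi => ?_).2⟩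
  · rcases i with _ | i
    · exact ⟨W.zero_mem, fun x _ => polar_zero_left Q x⟩
    · exact ⟨(h5 i (by omega)).1, (h5 i (by omega)).2.2.2⟩
  · simp (disch := omega) only [polar_sub_left, polar_sub_right, hp]
    ring
  · rw [Qsub, hq i hi, hq k hk, hp i k hi hk, dl_ne hik]
    ring
  · simpa [p] using hM i hi

theorem wit_tr {p : ℕ → V} {a b c : V} {n m : ℕ}
    (h0 : ∃ g, polar Q a g ≠ 0 ∧
      ∀ i k, i ≤ m → k ≤ m → i ≠ n → k ≠ n → polar Q (p i - p k) g = 0)
    (h1 : ∃ g, polar Q b g ≠ 0 ∧ polar Q a g = 0 ∧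
      ∀ i k, i ≤ m → k ≤ m → i ≠ n → k ≠ n → polar Q (p i - p k) g = 0)
    (h2 : ∃ g, polar Q c g ≠ 0 ∧ polar Q a g = 0 ∧ polar Q b g = 0 ∧
      ∀ i k, i ≤ m → k ≤ m → i ≠ n → k ≠ n → polar Q (p i - p k) g = 0) :
    Wit Q p (tr a b c) n m := by
  intro j hj
  interval_cases j
  · obtain ⟨g, g1, g2⟩ := h0
    exact ⟨g, g1, fun i hi => by omega, g2⟩
  · obtain ⟨g, g1, g2, g3⟩ := h1
    exact ⟨g, g1, fun i hi => by interval_cases i; exact g2, g3⟩
  · obtain ⟨g, g1, g2, g3, g4⟩ := h2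
    exact ⟨g, g1, fun i hi => by interval_cases i <;> assumption, g4⟩

/-- coordinates in characteristic two -/
structure Tw (Q : QuadraticForm F V) (m : ℕ) (p : ℕ → V) (v w : V) : Prop where
  rt : Rt Q m p
  rv : ∀ i j, i < m → j < m → polar Q (p i - p j) v = 0
  rw' : ∀ i j, i < m → j < m → polar Q (p i - p j) w = 0
  vr : ∀ i j, i < m → j < m → polar Q v (p i - p j) = 0
  wr : ∀ i j, i < m → j < m → polar Q w (p i - p j) = 0
  qv : Q v = 1
  vw : polar Q v w = 1
  wv : polar Q w v = 1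
  sp : ∀ M : Submodule F V, (∀ i j, i < m → j < m → p i - p j ∈ M) → v ∈ M → w ∈ M → ⊤ ≤ M

theorem exists_tw [Finite F] [FiniteDimensional F V] (h2 : (2 : F) = 0) (hQ : ND Q ⊤) {j : ℕ}
    (hd : finrank F V = 2 * j + 2) : ∃ p v w, Tw Q (2 * j + 1) p v w := by
  have hxx : ∀ x, polar Q x x = 0 := fun x => by rw [pself, h2, zero_mul]
  obtain ⟨p, W, k3, k4, -, k6, hRR, hQR, k7⟩ := simplex_p h2 hQ j (by rw [finrank_top]; omega)
  rw [finrank_top] at k4
  obtain ⟨v, hvW, hv⟩ := universal k3 (by omega) 1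
  obtain ⟨w, hwW, hvw⟩ := exists_dual k3 hvW (ne_zero_of_one hv) 1
  obtain ⟨-, k8, k9⟩ := split2 k3 hvW hwW (by rw [hxx, hvw]; simp)
  have hRv : ∀ i k, i < 2 * j + 1 → k < 2 * j + 1 → polar Q (p i - p k) v = 0 :=
    fun i j hi hj => by rw [polar_sub_left, (k6 i hi).2 v hvW, (k6 j hj).2 v hvW, sub_self]
  have hRw : ∀ i k, i < 2 * j + 1 → k < 2 * j + 1 → polar Q (p i - p k) w = 0 :=
    fun i j hi hj => by rw [polar_sub_left, (k6 i hi).2 w hwW, (k6 j hj).2 w hwW, sub_self]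
  exact ⟨p, v, w, ⟨hRR, hQR⟩, hRv, hRw, fun i k hi hk => pcomm0 (hRv i k hi hk),
    fun i k hi hk => pcomm0 (hRw i k hi hk), hv, hvw, by rw [pcomm, hvw],
    fun M h1 h3 h4 => k7 M (fun i hi => h1 _ _ (by omega) (by omega))
      (k9 M h3 h4 (le_of_finrank_zero (by omega) _))⟩

theorem Tw.goal (h2 : (2 : F) = 0) {m : ℕ} {p : ℕ → V} {v w : V} (o : Tw Q m p v w) {C : Set V}
    (hR : ∀ i j, i < m → j < m → i ≠ j → p i - p j ∈ C) (hv : v ∈ C) {u : V} (hz : u + w ∈ C)
    (hu : ∀ M : Submodule F V, (∀ i j, i < m → j < m → p i - p j ∈ M) → u ∈ M) {a : ℕ}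
    (ha : 3 ≤ a) (ham : a + 3 < m) {x : F} (hx0 : x ≠ 0)
    (hx : ∀ P : F → Prop, P 0 → P 1 → (∀ a, P a → P (a * (x * x))) → ∀ a, P a)
    (h0 : polar Q (p 0 - p (a + 2)) (u + w) = x) (h1 : polar Q (p 1 - p (a + 3)) (u + w) = x)
    (h3 : polar Q (u + w) (p 2 - p a) = 1) (h4 : polar Q (u + w) v = 1) : Goal Q C := by
  have hp : ∀ i, i < m → (i = 0 ∨ i = 1 ∨ i = a + 2 ∨ i = a + 3) →
      polar Q (p 0 - p (a + 2) + (p 1 - p (a + 3))) (p i - p 2) = 1 := by
    intro i hi h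
    rcases h with h | h | h | h <;>
      simp (disch := omega) only [polar_add_left, o.rt.rr, dl_ne, dl_eq] <;>
      first | ring1 | linear_combination -h2
  have hp' : ∀ i, i < m → ¬ (i = 0 ∨ i = 1 ∨ i = a + 2 ∨ i = a + 3) →
      polar Q (p 0 - p (a + 2) + (p 1 - p (a + 3))) (p i - p 2) = 0 := by
    intro i hi h
    simp (disch := omega) only [polar_add_left, o.rt.rr, dl_ne, dl_eq]
    ring
  have hs : Q (p 0 - p (a + 2) + (p 1 - p (a + 3))) = 0 := by
    simp (disch := omega) only [Qadd, o.rt.rr, o.rt.q, dl_ne, dl_eq]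
    linear_combination h2
  have hsz : polar Q (p 0 - p (a + 2) + (p 1 - p (a + 3))) (u + w) = 0 := by
    rw [polar_add_left, h0, h1]
    linear_combination x * h2
  have hsv : polar Q (p 0 - p (a + 2) + (p 1 - p (a + 3))) v = 0 := by
    simp (disch := omega) only [polar_add_left, o.rv, add_zero]
  have hcs : p 0 - p (a + 2) + (p 0 - p (a + 2) + (p 1 - p (a + 3))) = p 1 - p (a + 3) := by
    linear_combination (norm := module) h2 • (p 0 - p (a + 2))
  generalize p 0 - p (a + 2) + (p 1 - p (a + 3)) = s at *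
  have dif : ∀ i j, p i - p j = (p i - p 2) - (p j - p 2) := fun i j => by abel
  have sP : ∀ i j, (i < m ∧ (i = 0 ∨ i = 1 ∨ i = a + 2 ∨ i = a + 3)) →
      (j < m ∧ (j = 0 ∨ j = 1 ∨ j = a + 2 ∨ j = a + 3)) → polar Q s (p i - p j) = 0 :=
    fun i j hi hj => by rw [dif, polar_sub_right, hp i hi.1 hi.2, hp j hj.1 hj.2, sub_self]
  have sP' : ∀ i j, (i < m ∧ ¬ (i = 0 ∨ i = 1 ∨ i = a + 2 ∨ i = a + 3)) →
      (j < m ∧ ¬ (j = 0 ∨ j = 1 ∨ j = a + 2 ∨ j = a + 3)) → polar Q s (p i - p j) = 0 :=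
    fun i j hi hj => by rw [dif, polar_sub_right, hp' i hi.1 hi.2, hp' j hj.1 hj.2, sub_self]
  have h02 := hp 0 (by omega) (by omega)
  refine ⟨s, p 0 - p 2, hs, ⟨p 0 - p (a + 2), hR _ _ (by omega) (by omega) (by omega),
    hcs ▸ hR _ _ (by omega) (by omega) (by omega), sP _ _ (by omega) (by omega),
    fun A hsA hc hA _ => ?_⟩, hR _ _ (by omega) (by omega) (by omega), by
      rw [h02]; exact one_ne_zero⟩
  have hAP := fun (b : F) (i j : ℕ) hi hj hij => root_conn o.rt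
    (fun i => i < m ∧ (i = 0 ∨ i = 1 ∨ i = a + 2 ∨ i = a + 3)) (fun _ h => h.1)
    (fun w hw k n hk hn hkn => hA w hw _ (hR k n hk.1 hn.1 hkn) (sP k n hk hn)) (a := b)
    (i := i) (j := j) hi hj hij
  have hAP' := fun (b : F) (i j : ℕ) hi hj hij => root_conn o.rt
    (fun i => i < m ∧ ¬ (i = 0 ∨ i = 1 ∨ i = a + 2 ∨ i = a + 3)) (fun _ h => h.1)
    (fun w hw k n hk hn hkn => hA w hw _ (hR k n hk.1 hn.1 hkn) (sP' k n hk hn)) (a := b)
    (i := i) (j := j) hi hj hij
  have hz1 : ∀ b : F, b • (p 0 - p (a + 2)) ∈ A → (b * x) • (u + w) ∈ A := by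
    intro b hb
    have := hA _ hb _ hz hsz
    rwa [polar_smul_left, h0, smul_eq_mul] at this
  have hall : ∀ b : F, b • (p 0 - p (a + 2)) ∈ A := by
    refine hx _ (by simp) (by rwa [one_smul]) fun b hb => ?_
    have := hA _ (hz1 b hb) _ (hR 0 (a + 2) (by omega) (by omega) (by omega))
      (sP _ _ (by omega) (by omega))
    rwa [polar_smul_left, pcomm, h0, smul_eq_mul, mul_assoc] at this
  have hzc : u + w ∈ core F A := fun b => by
    have := hz1 (b / x) (hall _)
    rwa [div_mul_cancel₀ _ hx0] at this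
  have hvc : v ∈ core F A := fun b => by
    have := hA _ (hzc b) v hv hsv
    rwa [polar_smul_left, h4, smul_eq_mul, mul_one] at this
  have hPc : ∀ i, i < m → (i = 0 ∨ i = 1 ∨ i = a + 2 ∨ i = a + 3) → p i - p 0 ∈ core F A := by
    intro i hi h b
    by_cases e : i = 0
    · simp [e]
    · exact hAP b 0 (a + 2) (by omega) (by omega) (by omega) (hall b) i 0 ⟨hi, h⟩ (by omega) e
  have hPc' : ∀ i, i < m → ¬ (i = 0 ∨ i = 1 ∨ i = a + 2 ∨ i = a + 3) →
      p i - p 2 ∈ core F A := by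
    intro i hi h b
    by_cases e : i = 2
    · simp [e]
    · refine hAP' b 2 a (by omega) (by omega) (by omega) ?_ i 2 ⟨hi, h⟩ (by omega) e
      have := hA _ (hzc b) _ (hR 2 a (by omega) (by omega) (by omega))
        (sP' _ _ (by omega) (by omega))
      rwa [polar_smul_left, h3, smul_eq_mul, mul_one] at this
  let M : Submodule F V :=
    { carrier := {y | y - polar Q s y • (p 0 - p 2) ∈ core F A}
      zero_mem' := by simp
      add_mem' := fun {y z} hy hz => by
        have := (core F A).add_mem hy hz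
        show _ ∈ core F A
        convert this using 1
        rw [polar_add_right]
        module
      smul_mem' := fun b y hy => by
        have := (core F A).smul_mem b hy
        show _ ∈ core F A
        convert this using 1
        rw [polar_smul_right, smul_eq_mul]
        module }
  have hM : ∀ y, polar Q s y = 0 → (y ∈ M ↔ y ∈ core F A) := fun y hy => by
    show y - polar Q s y • (p 0 - p 2) ∈ core F A ↔ _
    rw [hy, zero_smul, sub_zero]
  have hM1 : ∀ i, i < m → p i - p 2 ∈ M := by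
    intro i hi
    by_cases h : i = 0 ∨ i = 1 ∨ i = a + 2 ∨ i = a + 3
    · show _ - polar Q s _ • (p 0 - p 2) ∈ core F A
      rw [hp i hi h, one_smul, sub_sub_sub_cancel_right]
      exact hPc i hi h
    · exact (hM _ (hp' i hi h)).2 (hPc' i hi h)
  have hM2 : ∀ i j, i < m → j < m → p i - p j ∈ M := fun i j hi hj => by
    rw [dif]; exact M.sub_mem (hM1 i hi) (hM1 j hj)
  intro y hy
  have := (hM y hy).1 (o.sp M hM2 ((hM v hsv).2 hvc)
    ((M.add_mem_iff_right (hu M hM2)).1 ((hM _ hsz).2 hzc)) trivial) 1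
  rwa [one_smul] at this

set_option linter.unreachableTactic false in
set_option linter.unusedTactic false in
theorem Tw.coreA [Finite F] (h2 : (2 : F) = 0) {p : ℕ → V} {v w : V}
    (o : Tw Q (2 * l + 9) p v w) : ∃ x y w, Core Q l (2 * l + 9) p x y w := by
  have rt := o.rt
  obtain ⟨g, hg0, hg⟩ := exists_gen F
  obtain ⟨x, hx⟩ := exists_sq h2 g
  obtain ⟨y, hy⟩ := exists_sq h2 (-g - Q w)
  obtain ⟨z, hz⟩ : ∃ z, z = p (2 * l + 3) - p (2 * l + 4) + x • (p (2 * l + 5) - p (2 * l + 6)) +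
    y • (p (2 * l + 7) - p (2 * l + 8)) + w := ⟨_, rfl⟩
  have H : Q z = 1 ∧ (∀ i k, i ≤ 2 * l + 2 → k ≤ 2 * l + 2 → polar Q (p i - p k) z = 0) ∧
      polar Q (p (2 * l + 3) - p (2 * l + 4)) z = 0 ∧ polar Q (p (2 * l + 5) - p (2 * l + 6)) z = 0 ∧
      polar Q (p (2 * l + 7) - p (2 * l + 8)) z = 0 ∧ polar Q (p 0 - p (2 * l + 3)) z = -1 ∧
      polar Q z v = 1 ∧ polar Q (p 0 - p (2 * l + 3 + 2)) z = x ∧
      polar Q (p 1 - p (2 * l + 3 + 3)) z = x ∧ polar Q z (p 2 - p (2 * l + 3)) = 1 := by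
    subst hz
    refine ⟨?_, ?_, ?_, ?_, ?_, ?_, ?_, ?_, ?_, ?_⟩ <;> intros <;> simp (disch := omega) only [Qadd, Qsmul, polar_add_left, polar_add_right,
      polar_smul_left, polar_smul_right, o.rt.rr, o.rt.q, o.rv, o.rw', o.vr, o.wr, o.vw, o.wv,
      o.qv, smul_eq_mul, dl_ne, dl_eq] <;>
      first | ring1 | linear_combination h2 | linear_combination -h2 |
        linear_combination x * h2 | linear_combination -x * h2 | linear_combination y * h2 |
        linear_combination hx + hy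
  obtain ⟨q1, a1, b1, b2, b3, c1, c2, c3, c4, c5⟩ := H
  have r3 : Q (p (2 * l + 3) - p (2 * l + 4)) = 1 := rt.q _ _ (by omega) (by omega) (by omega)
  have r4 : Q (p (2 * l + 4) - p (2 * l + 5)) = 1 := rt.q _ _ (by omega) (by omega) (by omega)
  have r5 : Q (p (2 * l + 5) - p (2 * l + 6)) = 1 := rt.q _ _ (by omega) (by omega) (by omega)
  have r6 : Q (p (2 * l + 6) - p (2 * l + 7)) = 1 := rt.q _ _ (by omega) (by omega) (by omega)
  have r7 : Q (p (2 * l + 7) - p (2 * l + 8)) = 1 := rt.q _ _ (by omega) (by omega) (by omega)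
  refine ⟨tr (p (2 * l + 3) - p (2 * l + 4)) (p (2 * l + 5) - p (2 * l + 6))
    (p (2 * l + 7) - p (2 * l + 8)), tr (p (2 * l + 5) - p (2 * l + 6)) (p (2 * l + 7) - p (2 * l + 8)) z,
    tr (p (2 * l + 4) - p (2 * l + 5)) (p (2 * l + 6) - p (2 * l + 7)) v, by omega, rt,
    po_tr r3 r5 r7 (rt.o (by omega)) (rt.o (by omega)) (rt.o (by omega)),
    po_tr r5 r7 q1 (rt.o (by omega)) b2 b3,
    po_tr r4 r6 o.qv (rt.o (by omega)) (o.rv _ _ (by omega) (by omega))
      (o.rv _ _ (by omega) (by omega)),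
    all_tr (P := fun v => ∀ i k, i ≤ 2 * l + 2 → k ≤ 2 * l + 2 → polar Q (p i - p k) v = 0)
      (fun i k _ _ => rt.o (by omega)) (fun i k _ _ => rt.o (by omega))
      (fun i k _ _ => rt.o (by omega)),
    all_tr (P := fun v => ∀ i k, i ≤ 2 * l + 2 → k ≤ 2 * l + 2 → polar Q (p i - p k) v = 0)
      (fun i k _ _ => rt.o (by omega)) (fun i k _ _ => rt.o (by omega)) a1,
    all_tr (P := fun v => ∀ i k, i ≤ 2 * l + 3 → k ≤ 2 * l + 3 → polar Q (p i - p k) v = 0)
      (fun i k _ _ => rt.o (by omega)) (fun i k _ _ => rt.o (by omega))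
      (fun i k _ _ => o.rv _ _ (by omega) (by omega)), ?_, fun _ => ⟨?_, ?_, ?_⟩,
    fun K e' u3 px py pw => ?_⟩
  · refine ord6 ?_ (r_mul_self _) (r_mul_self _) (r_mul_self _) (r_comm (rt.o (by omega)))
      (r_comm (rt.o (by omega))) (r_comm (rt.o (by omega))) (r_comm (rt.o (by omega)))
      (r_comm (rt.o (by omega))) (r_comm (rt.o (by omega))) (r_comm b2).symm (r_comm b1).symm
      (r_comm b2).symm (Commute.refl _) (r_comm b3) (r_comm b3)
    show (r Q (p (2 * l + 5) - p (2 * l + 6)) * r Q (p (2 * l + 3) - p (2 * l + 4)) *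
      r Q (p (2 * l + 5) - p (2 * l + 6))) ^ 4 = 1
    rw [(r_comm (rt.o (by omega))).eq, mul_assoc, r_mul_self, mul_one, show 4 = 2 * 2 by rfl,
      pow_mul, pow_two (r Q _), r_mul_self, one_pow]
  · exact wit_tr ⟨p 2 - p (2 * l + 3), (rt.u (by omega)).ne, fun i k _ _ _ _ => rt.o (by omega)⟩
      ⟨p 2 - p (2 * l + 5), (rt.u (by omega)).ne, rt.o (by omega),
        fun i k _ _ _ _ => rt.o (by omega)⟩
      ⟨p 2 - p (2 * l + 7), (rt.u (by omega)).ne, rt.o (by omega), rt.o (by omega),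
        fun i k _ _ _ _ => rt.o (by omega)⟩
  · exact wit_tr ⟨p 0 - p (2 * l + 5), (rt.u (by omega)).ne, fun i k _ _ _ _ => rt.o (by omega)⟩
      ⟨p 0 - p (2 * l + 7), (rt.u (by omega)).ne, rt.o (by omega),
        fun i k _ _ _ _ => rt.o (by omega)⟩
      ⟨p 0 - p (2 * l + 3), (Un.symm (Or.inr c1)).ne, rt.o (by omega), rt.o (by omega),
        fun i k _ _ _ _ => rt.o (by omega)⟩
  · exact wit_tr ⟨p 0 - p (2 * l + 4), (rt.u (by omega)).ne, fun i k _ _ _ _ => rt.o (by omega)⟩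
      ⟨p 0 - p (2 * l + 6), (rt.u (by omega)).ne, rt.o (by omega),
        fun i k _ _ _ _ => rt.o (by omega)⟩
      ⟨w, Un.ne (Or.inl o.vw), o.rw' _ _ (by omega) (by omega), o.rw' _ _ (by omega) (by omega),
        fun i k _ _ _ _ => o.rw' _ _ (by omega) (by omega)⟩
  · have hC := Cls_cl e' K
    have m0 := u3 0 (2 * l + 3) (by omega) le_rfl (by omega)
    have m3 := px.g0 hC m0 (Or.inr (rt.o (by omega))) (Or.inr (rt.o (by omega))) (rt.u (by omega))
    have n1 := py.g2 hC m0 (Or.inr (rt.o (by omega))) (Or.inr (rt.o (by omega))) (Or.inr c1)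
    have m4 := pw.g0 hC m3 (Or.inr (rt.o (by omega))) (Or.inr (o.rv _ _ (by omega) (by omega)))
      (rt.u (by omega))
    have m5 := px.g1 hC m4 (Or.inl m3) (Or.inr (rt.o (by omega))) (rt.u (by omega))
    have m6 := pw.g1 hC m5 (Or.inl m4) (Or.inr (o.rv _ _ (by omega) (by omega))) (rt.u (by omega))
    have m7 := px.g2 hC m6 (Or.inl m3) (Or.inl m5) (rt.u (by omega))
    have n2 := pw.g2 hC n1 (Or.inl m4) (Or.inl m6) (Or.inl c2)
    have u8 : Up p _ (2 * l + 8) := rt.up hC (by omega) (rt.up hC (by omega) (rt.up hC (by omega)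
      (rt.up hC (by omega) (rt.up hC (by omega) u3 m3) m4) m5) m6) m7
    subst hz
    refine o.goal h2 (fun i j hi hj => u8 i j (by omega) (by omega)) n2 n1 (fun M hM => ?_)
      (a := 2 * l + 3) (by omega) (by omega) (fun e => hg0 (by rw [← hx, e, mul_zero]))
      (hx ▸ hg) c3 c4 c5 c2
    repeat' first | apply add_mem | apply Submodule.smul_mem | exact hM _ _ (by omega) (by omega)

set_option linter.unreachableTactic false in
set_option linter.unusedTactic false in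
theorem Tw.coreB [Finite F] (h2 : (2 : F) = 0) {p : ℕ → V} {v w : V}
    (o : Tw Q (2 * l + 11) p v w) : ∃ x y w, Core Q l (2 * l + 11) p x y w := by
  have rt := o.rt
  obtain ⟨g, hg0, hg⟩ := exists_gen F
  obtain ⟨x, hx⟩ := exists_sq h2 g
  obtain ⟨y, hy⟩ := exists_sq h2 (-Q w)
  obtain ⟨z, hz⟩ : ∃ z, z = p (2 * l + 3) - p (2 * l + 4) + x • (p (2 * l + 5) - p (2 * l + 6)) +
    x • (p (2 * l + 7) - p (2 * l + 8)) + y • (p (2 * l + 9) - p (2 * l + 10)) + w := ⟨_, rfl⟩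
  have H : Q z = 1 ∧ (∀ i k, i ≤ 2 * l + 2 → k ≤ 2 * l + 2 → polar Q (p i - p k) z = 0) ∧
      polar Q (p (2 * l + 3) - p (2 * l + 4)) z = 0 ∧ polar Q (p (2 * l + 5) - p (2 * l + 6)) z = 0 ∧
      polar Q (p (2 * l + 6) - p (2 * l + 7)) z = 0 ∧ polar Q (p (2 * l + 7) - p (2 * l + 8)) z = 0 ∧
      polar Q (p (2 * l + 9) - p (2 * l + 10)) z = 0 ∧ polar Q (p 0 - p (2 * l + 3)) z = -1 ∧
      polar Q z v = 1 ∧ polar Q (p 0 - p (2 * l + 3 + 2)) z = x ∧
      polar Q (p 1 - p (2 * l + 3 + 3)) z = x ∧ polar Q z (p 2 - p (2 * l + 3)) = 1 := by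
    subst hz
    refine ⟨?_, ?_, ?_, ?_, ?_, ?_, ?_, ?_, ?_, ?_, ?_, ?_⟩ <;> intros <;> simp (disch := omega) only [Qadd, Qsmul, polar_add_left, polar_add_right,
      polar_smul_left, polar_smul_right, o.rt.rr, o.rt.q, o.rv, o.rw', o.vr, o.wr, o.vw, o.wv,
      o.qv, smul_eq_mul, dl_ne, dl_eq] <;>
      first | ring1 | linear_combination h2 | linear_combination -h2 |
        linear_combination x * h2 | linear_combination -x * h2 | linear_combination y * h2 |
        linear_combination x * x * h2 + hy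
  obtain ⟨q1, a1, b1, b2, b3, b4, b5, c1, c2, c3, c4, c5⟩ := H
  have r3 : Q (p (2 * l + 3) - p (2 * l + 4)) = 1 := rt.q _ _ (by omega) (by omega) (by omega)
  have r4 : Q (p (2 * l + 4) - p (2 * l + 5)) = 1 := rt.q _ _ (by omega) (by omega) (by omega)
  have r5 : Q (p (2 * l + 5) - p (2 * l + 6)) = 1 := rt.q _ _ (by omega) (by omega) (by omega)
  have r6 : Q (p (2 * l + 6) - p (2 * l + 7)) = 1 := rt.q _ _ (by omega) (by omega) (by omega)
  have r7 : Q (p (2 * l + 7) - p (2 * l + 8)) = 1 := rt.q _ _ (by omega) (by omega) (by omega)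
  have r8 : Q (p (2 * l + 8) - p (2 * l + 9)) = 1 := rt.q _ _ (by omega) (by omega) (by omega)
  have r9 : Q (p (2 * l + 9) - p (2 * l + 10)) = 1 := rt.q _ _ (by omega) (by omega) (by omega)
  refine ⟨tr (p (2 * l + 5) - p (2 * l + 6)) (p (2 * l + 7) - p (2 * l + 8))
    (p (2 * l + 3) - p (2 * l + 4)), tr (p (2 * l + 6) - p (2 * l + 7)) (p (2 * l + 9) - p (2 * l + 10)) z,
    tr (p (2 * l + 4) - p (2 * l + 5)) (p (2 * l + 8) - p (2 * l + 9)) v, by omega, rt,
    po_tr r5 r7 r3 (rt.o (by omega)) (rt.o (by omega)) (rt.o (by omega)),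
    po_tr r6 r9 q1 (rt.o (by omega)) b3 b5,
    po_tr r4 r8 o.qv (rt.o (by omega)) (o.rv _ _ (by omega) (by omega))
      (o.rv _ _ (by omega) (by omega)),
    all_tr (P := fun v => ∀ i k, i ≤ 2 * l + 2 → k ≤ 2 * l + 2 → polar Q (p i - p k) v = 0)
      (fun i k _ _ => rt.o (by omega)) (fun i k _ _ => rt.o (by omega))
      (fun i k _ _ => rt.o (by omega)),
    all_tr (P := fun v => ∀ i k, i ≤ 2 * l + 2 → k ≤ 2 * l + 2 → polar Q (p i - p k) v = 0)
      (fun i k _ _ => rt.o (by omega)) (fun i k _ _ => rt.o (by omega)) a1,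
    all_tr (P := fun v => ∀ i k, i ≤ 2 * l + 3 → k ≤ 2 * l + 3 → polar Q (p i - p k) v = 0)
      (fun i k _ _ => rt.o (by omega)) (fun i k _ _ => rt.o (by omega))
      (fun i k _ _ => o.rv _ _ (by omega) (by omega)), ?_, fun _ => ⟨?_, ?_, ?_⟩,
    fun K e' u3 px py pw => ?_⟩
  · exact ord6 (pow4 (r_mul_self _) (r_mul_self _) (r_mul_self _) (r_comm (rt.o (by omega)))
      (r_braid r7 r6 (rt.u (by omega))) (r_braid r6 r5 (rt.u (by omega)))) (r_mul_self _)
      (r_mul_self _) (r_mul_self _) (r_comm (rt.o (by omega))) (r_comm (rt.o (by omega)))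
      (r_comm (rt.o (by omega))) (r_comm (rt.o (by omega))) (r_comm (rt.o (by omega)))
      (r_comm (rt.o (by omega))) (r_comm b4).symm (r_comm b2).symm (r_comm b3).symm
      (r_comm (rt.o (by omega))) (r_comm b1) (r_comm b5)
  · exact wit_tr ⟨p 2 - p (2 * l + 5), (rt.u (by omega)).ne, fun i k _ _ _ _ => rt.o (by omega)⟩
      ⟨p 2 - p (2 * l + 7), (rt.u (by omega)).ne, rt.o (by omega),
        fun i k _ _ _ _ => rt.o (by omega)⟩
      ⟨p 2 - p (2 * l + 3), (rt.u (by omega)).ne, rt.o (by omega), rt.o (by omega),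
        fun i k _ _ _ _ => rt.o (by omega)⟩
  · exact wit_tr ⟨p 0 - p (2 * l + 6), (rt.u (by omega)).ne, fun i k _ _ _ _ => rt.o (by omega)⟩
      ⟨p 0 - p (2 * l + 9), (rt.u (by omega)).ne, rt.o (by omega),
        fun i k _ _ _ _ => rt.o (by omega)⟩
      ⟨p 0 - p (2 * l + 3), (Un.symm (Or.inr c1)).ne, rt.o (by omega), rt.o (by omega),
        fun i k _ _ _ _ => rt.o (by omega)⟩
  · exact wit_tr ⟨p 0 - p (2 * l + 4), (rt.u (by omega)).ne, fun i k _ _ _ _ => rt.o (by omega)⟩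
      ⟨p 0 - p (2 * l + 8), (rt.u (by omega)).ne, rt.o (by omega),
        fun i k _ _ _ _ => rt.o (by omega)⟩
      ⟨w, Un.ne (Or.inl o.vw), o.rw' _ _ (by omega) (by omega), o.rw' _ _ (by omega) (by omega),
        fun i k _ _ _ _ => o.rw' _ _ (by omega) (by omega)⟩
  · have hC := Cls_cl e' K
    have m0 := u3 0 (2 * l + 3) (by omega) le_rfl (by omega)
    have m3 := px.g2 hC m0 (Or.inr (rt.o (by omega))) (Or.inr (rt.o (by omega))) (rt.u (by omega))
    have n1 := py.g2 hC m0 (Or.inr (rt.o (by omega))) (Or.inr (rt.o (by omega))) (Or.inr c1)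
    have m4 := pw.g0 hC m3 (Or.inr (rt.o (by omega))) (Or.inr (o.rv _ _ (by omega) (by omega)))
      (rt.u (by omega))
    have m5 := px.g0 hC m4 (Or.inr (rt.o (by omega))) (Or.inl m3) (rt.u (by omega))
    have m6 := py.g0 hC m5 (Or.inr (rt.o (by omega))) (Or.inl n1) (rt.u (by omega))
    have m7 := px.g1 hC m6 (Or.inl m5) (Or.inl m3) (rt.u (by omega))
    have m8 := pw.g1 hC m7 (Or.inl m4) (Or.inr (o.rv _ _ (by omega) (by omega))) (rt.u (by omega))
    have m9 := py.g1 hC m8 (Or.inl m6) (Or.inl n1) (rt.u (by omega))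
    have n2 := pw.g2 hC n1 (Or.inl m4) (Or.inl m8) (Or.inl c2)
    have u10 : Up p _ (2 * l + 10) := rt.up hC (by omega) (rt.up hC (by omega) (rt.up hC (by omega)
      (rt.up hC (by omega) (rt.up hC (by omega) (rt.up hC (by omega) (rt.up hC (by omega)
        u3 m3) m4) m5) m6) m7) m8) m9
    subst hz
    refine o.goal h2 (fun i j hi hj => u10 i j (by omega) (by omega)) n2 n1 (fun M hM => ?_)
      (a := 2 * l + 3) (by omega) (by omega) (fun e => hg0 (by rw [← hx, e, mul_zero]))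
      (hx ▸ hg) c3 c4 c5 c2
    repeat' first | apply add_mem | apply Submodule.smul_mem | exact hM _ _ (by omega) (by omega)

theorem final_even [Finite F] [FiniteDimensional F V] (hQ : ND Q ⊤) (he : Even (finrank F V))
    (h10 : 10 ≤ finrank F V) : IsLeast (GenSizes (POmega Q)) 3 := by
  obtain ⟨k, hk⟩ := he
  obtain ⟨l, hl, h⟩ : ∃ l, l % 2 = 0 ∧ (finrank F V = 2 * l + 10 ∨ finrank F V = 2 * l + 12) := by
    rcases Nat.mod_two_eq_zero_or_one k with e | e
    · exact ⟨k - 6, by omega⟩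
    · exact ⟨k - 5, by omega⟩
  by_cases h2 : (2 : F) = 0
  · rcases h with h | h
    · obtain ⟨p, v, w, o⟩ := exists_tw h2 hQ (j := l + 4) (by omega)
      obtain ⟨x, y, w, c⟩ := Tw.coreA (l := l) h2 o
      exact c.main hQ hl (by omega)
    · obtain ⟨p, v, w, o⟩ := exists_tw h2 hQ (j := l + 5) (by omega)
      obtain ⟨x, y, w, c⟩ := Tw.coreB (l := l) h2 o
      exact c.main hQ hl (by omega)
  · rcases h with h | h
    · obtain ⟨e, s, s', d, o⟩ := exists_od h2 hQ (m := 2 * l + 7) (by omega)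
      obtain ⟨x, y, w, c⟩ := o.coreA h2
      exact c.main hQ hl (by omega)
    · obtain ⟨e, s, s', d, o⟩ := exists_od h2 hQ (m := 2 * l + 9) (by omega)
      obtain ⟨x, y, w, c⟩ := o.coreB h2
      exact c.main hQ hl (by omega)

end Pool.Agent.Lib.MP_cad414_al.Ten
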